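import Pool.Agent.Lib.MP_a4170f_an.Defs

open MeasureTheory Metric Set Filter Topology
open scoped ENNReal NNReal ContDiff Nat

namespace Pool.Agent.Lib.MP_a4170f_an

/-- power series -/
noncomputable def ps (a : ℕ → ℝ) (s : ℝ) : ℝ := ∑' k, a k * s ^ k

/-- coefficients of the derivative -/
noncomputable def dc (a : ℕ → ℝ) (k : ℕ) : ℝ := ((k : ℝ) + 1) * a (k + 1)

/-- factorial bound -/
def FB (a : ℕ → ℝ) : Prop := ∀ k, |a k| ≤ 1 / (k ! : ℝ)

lemma FB.dc {a : ℕ → ℝ} (h : FB a) : FB (dc a) := by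
  intro k
  have h1 := h (k + 1)
  unfold MP_a4170f_an.dc
  rw [abs_mul, abs_of_pos (by positivity : (0:ℝ) < (k:ℝ) + 1)]
  have h2 : ((k + 1) ! : ℝ) = ((k:ℝ) + 1) * (k ! : ℝ) := by
    push_cast [Nat.factorial_succ]; ring
  rw [h2] at h1
  have hk : (0:ℝ) < (k ! : ℝ) := by positivity
  have hk1 : (0:ℝ) < (k:ℝ) + 1 := by positivity
  calc ((k:ℝ) + 1) * |a (k + 1)| ≤ ((k:ℝ) + 1) * (1 / (((k:ℝ) + 1) * (k ! : ℝ))) := by gcongr
    _ = 1 / (k ! : ℝ) := by field_simp

lemma FB.summable {a : ℕ → ℝ} (h : FB a) (s : ℝ) : Summable fun k => a k * s ^ k := by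
  refine Summable.of_norm_bounded (g := fun k => |s| ^ k / (k ! : ℝ))
    (Real.summable_pow_div_factorial |s|) ?_
  intro k
  rw [norm_mul, Real.norm_eq_abs, norm_pow, Real.norm_eq_abs]
  calc |a k| * |s| ^ k ≤ 1 / (k ! : ℝ) * |s| ^ k := by gcongr; exact h k
    _ = |s| ^ k / (k ! : ℝ) := by ring

lemma FB.hasDerivAt {a : ℕ → ℝ} (h : FB a) (s : ℝ) :
    HasDerivAt (ps a) (ps (MP_a4170f_an.dc a) s) s := by
  set R : ℝ := |s| + 1 with hR
  have hR0 : 0 < R := by positivity
  have key : HasDerivAt (fun z => ∑' k : ℕ, a k * z ^ k) (∑' k : ℕ, a k * (k * s ^ (k - 1))) s := by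
    have hu : Summable (fun k : ℕ => |a k| * (k * R ^ (k - 1))) := by
      rw [← summable_nat_add_iff 1]
      refine Summable.of_nonneg_of_le (fun k => by positivity) (fun k => ?_)
        (Real.summable_pow_div_factorial R)
      have h1 := h.dc k
      unfold MP_a4170f_an.dc at h1
      rw [abs_mul, abs_of_pos (by positivity : (0:ℝ) < (k:ℝ) + 1)] at h1
      simp only [Nat.add_sub_cancel]
      push_cast
      calc |a (k + 1)| * (((k:ℝ) + 1) * R ^ k) = ((k:ℝ) + 1) * |a (k + 1)| * R ^ k := by ring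
        _ ≤ 1 / (k ! : ℝ) * R ^ k := by gcongr
        _ = R ^ k / (k ! : ℝ) := by ring
    refine hasDerivAt_tsum_of_isPreconnected (𝕜 := ℝ) (t := ball (0:ℝ) R)
      (g := fun k z => a k * z ^ k) (g' := fun k z => a k * (k * z ^ (k - 1))) (y₀ := s)
      hu isOpen_ball (convex_ball (0:ℝ) R).isPreconnected ?_ ?_ ?_ ?_ ?_
    · intro k z _
      exact (hasDerivAt_pow k z).const_mul (a k)
    · intro k z hz
      rw [mem_ball_zero_iff, Real.norm_eq_abs] at hz
      rw [norm_mul, Real.norm_eq_abs, norm_mul, norm_pow, Real.norm_eq_abs, Real.norm_eq_abs]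
      rw [Nat.abs_cast]
      gcongr
    · rw [mem_ball_zero_iff, Real.norm_eq_abs]; simp [hR]
    · exact h.summable s
    · rw [mem_ball_zero_iff, Real.norm_eq_abs]; simp [hR]
  have e : (∑' k : ℕ, a k * (k * s ^ (k - 1))) = ps (MP_a4170f_an.dc a) s := by
    have hs : Summable (fun k : ℕ => a k * (k * s ^ (k - 1))) := by
      rw [← summable_nat_add_iff 1]
      refine (h.dc.summable s).congr (fun k => ?_)
      simp only [Nat.add_sub_cancel, MP_a4170f_an.dc]
      push_cast; ring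
    rw [hs.tsum_eq_zero_add]
    simp only [Nat.cast_zero, zero_mul, mul_zero, zero_add, ps, MP_a4170f_an.dc]
    refine tsum_congr (fun k => ?_)
    simp only [Nat.add_sub_cancel]
    push_cast; ring
  rw [← e]
  exact key

lemma FB.contDiff {a : ℕ → ℝ} (h : FB a) : ContDiff ℝ ∞ (ps a) := by
  rw [contDiff_infty]
  intro n
  induction n generalizing a with
  | zero =>
    have : Continuous (ps a) := continuous_iff_continuousAt.2 fun s => (h.hasDerivAt s).continuousAt
    exact_mod_cast contDiff_zero.2 this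
  | succ n ih =>
    have hd : deriv (ps a) = ps (MP_a4170f_an.dc a) := by
      funext s; exact (h.hasDerivAt s).deriv
    have : ContDiff ℝ ((n : WithTop ℕ∞) + 1) (ps a) := by
      rw [contDiff_succ_iff_deriv]
      refine ⟨fun s => (h.hasDerivAt s).differentiableAt, ?_, ?_⟩
      · intro hn; exact absurd hn (by simp)
      · rw [hd]; exact ih h.dc
    exact_mod_cast this

/-- coefficients of `F(s) = Σ (-1)^k s^k/(k!)^2` -/
noncomputable def cF (k : ℕ) : ℝ := (-1) ^ k / (k ! : ℝ) ^ 2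

lemma FB_cF : FB cF := by
  intro k
  unfold cF
  rw [abs_div, abs_pow, abs_neg, abs_one, one_pow, abs_of_pos (by positivity)]
  have hk : (1:ℝ) ≤ (k ! : ℝ) := by exact_mod_cast Nat.succ_le_of_lt (Nat.factorial_pos k)
  apply one_div_le_one_div_of_le (by positivity)
  nlinarith

/-- `F` -/
noncomputable def F (s : ℝ) : ℝ := ps cF s
/-- `F'` -/
noncomputable def F1 (s : ℝ) : ℝ := ps (dc cF) s
/-- `F''` -/
noncomputable def F2 (s : ℝ) : ℝ := ps (dc (dc cF)) s

lemma hasDerivAt_F (s : ℝ) : HasDerivAt F (F1 s) s := FB_cF.hasDerivAt s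
lemma hasDerivAt_F1 (s : ℝ) : HasDerivAt F1 (F2 s) s := FB_cF.dc.hasDerivAt s
lemma contDiff_F : ContDiff ℝ ∞ F := FB_cF.contDiff
lemma contDiff_F1 : ContDiff ℝ ∞ F1 := FB_cF.dc.contDiff
lemma contDiff_F2 : ContDiff ℝ ∞ F2 := FB_cF.dc.dc.contDiff

lemma ode (s : ℝ) : s * F2 s + F1 s + F s = 0 := by
  unfold F F1 F2 ps
  rw [← tsum_mul_left]
  have h0 := FB_cF.summable s
  have h1 := FB_cF.dc.summable s
  have h2 := FB_cF.dc.dc.summable s
  have h2' : Summable (fun k => s * (dc (dc cF) k * s ^ k)) := h2.mul_left s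
  -- reindex
  have e2 : (∑' k, s * (dc (dc cF) k * s ^ k)) = ∑' k : ℕ, (k:ℝ) * dc cF k * s ^ k := by
    have hs : Summable (fun k : ℕ => (k:ℝ) * dc cF k * s ^ k) := by
      rw [← summable_nat_add_iff 1]
      refine h2'.congr (fun k => ?_)
      simp only [dc]; push_cast; ring
    rw [hs.tsum_eq_zero_add]
    simp only [Nat.cast_zero, zero_mul, zero_add]
    refine tsum_congr (fun k => ?_)
    simp only [dc]; push_cast; ring
  have hs : Summable (fun k : ℕ => (k:ℝ) * dc cF k * s ^ k) := by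
    rw [← summable_nat_add_iff 1]
    refine h2'.congr (fun k => ?_)
    simp only [dc]; push_cast; ring
  rw [e2, ← hs.tsum_add h1, ← (hs.add h1).tsum_add h0]
  rw [show (0:ℝ) = ∑' k : ℕ, (0:ℝ) by simp]
  refine tsum_congr (fun k => ?_)
  have : cF k = - (((k:ℝ)+1)^2 * cF (k+1)) := by
    unfold cF
    have hk : (k ! : ℝ) ≠ 0 := by positivity
    have hk1 : ((k:ℝ) + 1) ≠ 0 := by positivity
    rw [Nat.factorial_succ]
    push_cast
    field_simp
    ring
  rw [this]
  simp only [dc]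
  ring

lemma F_zero : F 0 = 1 := by
  unfold F ps
  rw [tsum_eq_single 0]
  · simp [cF]
  · intro k hk; simp [hk]

lemma F_two_neg : F 2 < 0 := by
  unfold F ps
  rw [← (FB_cF.summable 2).sum_add_tsum_nat_add 4]
  have htail : |∑' k : ℕ, cF (k + 4) * 2 ^ (k + 4)| ≤ 1 / 18 := by
    have hg : HasSum (fun k : ℕ => (1/36 : ℝ) * (1 / 2) ^ k) (1/36 * (1 - 1/2)⁻¹) :=
      (hasSum_geometric_of_lt_one (by norm_num) (by norm_num)).mul_left _
    have : ‖∑' k : ℕ, cF (k + 4) * 2 ^ (k + 4)‖ ≤ (1/36 * (1 - 1/2)⁻¹ : ℝ) := by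
      refine tsum_of_norm_bounded hg (fun k => ?_)
      unfold cF
      rw [norm_mul, norm_div, norm_pow, norm_neg, norm_one, one_pow, norm_pow, norm_pow,
        Real.norm_eq_abs, Real.norm_eq_abs, abs_of_pos (by positivity : (0:ℝ) < ((k+4)! : ℝ)),
        abs_of_pos (by norm_num : (0:ℝ) < 2)]
      induction k with
      | zero => norm_num [Nat.factorial]
      | succ k ih =>
        have hf : (((k + 1 + 4) ! : ℕ) : ℝ) = ((k:ℝ) + 5) * ((k + 4)! : ℝ) := by
          rw [show k + 1 + 4 = (k + 4) + 1 by ring, Nat.factorial_succ]; push_cast; ring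
        rw [hf]
        have hp : (0:ℝ) < ((k + 4)! : ℝ) := by positivity
        have h5 : (25:ℝ) ≤ ((k:ℝ) + 5)^2 := by nlinarith [(Nat.cast_nonneg k : (0:ℝ) ≤ k)]
        calc 1 / (((k:ℝ) + 5) * ((k + 4)! : ℝ)) ^ 2 * 2 ^ (k + 1 + 4)
            = (1 / ((k + 4)! : ℝ) ^ 2 * 2 ^ (k + 4)) * (2 / ((k:ℝ) + 5)^2) := by
              field_simp
              ring
          _ ≤ (1 / 36 * (1 / 2) ^ k) * (1 / 2) := by
              have h6 : 2 / ((k:ℝ) + 5)^2 ≤ 1 / 2 := by
                rw [div_le_div_iff₀ (by positivity) (by norm_num)]; linarith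
              exact mul_le_mul ih h6 (by positivity) (by positivity)
          _ = 1 / 36 * (1 / 2) ^ (k + 1) := by ring
    calc |∑' k : ℕ, cF (k + 4) * 2 ^ (k + 4)| ≤ (1/36 * (1 - 1/2)⁻¹ : ℝ) := this
      _ = 1 / 18 := by norm_num
  have hhead : (∑ i ∈ Finset.range 4, cF i * 2 ^ i) = - (2 / 9) := by
    simp only [Finset.sum_range_succ, Finset.sum_range_zero, cF, Nat.factorial]
    norm_num
  rw [hhead]
  have := (abs_le.1 htail).2
  linarith

/-- existence of the first zero -/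
lemma exists_first_zero : ∃ s₀ : ℝ, 0 < s₀ ∧ F s₀ = 0 ∧ ∀ s, 0 ≤ s → s < s₀ → 0 < F s := by
  have hc : Continuous F := contDiff_F.continuous
  set Z : Set ℝ := Icc 0 2 ∩ F ⁻¹' {0} with hZ
  have hZc : IsCompact Z := isCompact_Icc.inter_right (isClosed_singleton.preimage hc)
  have hne : Z.Nonempty := by
    have := intermediate_value_Icc' (by norm_num : (0:ℝ) ≤ 2) hc.continuousOn
    have h0 : (0:ℝ) ∈ Icc (F 2) (F 0) := ⟨F_two_neg.le, by rw [F_zero]; norm_num⟩
    obtain ⟨s, hs, hs0⟩ := this h0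
    exact ⟨s, hs, hs0⟩
  obtain ⟨s₀, hs₀, hmin⟩ := hZc.exists_isLeast hne
  have hpos : 0 < s₀ := by
    rcases lt_or_eq_of_le hs₀.1.1 with h | h
    · exact h
    · exfalso
      have h1 : F s₀ = 0 := hs₀.2
      rw [← h, F_zero] at h1
      norm_num at h1
  refine ⟨s₀, hpos, hs₀.2, fun s hs hs' => ?_⟩
  by_contra hneg
  push Not at hneg
  have := intermediate_value_Icc' hs hc.continuousOn
  have h0 : (0:ℝ) ∈ Icc (F s) (F 0) := ⟨hneg, by rw [F_zero]; norm_num⟩
  obtain ⟨z, hz, hz0⟩ := this h0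
  have hz2 : z ∈ Z := ⟨⟨hz.1, hz.2.trans (hs'.le.trans hs₀.1.2)⟩, hz0⟩
  have := hmin hz2
  linarith [hz.2]

/-- the first zero -/
noncomputable def s0 : ℝ := exists_first_zero.choose
lemma s0_pos : 0 < s0 := exists_first_zero.choose_spec.1
lemma F_s0 : F s0 = 0 := exists_first_zero.choose_spec.2.1
lemma F_pos {s : ℝ} (h : 0 ≤ s) (h' : s < s0) : 0 < F s := exists_first_zero.choose_spec.2.2 s h h'

lemma hasDerivAt_Q (s : ℝ) : HasDerivAt (fun s => s * F1 s) (- F s) s := by
  have := (hasDerivAt_id s).mul (hasDerivAt_F1 s)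
  refine this.congr_deriv ?_
  have := ode s
  simp only [id]
  linarith

lemma F1_neg {s : ℝ} (h : 0 < s) (h' : s ≤ s0) : F1 s < 0 := by
  have hanti : StrictAntiOn (fun s => s * F1 s) (Icc 0 s0) := by
    refine strictAntiOn_of_deriv_neg (convex_Icc 0 s0) ?_ ?_
    · exact (continuous_id.mul contDiff_F1.continuous).continuousOn
    · intro z hz
      rw [interior_Icc] at hz
      rw [(hasDerivAt_Q z).deriv]
      linarith [F_pos hz.1.le hz.2]
  have := hanti (left_mem_Icc.2 s0_pos.le) ⟨h.le, h'⟩ h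
  simp only [zero_mul] at this
  by_contra hneg
  push Not at hneg
  nlinarith

lemma F_antitone {s t : ℝ} (hs : 0 ≤ s) (hst : s ≤ t) (ht : t ≤ s0) : F t ≤ F s := by
  have hanti : AntitoneOn F (Icc 0 s0) := by
    refine antitoneOn_of_deriv_nonpos (convex_Icc 0 s0) contDiff_F.continuous.continuousOn ?_ ?_
    · intro z _; exact (hasDerivAt_F z).differentiableAt.differentiableWithinAt
    · intro z hz
      rw [interior_Icc] at hz
      rw [(hasDerivAt_F z).deriv]
      exact (F1_neg hz.1 hz.2.le).le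
  exact hanti ⟨hs, hst.trans ht⟩ ⟨hs.trans hst, ht⟩ hst

end Pool.Agent.Lib.MP_a4170f_an
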