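import Pool.Agent.Lib.MP_a4170f_an.Upper

open MeasureTheory Metric Set Filter Topology
open scoped ENNReal NNReal ContDiff InnerProductSpace

namespace Pool.Agent.Lib.MP_a4170f_an

lemma Admissible.isFinite {Ω : Set Pl} {L : ℝ} {μ : Measure Pl} (h : Admissible Ω L μ) :
    IsFiniteMeasure μ := ⟨h.mass_le.trans_lt ENNReal.ofReal_lt_top⟩

lemma Admissible.null_ball {L : ℝ} {μ : Measure Pl} (h : Admissible Om L μ) :
    μ (closedBall (0:Pl) 1)ᶜ = 0 := by
  have := h.compl_closure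
  rwa [closure_ball _ one_ne_zero] at this

lemma Admissible.support_sub {L : ℝ} {μ : Measure Pl} (h : Admissible Om L μ) :
    μ.support ⊆ closedBall (0:Pl) 1 :=
  Measure.support_subset_of_isClosed isClosed_closedBall (by rw [mem_ae_iff]; exact h.null_ball)

lemma Admissible.real_mass {L : ℝ} (hL : 0 ≤ L) {μ : Measure Pl} (h : Admissible Om L μ) :
    μ.real univ ≤ L := by
  rw [Measure.real]
  exact ENNReal.toReal_le_of_le_ofReal hL h.mass_le

/-- gradient bound near the boundary -/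
lemma exists_annulus : ∃ b G : ℝ, 0 < b ∧ b < 1 ∧ 0 ≤ G ∧ G < gp tm ∧ ∀ t ∈ Icc b 1, gp t ≤ G := by
  have h1 : ∀ᶠ t in 𝓝 (1:ℝ), gp t < (gp 1 + gp tm) / 2 :=
    continuous_gp.continuousAt.eventually (gt_mem_nhds (by linarith [gp_one_lt]))
  obtain ⟨r, hr, hb⟩ := Metric.eventually_nhds_iff.1 h1
  have h1pos : 0 < gp 1 := by
    unfold gp
    have : F1 s0 < 0 := F1_neg s0_pos le_rfl
    have := s0_pos
    simp only [one_pow, mul_one]
    nlinarith
  refine ⟨max (1/2) (1 - r / 2), (gp 1 + gp tm) / 2, ?_, ?_, ?_, ?_, ?_⟩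
  · exact lt_max_of_lt_left (by norm_num)
  · exact max_lt (by norm_num) (by linarith)
  · linarith [gp_one_lt]
  · linarith [gp_one_lt]
  · intro t ht
    apply (hb _).le
    rw [Real.dist_eq, abs_lt]
    have := (le_max_right (1/2) (1 - r / 2)).trans ht.1
    constructor <;> linarith [ht.2]

/-- the touching case: a definite loss -/
lemma touching {L : ℝ} (hL : 0 < L) : ∃ c : ℝ, 0 < c ∧ c ≤ L * gp tm ^ 2 ∧
    ∀ μ : Measure Pl, Admissible Om L μ → ¬ μ.support ⊆ Om →
      ∫ x, ‖fderiv ℝ U x‖ ^ 2 ∂μ ≤ L * gp tm ^ 2 - c := by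
  obtain ⟨b, G, hb0, hb1, hG0, hG1, hG⟩ := exists_annulus
  have hgp := gp_tm_pos
  have hd : 0 < gp tm ^ 2 - G ^ 2 := by nlinarith
  refine ⟨(gp tm ^ 2 - G ^ 2) * min L (1 - b), ?_, ?_, ?_⟩
  · have : 0 < min L (1 - b) := lt_min hL (by linarith)
    positivity
  · have h1 : min L (1 - b) ≤ L := min_le_left _ _
    have h2 : 0 ≤ min L (1 - b) := le_min hL.le (by linarith)
    nlinarith [sq_nonneg G]
  intro μ hμ hnot
  have := hμ.isFinite
  have hmass := hμ.real_mass hL.le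
  set A : Set Pl := {x | b ≤ ‖x‖} with hA
  have hAc : IsClosed A := isClosed_le continuous_const continuous_norm
  have hAm : MeasurableSet A := hAc.measurableSet
  have hkc : Continuous fun x => ‖fderiv ℝ U x‖ ^ 2 := by
    have : Continuous (fderiv ℝ U) := contDiff_U.continuous_fderiv (by simp)
    fun_prop
  -- pointwise bounds a.e.
  have hball : ∀ᵐ x ∂μ, ‖x‖ ≤ 1 := by
    rw [ae_iff]
    refine measure_mono_null ?_ hμ.null_ball
    intro x hx hx'
    exact hx (by simpa using hx')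
  have hpt : ∀ᵐ x ∂μ, ‖fderiv ℝ U x‖ ^ 2 ≤ gp tm ^ 2 - (gp tm ^ 2 - G ^ 2) * A.indicator 1 x := by
    filter_upwards [hball] with x hx
    rw [norm_fderiv_U_eq hx]
    have hle : gp ‖x‖ ≤ gp tm := gp_le ⟨norm_nonneg _, hx⟩
    have h0 : 0 ≤ gp ‖x‖ := by rw [← norm_fderiv_U_eq hx]; exact norm_nonneg _
    by_cases hxA : x ∈ A
    · rw [indicator_of_mem hxA]
      have := hG ‖x‖ ⟨hxA, hx⟩
      simp only [Pi.one_apply, mul_one, sub_sub_cancel]
      gcongr
    · rw [indicator_of_notMem hxA, mul_zero, sub_zero]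
      gcongr
  have hM : ∫ x, ‖fderiv ℝ U x‖ ^ 2 ∂μ ≤ gp tm ^ 2 * μ.real univ - (gp tm ^ 2 - G ^ 2) * μ.real A := by
    have hind : Integrable (A.indicator (1 : Pl → ℝ)) μ := (integrable_const (1:ℝ)).indicator hAm
    calc ∫ x, ‖fderiv ℝ U x‖ ^ 2 ∂μ ≤ ∫ x, (gp tm ^ 2 - (gp tm ^ 2 - G ^ 2) * A.indicator 1 x) ∂μ := by
          apply integral_mono_of_nonneg (Eventually.of_forall fun x => sq_nonneg _) _ hpt
          exact (integrable_const _).sub (hind.const_mul _)
      _ = gp tm ^ 2 * μ.real univ - (gp tm ^ 2 - G ^ 2) * μ.real A := by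
          rw [integral_sub (integrable_const _) (hind.const_mul _), integral_const, integral_const_mul,
            integral_indicator_one hAm, smul_eq_mul]
          ring
  -- lower bound for the mass of the annulus
  obtain ⟨x₀, hx₀s, hx₀⟩ : ∃ x₀ ∈ μ.support, 1 ≤ ‖x₀‖ := by
    rw [not_subset] at hnot
    obtain ⟨x₀, h1, h2⟩ := hnot
    exact ⟨x₀, h1, by simpa using h2⟩
  rcases le_or_gt (μ.real univ) (μ.real A) with hall | hlt
  · -- all mass in the annulus
    have h1 : ∫ x, ‖fderiv ℝ U x‖ ^ 2 ∂μ ≤ G ^ 2 * μ.real univ := by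
      refine hM.trans ?_
      nlinarith
    calc ∫ x, ‖fderiv ℝ U x‖ ^ 2 ∂μ ≤ G ^ 2 * L := h1.trans (by gcongr)
      _ = L * gp tm ^ 2 - (gp tm ^ 2 - G ^ 2) * L := by ring
      _ ≤ L * gp tm ^ 2 - (gp tm ^ 2 - G ^ 2) * min L (1 - b) := by
          have : min L (1 - b) ≤ L := min_le_left _ _
          gcongr
  · -- some support point outside the annulus
    have hex : ∃ y ∈ μ.support, ‖y‖ < b := by
      by_contra hcon
      push Not at hcon
      have hsub : μ.support ⊆ A := fun y hy => hcon y hy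
      have h0 : μ Aᶜ = 0 := by
        refine measure_mono_null (compl_subset_compl.2 hsub) ?_
        exact Measure.measure_compl_support
      have : μ.real univ = μ.real A := by
        rw [← measureReal_add_measureReal_compl hAm]
        have : μ.real Aᶜ = 0 := by rw [Measure.real, h0]; rfl
        rw [this, add_zero]
      linarith
    obtain ⟨y, hys, hyb⟩ := hex
    have himg : Icc b 1 ⊆ (fun x : Pl => ‖x‖) '' (μ.support ∩ A) := by
      intro t ht
      have := hμ.connected.isPreconnected.intermediate_value hys hx₀s continuous_norm.continuousOn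
      obtain ⟨z, hz, hzt⟩ := this ⟨hyb.le.trans ht.1, ht.2.trans hx₀⟩
      refine ⟨z, ⟨hz, ?_⟩, hzt⟩
      show b ≤ ‖z‖
      have : ‖z‖ = t := hzt
      rw [this]; exact ht.1
    have hH : ENNReal.ofReal (1 - b) ≤ (Measure.hausdorffMeasure 1 : Measure Pl) (μ.support ∩ A) := by
      have hl : LipschitzWith 1 (fun x : Pl => ‖x‖) := lipschitzWith_one_norm
      have h1 := (hl.lipschitzOnWith (s := μ.support ∩ A)).hausdorffMeasure_image_le zero_le_one
      simp only [ENNReal.coe_one, ENNReal.one_rpow, one_mul] at h1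
      refine le_trans ?_ h1
      rw [hausdorffMeasure_real]
      calc ENNReal.ofReal (1 - b) = volume (Icc b 1) := by rw [Real.volume_Icc]
        _ ≤ _ := measure_mono himg
    have hmA : ENNReal.ofReal (1 - b) ≤ μ A := by
      calc ENNReal.ofReal (1 - b) ≤ (Measure.hausdorffMeasure 1 : Measure Pl) (μ.support ∩ A) := hH
        _ = (Measure.hausdorffMeasure 1 : Measure Pl).restrict μ.support A := by
            rw [Measure.restrict_apply hAm, inter_comm]
        _ ≤ μ A := hμ.ge A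
    have hmA' : 1 - b ≤ μ.real A := by
      rw [Measure.real]
      exact (ENNReal.ofReal_le_iff_le_toReal (measure_ne_top _ _)).1 hmA
    have hmin : min L (1 - b) ≤ μ.real A := (min_le_right _ _).trans hmA'
    calc ∫ x, ‖fderiv ℝ U x‖ ^ 2 ∂μ ≤ gp tm ^ 2 * μ.real univ - (gp tm ^ 2 - G ^ 2) * μ.real A := hM
      _ ≤ gp tm ^ 2 * L - (gp tm ^ 2 - G ^ 2) * min L (1 - b) := by gcongr
      _ = _ := by ring

/-- comparison -/
theorem compare {L : ℝ} (hL : 0 < L) : ∃ μ₁ : Measure Pl, Admissible Om L μ₁ ∧ ∃ m₀ : ℝ, 0 < m₀ ∧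
    ∀ m, 0 < m → m < m₀ → lam1 Om m 0 < lam1 Om m μ₁ ∧
      ∀ μ, Admissible Om L μ → ¬ μ.support ⊆ Om → lam1 Om m μ < lam1 Om m μ₁ := by
  obtain ⟨c, hc0, hcL, hc⟩ := touching hL
  have hU0 := U0_pos
  have hgp := gp_tm_pos
  have hκ : (L * gp tm ^ 2 - c / 2) / U0 < L * gp tm ^ 2 / U0 := by
    gcongr
    linarith
  obtain ⟨μ₁, hμ₁, m₀, hm₀, hlow⟩ := lower_bound hL hκ
  refine ⟨μ₁, hμ₁, m₀, hm₀, fun m hm0 hm1 => ⟨?_, ?_⟩⟩
  · refine lt_of_le_of_lt (upper_bound hm0.le 0 (by simp)) (lt_of_lt_of_le ?_ (hlow m hm0 hm1))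
    have hpos : 0 < (L * gp tm ^ 2 - c / 2) / U0 := by
      apply div_pos _ hU0
      linarith
    have : 0 < m * ((L * gp tm ^ 2 - c / 2) / U0) := by positivity
    simp
    linarith
  · intro μ hμ hnot
    have := hμ.isFinite
    refine lt_of_le_of_lt (upper_bound hm0.le μ hμ.null_ball) (lt_of_lt_of_le ?_ (hlow m hm0 hm1))
    have h1 := hc μ hμ hnot
    have h2 : m * (∫ x, ‖fderiv ℝ U x‖ ^ 2 ∂μ) / U0 < m * ((L * gp tm ^ 2 - c / 2) / U0) := by
      rw [mul_div_assoc]
      gcongr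
      linarith
    linarith

end Pool.Agent.Lib.MP_a4170f_an
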