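import Mathlib

/-! Definitions for MP_a4170f_an (optimal connected stiffeners). -/

open MeasureTheory Metric Set Filter Topology
open scoped ENNReal NNReal ContDiff

namespace Pool.Agent.Lib.MP_a4170f_an

/-- The Euclidean plane. -/
abbrev Pl := EuclideanSpace ℝ (Fin 2)

/-- `u` is a nonzero smooth function with compact support contained in `Ω`. -/
def IsTest (Ω : Set Pl) (u : Pl → ℝ) : Prop :=
  ContDiff ℝ ∞ u ∧ HasCompactSupport u ∧ tsupport u ⊆ Ω ∧ u ≠ 0

/-- The Rayleigh quotient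
`(∫_Ω |∇u|² dx + m ∫ |∇u|² dμ) / ∫_Ω u² dx`. -/
noncomputable def quotient (Ω : Set Pl) (m : ℝ) (μ : Measure Pl) (u : Pl → ℝ) : ℝ :=
  ((∫ x in Ω, ‖fderiv ℝ u x‖ ^ 2) + m * ∫ x, ‖fderiv ℝ u x‖ ^ 2 ∂μ) / ∫ x in Ω, u x ^ 2

/-- `λ₁(μ)` for stiffness `m`. -/
noncomputable def lam1 (Ω : Set Pl) (m : ℝ) (μ : Measure Pl) : ℝ :=
  sInf {q : ℝ | ∃ u, IsTest Ω u ∧ q = quotient Ω m μ u}

/-- The class `𝒜^c_L` of Borel measures on `closure Ω` of mass at most `L`, with connected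
support `S` and `μ ≥ ℋ¹ ⌞ S`.  (The support of a measure is closed and the complement of the
support is a null set.) -/
structure Admissible (Ω : Set Pl) (L : ℝ) (μ : Measure Pl) : Prop where
  compl_closure : μ (closure Ω)ᶜ = 0
  mass_le : μ univ ≤ ENNReal.ofReal L
  connected : IsConnected μ.support
  ge : (Measure.hausdorffMeasure 1 : Measure Pl).restrict μ.support ≤ μ

/-- `μ` is a maximizer of `(∗)`. -/
def IsMaximizer (Ω : Set Pl) (m L : ℝ) (μ : Measure Pl) : Prop :=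
  Admissible Ω L μ ∧ ∀ ν, Admissible Ω L ν → lam1 Ω m ν ≤ lam1 Ω m μ

end Pool.Agent.Lib.MP_a4170f_an
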