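import Pool.Agent.Lib.MP_a4170f_an.Compare

open MeasureTheory Metric Set Filter Topology
open scoped ENNReal NNReal ContDiff InnerProductSpace BoundedContinuousFunction

namespace Pool.Agent.Lib.MP_a4170f_an

/-- The statement of the local Gołąb theorem. -/
def GolabStatement : Prop :=
  ∀ {ι : Type} {l : Filter ι} [l.NeBot] {μs : ι → Measure Pl} [∀ i, IsFiniteMeasure (μs i)]
    {μ : Measure Pl} [IsFiniteMeasure μ] {M : ℝ≥0∞} (_ : M ≠ ⊤) (_ : ∀ i, μs i univ ≤ M)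
    {K : Set Pl} (_ : IsCompact K) (_ : ∀ i, μs i Kᶜ = 0) (_ : μ Kᶜ = 0)
    (_ : ∀ F, IsClosed F → ∀ c : ℝ≥0∞, (∃ᶠ i in l, c ≤ μs i F) → c ≤ μ F)
    (_ : ∀ V, IsOpen V → ∀ c : ℝ≥0∞, c < μ V → ∀ᶠ i in l, c < μs i V)
    (_ : ∀ i, IsPreconnected (μs i).support)
    (_ : ∀ i, (Measure.hausdorffMeasure 1 : Measure Pl).restrict (μs i).support ≤ μs i),
    IsPreconnected μ.support ∧ (Measure.hausdorffMeasure 1 : Measure Pl).restrict μ.support ≤ μ

lemma IsTest.bounded {φ : Pl → ℝ} (h : IsTest Om φ) : ∃ C, ∀ x, ‖fderiv ℝ φ x‖ ^ 2 ≤ C := by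
  have hd : Continuous (fderiv ℝ φ) := h.1.continuous_fderiv (by simp)
  have hk : Continuous fun x => ‖fderiv ℝ φ x‖ ^ 2 := by fun_prop
  have hcs : HasCompactSupport fun x => ‖fderiv ℝ φ x‖ ^ 2 := by
    simp only [pow_two]
    exact (h.2.1.fderiv (𝕜 := ℝ)).norm.mul_left
  obtain ⟨C, hC⟩ := hk.bounded_above_of_compact_support hcs
  exact ⟨C, fun x => (le_abs_self _).trans (hC x)⟩

lemma bddAbove_lam {L m : ℝ} (hL : 0 < L) (hm : 0 < m) :
    BddAbove {q : ℝ | ∃ ν, Admissible Om L ν ∧ q = lam1 Om m ν} := by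
  obtain ⟨u, hu⟩ := exists_test
  obtain ⟨C, hC⟩ := hu.bounded
  have hC0 : 0 ≤ C := (sq_nonneg _).trans (hC 0)
  have hpos := hu.sq_pos
  refine ⟨((∫ x in Om, ‖fderiv ℝ u x‖ ^ 2) + m * (C * L)) / ∫ x in Om, u x ^ 2, ?_⟩
  rintro q ⟨ν, hν, rfl⟩
  have := hν.isFinite
  refine (csInf_le (bddBelow_quotient hm.le ν) ⟨u, hu, rfl⟩).trans ?_
  unfold quotient
  have h1 : ∫ x, ‖fderiv ℝ u x‖ ^ 2 ∂ν ≤ C * L := by
    calc ∫ x, ‖fderiv ℝ u x‖ ^ 2 ∂ν ≤ ∫ _x, C ∂ν := by
          apply integral_mono_of_nonneg (Eventually.of_forall fun x => sq_nonneg _)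
            (integrable_const _) (Eventually.of_forall hC)
      _ = C * ν.real univ := by rw [integral_const, smul_eq_mul, mul_comm]
      _ ≤ C * L := by
          have := hν.real_mass hL.le
          gcongr
  gcongr

theorem exists_max (hG : GolabStatement) {L m : ℝ} (hL : 0 < L) (hm : 0 < m) {μ₁ : Measure Pl}
    (h₁ : Admissible Om L μ₁) (hlt : lam1 Om m 0 < lam1 Om m μ₁) : ∃ μ, IsMaximizer Om m L μ := by
  set T := {ν : Measure Pl // Admissible Om L ν} with hT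
  set f : T → ℝ := fun ν => lam1 Om m ν.1 with hf
  have hne : Nonempty T := ⟨⟨μ₁, h₁⟩⟩
  set Q : Set ℝ := {q : ℝ | ∃ ν, Admissible Om L ν ∧ q = lam1 Om m ν} with hQ
  have hQb : BddAbove Q := bddAbove_lam hL hm
  have hQne : Q.Nonempty := ⟨_, μ₁, h₁, rfl⟩
  set Λ := sSup Q with hΛ
  have hΛcl : Λ ∈ closure Q := csSup_mem_closure hQne hQb
  have hQr : Q = range f := by
    ext q
    constructor
    · rintro ⟨ν, hν, rfl⟩; exact ⟨⟨ν, hν⟩, rfl⟩
    · rintro ⟨ν, rfl⟩; exact ⟨ν.1, ν.2, rfl⟩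
  have hNB : (comap f (𝓝 Λ)).NeBot := by
    rw [comap_neBot_iff]
    intro t ht
    rw [hQr] at hΛcl
    obtain ⟨_, hqt, ν, rfl⟩ := mem_closure_iff_nhds.1 hΛcl t ht
    exact ⟨ν, hqt⟩
  set 𝒰 : Ultrafilter T := Ultrafilter.of (comap f (𝓝 Λ)) with h𝒰
  have hfU : Tendsto f 𝒰 (𝓝 Λ) := tendsto_iff_comap.2 (Ultrafilter.of_le _)
  let g : T → FiniteMeasure Pl := fun ν => ⟨ν.1, ν.2.isFinite⟩
  have hcomp := isCompact_setOfPred_finiteMeasure_le_of_isCompact (E := Pl) (Real.toNNReal L)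
    (isCompact_closedBall (0:Pl) 1)
  have hgm : ∀ ν : T, (g ν).mass ≤ Real.toNNReal L ∧ (g ν) (closedBall (0:Pl) 1)ᶜ = 0 := by
    intro ν
    constructor
    · rw [← ENNReal.coe_le_coe, FiniteMeasure.ennreal_mass]
      exact ν.2.mass_le
    · rw [FiniteMeasure.null_iff_toMeasure_null]
      exact ν.2.null_ball
  have hle : (𝒰.map g : Filter (FiniteMeasure Pl)) ≤
      𝓟 {μ : FiniteMeasure Pl | μ.mass ≤ Real.toNNReal L ∧ μ (closedBall (0:Pl) 1)ᶜ = 0} := by
    rw [le_principal_iff, Ultrafilter.mem_coe, Ultrafilter.mem_map]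
    exact Filter.univ_mem' hgm
  obtain ⟨μ, hμmem, hμlim⟩ := hcomp.ultrafilter_le_nhds (𝒰.map g) hle
  have hlim : Tendsto g 𝒰 (𝓝 μ) := hμlim
  -- the limit
  have hmassle : (μ : Measure Pl) univ ≤ ENNReal.ofReal L := by
    have := hμmem.1
    rw [← ENNReal.coe_le_coe, FiniteMeasure.ennreal_mass] at this
    exact this
  have hnull : (μ : Measure Pl) (closedBall (0:Pl) 1)ᶜ = 0 := by
    rw [← FiniteMeasure.null_iff_toMeasure_null]
    exact hμmem.2
  have hfin : ∀ ν : T, IsFiniteMeasure ν.1 := fun ν => ν.2.isFinite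
  have hclosed : ∀ F, IsClosed F → ∀ c : ℝ≥0∞, (∃ᶠ ν in (𝒰 : Filter T), c ≤ ν.1 F) →
      c ≤ (μ : Measure Pl) F := by
    intro F hF c hc
    have h1 := FiniteMeasure.limsup_measure_closed_le_of_tendsto hlim hF
    exact (le_limsup_of_frequently_le hc).trans h1
  have hmasslim : Tendsto (fun ν : T => ν.1 univ) 𝒰 (𝓝 ((μ : Measure Pl) univ)) := by
    have h1 := (FiniteMeasure.continuous_mass.tendsto μ).comp hlim
    have h2 : Tendsto (fun ν : T => (((g ν).mass : ℝ≥0) : ℝ≥0∞)) 𝒰 (𝓝 ((μ.mass : ℝ≥0) : ℝ≥0∞)) :=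
      ENNReal.tendsto_coe.2 h1
    simp only [FiniteMeasure.ennreal_mass] at h2
    exact h2
  have hopen : ∀ V, IsOpen V → ∀ c : ℝ≥0∞, c < (μ : Measure Pl) V →
      ∀ᶠ ν in (𝒰 : Filter T), c < ν.1 V := by
    intro V hV c hc
    by_contra hcon
    rw [not_eventually] at hcon
    have hcon' : ∀ᶠ ν in (𝒰 : Filter T), ν.1 V ≤ c := by
      have := Ultrafilter.frequently_iff_eventually.1 hcon
      filter_upwards [this] with ν hν
      exact not_lt.1 hν
    have h1 : Tendsto (fun ν : T => ν.1 univ - c) 𝒰 (𝓝 ((μ : Measure Pl) univ - c)) :=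
      ENNReal.Tendsto.sub hmasslim tendsto_const_nhds (Or.inl (measure_ne_top _ _))
    have h2 : ∀ a : ℝ≥0∞, a < (μ : Measure Pl) univ - c → a ≤ (μ : Measure Pl) Vᶜ := by
      intro a ha
      apply hclosed _ hV.isClosed_compl
      apply Eventually.frequently
      filter_upwards [hcon', h1.eventually (lt_mem_nhds ha)] with ν hν1 hν2
      calc a ≤ ν.1 univ - c := hν2.le
        _ ≤ ν.1 univ - ν.1 V := tsub_le_tsub_left hν1 _
        _ = ν.1 Vᶜ := (measure_compl hV.measurableSet (measure_ne_top _ _)).symm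
    have h3 : (μ : Measure Pl) univ - c ≤ (μ : Measure Pl) Vᶜ := le_of_forall_lt_imp_le_of_dense h2
    rw [measure_compl hV.measurableSet (measure_ne_top _ _)] at h3
    have hVle : (μ : Measure Pl) V ≤ (μ : Measure Pl) univ := measure_mono (subset_univ _)
    have h4 : (μ : Measure Pl) V ≤ c := by
      have h5 : (μ : Measure Pl) univ ≤ (μ : Measure Pl) univ - (μ : Measure Pl) V + c :=
        tsub_le_iff_right.1 h3
      have h6 : (μ : Measure Pl) univ - (μ : Measure Pl) V + (μ : Measure Pl) V =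
          (μ : Measure Pl) univ := tsub_add_cancel_of_le hVle
      rw [← h6] at h5
      have hne : (μ : Measure Pl) univ - (μ : Measure Pl) V ≠ ⊤ :=
        ne_top_of_le_ne_top (measure_ne_top _ _) tsub_le_self
      rw [h6] at h5
      have h7 : (μ : Measure Pl) univ - (μ : Measure Pl) V + (μ : Measure Pl) V ≤
          (μ : Measure Pl) univ - (μ : Measure Pl) V + c := by rw [h6]; exact h5
      exact (ENNReal.add_le_add_iff_left hne).1 h7
    exact absurd hc (not_lt.2 h4)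
  have hres := hG (l := (𝒰 : Filter T)) (μs := fun ν : T => ν.1) (μ := (μ : Measure Pl))
    (M := ENNReal.ofReal L) ENNReal.ofReal_ne_top (fun ν => ν.2.mass_le)
    (isCompact_closedBall (0:Pl) 1) (fun ν => ν.2.null_ball) hnull hclosed hopen
    (fun ν => ν.2.connected.isPreconnected) (fun ν => ν.2.ge)
  -- the value
  have hval : Λ ≤ lam1 Om m μ := by
    apply le_csInf
    · obtain ⟨u, hu⟩ := exists_test
      exact ⟨_, u, hu, rfl⟩
    rintro q ⟨u, hu, rfl⟩
    have hd : Continuous (fderiv ℝ u) := hu.1.continuous_fderiv (by simp)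
    have hk : Continuous fun x => ‖fderiv ℝ u x‖ ^ 2 := by fun_prop
    obtain ⟨C, hC⟩ := hu.bounded
    let F : Pl →ᵇ ℝ := BoundedContinuousFunction.ofNormedAddCommGroup
      (fun x => ‖fderiv ℝ u x‖ ^ 2) hk C (fun x => by
        rw [Real.norm_of_nonneg (sq_nonneg _)]; exact hC x)
    have h1 : Tendsto (fun ν : T => ∫ x, F x ∂(g ν : Measure Pl)) 𝒰 (𝓝 (∫ x, F x ∂(μ : Measure Pl))) :=
      FiniteMeasure.tendsto_iff_forall_integral_tendsto.1 hlim F
    have h2 : Tendsto (fun ν : T => quotient Om m ν.1 u) 𝒰 (𝓝 (quotient Om m μ u)) := by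
      unfold quotient
      exact (tendsto_const_nhds.add (h1.const_mul m)).div_const _
    apply le_of_tendsto_of_tendsto hfU h2
    exact Eventually.of_forall fun ν => csInf_le (bddBelow_quotient hm.le _) ⟨u, hu, rfl⟩
  have hmax : ∀ ν, Admissible Om L ν → lam1 Om m ν ≤ Λ := fun ν hν => le_csSup hQb ⟨ν, hν, rfl⟩
  refine ⟨μ, ⟨?_, hmassle, ⟨?_, hres.1⟩, hres.2⟩, fun ν hν => (hmax ν hν).trans hval⟩
  · rw [closure_ball _ one_ne_zero]; exact hnull
  · by_contra hcon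
    rw [not_nonempty_iff_eq_empty] at hcon
    have h0 : (μ : Measure Pl) = 0 := by
      rw [← Measure.measure_univ_eq_zero]
      have : (μ : Measure Pl) (μ : Measure Pl).supportᶜ = 0 := Measure.measure_compl_support
      rwa [hcon, compl_empty] at this
    rw [h0] at hval
    linarith [hmax μ₁ h₁]

end Pool.Agent.Lib.MP_a4170f_an
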