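import Pool.Agent.Lib.MP_a4170f_an.Defs

open MeasureTheory Metric Set Filter Topology
open scoped ENNReal NNReal

namespace Pool.Agent.Lib.MP_a4170f_an

/-- one dimensional Hausdorff measure in the plane -/
noncomputable abbrev H : Measure Pl := Measure.hausdorffMeasure 1

/-- growth of connected sets, in the form: all distances between two values are attained -/
lemma growth {T : Set Pl} {x : Pl} {a b : ℝ} (h : Icc a b ⊆ (fun z => dist z x) '' T) :
    ENNReal.ofReal (b - a) ≤ H T := by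
  have hl : LipschitzWith 1 (fun z : Pl => dist z x) := LipschitzWith.dist_left x
  have h1 := (hl.lipschitzOnWith (s := T)).hausdorffMeasure_image_le zero_le_one
  simp only [ENNReal.coe_one, ENNReal.one_rpow, one_mul] at h1
  refine le_trans ?_ h1
  rw [hausdorffMeasure_real]
  calc ENNReal.ofReal (b - a) = volume (Icc a b) := by rw [Real.volume_Icc]
    _ ≤ _ := measure_mono h

lemma growth_ball {S : Set Pl} (hS : IsPreconnected S) {x y : Pl} (hx : x ∈ S) (hy : y ∈ S) {r : ℝ}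
    (hr : r ≤ dist y x) : ENNReal.ofReal r ≤ H (S ∩ closedBall x r) := by
  have h1 : Icc 0 r ⊆ (fun z => dist z x) '' (S ∩ closedBall x r) := by
    intro t ht
    have := hS.intermediate_value hx hy (f := fun z => dist z x) (by fun_prop)
    obtain ⟨z, hz, hzt⟩ := this ⟨by simpa using ht.1, ht.2.trans hr⟩
    refine ⟨z, ⟨hz, ?_⟩, hzt⟩
    rw [mem_closedBall]
    exact hzt.le.trans ht.2
  have := growth h1
  simpa using this

lemma cover_bound {E : Set Pl} {ν : Measure Pl} {c κ : ℝ} (hc : 0 < c) (hκ : 0 ≤ κ) {O : Set Pl}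
    (h : ∀ δ > 0, ∃ (t : Set Pl) (r : Pl → ℝ), t.Countable ∧
      (∀ x ∈ t, 0 < r x ∧ r x < δ ∧ closedBall x (r x) ⊆ O ∧
        ENNReal.ofReal (c * r x) ≤ ν (closedBall x (r x))) ∧
      t.PairwiseDisjoint (fun x => closedBall x (r x)) ∧ E ⊆ ⋃ x ∈ t, closedBall x (κ * r x)) :
    ENNReal.ofReal c * H E ≤ ENNReal.ofReal (2 * κ) * ν O := by
  have hδ : ∀ n : ℕ, (0:ℝ) < 1 / ((n:ℝ) + 1) := fun n => by positivity
  choose t r htc htr htd htE using fun n : ℕ => h _ (hδ n)
  have hcount : ∀ n, Countable (t n) := fun n => (htc n).to_subtype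
  have hdiam : ∀ n, ∀ i : t n, ediam (closedBall (i : Pl) (κ * r n i)) ≤
      ENNReal.ofReal (2 * κ * r n i) := by
    intro n i
    have h0 : 0 ≤ κ * r n i := mul_nonneg hκ (htr n i i.2).1.le
    refine ediam_le_of_forall_dist_le fun y hy z hz => ?_
    calc dist y z ≤ dist y (i : Pl) + dist z (i : Pl) := dist_triangle_right _ _ _
      _ ≤ κ * r n i + κ * r n i := add_le_add hy hz
      _ = 2 * κ * r n i := by ring
  have hH := Measure.hausdorffMeasure_le_liminf_tsum (X := Pl) (l := atTop) (ι := fun n => t n) 1 E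
    (fun n : ℕ => ENNReal.ofReal (2 * κ * (1 / ((n:ℝ) + 1)))) ?_
    (fun n i => closedBall (i : Pl) (κ * r n i)) ?_ ?_
  · have hS : ∀ n, ENNReal.ofReal c * ∑' i : t n, ediam (closedBall (i : Pl) (κ * r n i)) ^ (1:ℝ) ≤
        ENNReal.ofReal (2 * κ) * ν O := by
      intro n
      rw [← ENNReal.tsum_mul_left]
      calc ∑' i : t n, ENNReal.ofReal c * ediam (closedBall (i : Pl) (κ * r n i)) ^ (1:ℝ)
          ≤ ∑' i : t n, ENNReal.ofReal (2 * κ) * ν (closedBall (i : Pl) (r n i)) := by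
            refine ENNReal.tsum_le_tsum fun i => ?_
            rw [ENNReal.rpow_one]
            calc ENNReal.ofReal c * ediam (closedBall (i : Pl) (κ * r n i))
                ≤ ENNReal.ofReal c * ENNReal.ofReal (2 * κ * r n i) := by
                  gcongr; exact hdiam n i
              _ = ENNReal.ofReal (2 * κ) * ENNReal.ofReal (c * r n i) := by
                  rw [← ENNReal.ofReal_mul hc.le, ← ENNReal.ofReal_mul (by positivity)]
                  congr 1; ring
              _ ≤ _ := by gcongr; exact (htr n i i.2).2.2.2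
        _ = ENNReal.ofReal (2 * κ) * ∑' i : t n, ν (closedBall (i : Pl) (r n i)) :=
            ENNReal.tsum_mul_left
        _ = ENNReal.ofReal (2 * κ) * ν (⋃ i : t n, closedBall (i : Pl) (r n i)) := by
            rw [measure_iUnion]
            · intro i j hij
              exact htd n i.2 j.2 (fun h => hij (Subtype.ext h))
            · intro i; exact isClosed_closedBall.measurableSet
        _ ≤ _ := by
            gcongr
            exact iUnion_subset fun i => (htr n i i.2).2.2.1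
    calc ENNReal.ofReal c * H E ≤ ENNReal.ofReal c *
          liminf (fun n => ∑' i : t n, ediam (closedBall (i : Pl) (κ * r n i)) ^ (1:ℝ)) atTop := by
          gcongr
      _ ≤ ENNReal.ofReal (2 * κ) * ν O := by
          have hc0 : ENNReal.ofReal c ≠ 0 := (ENNReal.ofReal_pos.2 hc).ne'
          have hct : ENNReal.ofReal c ≠ ⊤ := ENNReal.ofReal_ne_top
          rw [mul_comm, ← ENNReal.le_div_iff_mul_le (Or.inl hc0) (Or.inl hct)]
          apply liminf_le_of_le (by isBoundedDefault)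
          intro b hb
          obtain ⟨n, hn⟩ := hb.exists
          refine hn.trans ?_
          rw [ENNReal.le_div_iff_mul_le (Or.inl hc0) (Or.inl hct), mul_comm]
          exact hS n
  · have h1 : Tendsto (fun n : ℕ => 2 * κ * (1 / ((n:ℝ) + 1))) atTop (𝓝 (2 * κ * 0)) :=
      tendsto_one_div_add_atTop_nhds_zero_nat.const_mul _
    have h2 := ENNReal.tendsto_ofReal h1
    simpa using h2
  · refine Eventually.of_forall fun n i => (hdiam n i).trans ?_
    apply ENNReal.ofReal_le_ofReal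
    have := (htr n i i.2).2.1
    have h2 : 0 ≤ 2 * κ := by positivity
    exact mul_le_mul_of_nonneg_left this.le h2
  · refine Eventually.of_forall fun n => ?_
    intro x hx
    obtain ⟨y, hy, hxy⟩ := mem_iUnion₂.1 (htE n hx)
    exact mem_iUnion.2 ⟨⟨y, hy⟩, hxy⟩

/-- coarse density lemma -/
lemma density_coarse {E : Set Pl} {ν : Measure Pl} {c : ℝ} (hc : 0 < c) {O : Set Pl}
    (hO : IsOpen O) (hEO : E ⊆ O)
    (h : ∀ x ∈ E, ∀ᶠ r in 𝓝[>] (0:ℝ), ENNReal.ofReal (c * r) ≤ ν (closedBall x r)) :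
    ENNReal.ofReal c * H E ≤ ENNReal.ofReal 10 * ν O := by
  have h10 : (10:ℝ) = 2 * 5 := by norm_num
  rw [h10]
  apply cover_bound hc (by norm_num)
  intro δ hδ
  have hex : ∀ x : E, ∃ r : ℝ, 0 < r ∧ r < δ ∧ closedBall (x : Pl) r ⊆ O ∧
      ENNReal.ofReal (c * r) ≤ ν (closedBall (x : Pl) r) := by
    intro x
    obtain ⟨ρ, hρ, hρO⟩ := Metric.isOpen_iff.1 hO x (hEO x.2)
    have h1 : ∀ᶠ r in 𝓝[>] (0:ℝ), r < min δ ρ :=
      (gt_mem_nhds (lt_min hδ hρ)).filter_mono nhdsWithin_le_nhds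
    have h2 : ∀ᶠ r in 𝓝[>] (0:ℝ), 0 < r := self_mem_nhdsWithin
    obtain ⟨r, ⟨hr1, hr2⟩, hr3⟩ := ((h x x.2).and h1 |>.and h2).exists
    refine ⟨r, hr3, hr2.trans_le (min_le_left _ _), ?_, hr1⟩
    exact (closedBall_subset_ball (hr2.trans_le (min_le_right _ _))).trans hρO
  choose r hr0 hrδ hrO hrν using hex
  classical
  let r' : Pl → ℝ := fun x => if hx : x ∈ E then r ⟨x, hx⟩ else 0
  have hr' : ∀ x (hx : x ∈ E), r' x = r ⟨x, hx⟩ := fun x hx => by simp [r', hx]
  obtain ⟨u, huE, hud, hucov⟩ := Vitali.exists_disjoint_subfamily_covering_enlargement_closedBall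
    E (fun x : Pl => x) r' δ (fun x hx => by rw [hr' x hx]; exact (hrδ _).le) 5 (by norm_num)
  refine ⟨u, r', ?_, ?_, hud, ?_⟩
  · apply hud.countable_of_nonempty_interior
    intro x hx
    rw [hr' x (huE hx)]
    exact (nonempty_ball.2 (hr0 _)).mono ball_subset_interior_closedBall
  · intro x hx
    rw [hr' x (huE hx)]
    exact ⟨hr0 ⟨x, huE hx⟩, hrδ ⟨x, huE hx⟩, hrO ⟨x, huE hx⟩, hrν ⟨x, huE hx⟩⟩
  · intro x hx
    obtain ⟨b, hb, hsub⟩ := hucov x hx
    refine mem_iUnion₂.2 ⟨b, hb, hsub ?_⟩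
    apply mem_closedBall_self
    rw [hr' x hx]; exact (hr0 _).le

/-- sharp density lemma -/
lemma density_sharp {E : Set Pl} (hE : H E ≠ ⊤) {ν : Measure Pl} {c : ℝ} (hc : 0 < c) {O : Set Pl}
    (hO : IsOpen O) (hEO : E ⊆ O)
    (h : ∀ x ∈ E, ∀ᶠ r in 𝓝[>] (0:ℝ), ENNReal.ofReal (c * r) ≤ ν (closedBall x r)) :
    ENNReal.ofReal c * H E ≤ ENNReal.ofReal 2 * ν O := by
  have hfin : IsFiniteMeasure (H.restrict E) := ⟨by
    rw [Measure.restrict_apply_univ]; exact hE.lt_top⟩
  have key : ∀ n : ℕ, ∃ (t : Set Pl) (r : Pl → ℝ), t.Countable ∧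
      (∀ x ∈ t, 0 < r x ∧ r x < 1 / ((n:ℝ) + 1) ∧ closedBall x (r x) ⊆ O ∧
        ENNReal.ofReal (c * r x) ≤ ν (closedBall x (r x))) ∧
      t.PairwiseDisjoint (fun x => closedBall x (r x)) ∧
      H (E \ ⋃ x ∈ t, closedBall x (r x)) = 0 := by
    intro n
    have hR : ∀ x : Pl, ∃ ρ : ℝ, 0 < ρ ∧ ρ ≤ 1 / ((n:ℝ) + 1) ∧ (x ∈ E → ball x ρ ⊆ O) := by
      intro x
      by_cases hx : x ∈ E
      · obtain ⟨ρ, hρ, hρO⟩ := Metric.isOpen_iff.1 hO x (hEO hx)
        refine ⟨min ρ (1 / ((n:ℝ) + 1)), lt_min hρ (by positivity), min_le_right _ _, fun _ => ?_⟩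
        exact (ball_subset_ball (min_le_left _ _)).trans hρO
      · exact ⟨1 / ((n:ℝ) + 1), by positivity, le_rfl, fun h => absurd h hx⟩
    choose R hR0 hR1 hR2 using hR
    have hf0 : ∀ x ∈ E, ∀ δ > 0,
        ({r | ENNReal.ofReal (c * r) ≤ ν (closedBall x r)} ∩ Ioo 0 δ).Nonempty := by
      intro x hx δ hδ
      have h1 : ∀ᶠ r in 𝓝[>] (0:ℝ), r < δ := (gt_mem_nhds hδ).filter_mono nhdsWithin_le_nhds
      have h2 : ∀ᶠ r in 𝓝[>] (0:ℝ), 0 < r := self_mem_nhdsWithin
      obtain ⟨r, ⟨hr1, hr2⟩, hr3⟩ := ((h x hx).and h1 |>.and h2).exists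
      exact ⟨r, hr1, hr3, hr2⟩
    obtain ⟨t, r, htc, htE, htr, htn, htd⟩ := Besicovitch.exists_disjoint_closedBall_covering_ae
      (H.restrict E) (fun x => {r | ENNReal.ofReal (c * r) ≤ ν (closedBall x r)}) E hf0 R
      (fun x _ => hR0 x)
    refine ⟨t, r, htc, ?_, htd, ?_⟩
    · intro x hx
      have h1 := htr x hx
      refine ⟨h1.2.1, h1.2.2.trans_le (hR1 x), ?_, h1.1⟩
      exact (closedBall_subset_ball h1.2.2).trans (hR2 x (htE hx))
    · have h2 := Measure.le_restrict_apply (μ := H) E (E \ ⋃ x ∈ t, closedBall x (r x))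
      rw [htn] at h2
      have h3 : (E \ ⋃ x ∈ t, closedBall x (r x)) ∩ E = E \ ⋃ x ∈ t, closedBall x (r x) :=
        inter_eq_left.2 sdiff_subset
      rw [h3] at h2
      exact le_antisymm h2 bot_le
  choose t r htc htr htd htn using key
  set N : Set Pl := ⋃ n, (E \ ⋃ x ∈ t n, closedBall x (r n x)) with hN
  have hN0 : H N = 0 := measure_iUnion_null htn
  have hEN : H E ≤ H (E \ N) := by
    calc H E ≤ H ((E \ N) ∪ N) := measure_mono (by rw [sdiff_union_self]; exact subset_union_left)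
      _ ≤ H (E \ N) + H N := measure_union_le _ _
      _ = H (E \ N) := by rw [hN0, add_zero]
  have h2 : (2:ℝ) = 2 * 1 := by norm_num
  calc ENNReal.ofReal c * H E ≤ ENNReal.ofReal c * H (E \ N) := by gcongr
    _ ≤ ENNReal.ofReal (2 * 1) * ν O := by
        apply cover_bound hc zero_le_one
        intro δ hδ
        obtain ⟨n, hn⟩ := exists_nat_one_div_lt hδ
        refine ⟨t n, r n, htc n, fun x hx => ?_, htd n, ?_⟩
        · obtain ⟨h3, h4, h5, h6⟩ := htr n x hx
          exact ⟨h3, h4.trans hn, h5, h6⟩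
        · intro x hx
          by_contra hcon
          simp only [one_mul] at hcon
          exact hx.2 (mem_iUnion.2 ⟨n, hx.1, hcon⟩)
    _ = ENNReal.ofReal 2 * ν O := by norm_num

end Pool.Agent.Lib.MP_a4170f_an
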