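import Pool.Agent.Lib.MP_a4170f_an.Golab1

open MeasureTheory Metric Set Filter Topology
open scoped ENNReal NNReal

namespace Pool.Agent.Lib.MP_a4170f_an

/-- a `δ`-chain of `n` steps in `S` -/
def IsChain' (S : Set Pl) (δ : ℝ) (n : ℕ) (x y : Pl) : Prop :=
  ∃ f : ℕ → Pl, f 0 = x ∧ f n = y ∧ (∀ i, f i ∈ S) ∧ ∀ i < n, dist (f i) (f (i + 1)) < δ

lemma chain_exists {S : Set Pl} (hS : IsPreconnected S) {δ : ℝ} (hδ : 0 < δ) {x y : Pl}
    (hx : x ∈ S) (hy : y ∈ S) : ∃ n, IsChain' S δ n x y := by
  refine hS.induction₂' (fun x y => ∃ n, IsChain' S δ n x y) ?_ ?_ hx hy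
  · intro z hz
    have h1 : ∀ᶠ w in 𝓝[S] z, dist w z < δ :=
      mem_nhdsWithin_of_mem_nhds (ball_mem_nhds z hδ)
    have h2 : ∀ᶠ w in 𝓝[S] z, w ∈ S := self_mem_nhdsWithin
    filter_upwards [h1, h2] with w hw hwS
    constructor
    · refine ⟨1, fun i => if i = 0 then z else w, by simp, by simp, ?_, ?_⟩
      · intro i; dsimp only; split_ifs <;> assumption
      · intro i hi
        have : i = 0 := by omega
        subst this
        simp
        rw [dist_comm]; exact hw
    · refine ⟨1, fun i => if i = 0 then w else z, by simp, by simp, ?_, ?_⟩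
      · intro i; dsimp only; split_ifs <;> assumption
      · intro i hi
        have : i = 0 := by omega
        subst this
        simp
        exact hw
  · rintro u v w _ _ _ ⟨n, f, hf0, hfn, hfS, hfd⟩ ⟨m, g, hg0, hgm, hgS, hgd⟩
    refine ⟨n + m, fun i => if i ≤ n then f i else g (i - n), ?_, ?_, ?_, ?_⟩
    · simp [hf0]
    · rcases Nat.eq_zero_or_pos m with h | h
      · subst h
        simp only [add_zero, le_refl, if_true]
        rw [hfn, ← hg0, hgm]
      · have : ¬ n + m ≤ n := by omega
        simp only [this, if_false]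
        rw [Nat.add_sub_cancel_left, hgm]
    · intro i; dsimp only; split_ifs
      · exact hfS i
      · exact hgS _
    · intro i hi
      dsimp only
      rcases lt_trichotomy i n with h | h | h
      · rw [if_pos h.le, if_pos (by omega)]
        exact hfd i h
      · subst h
        rw [if_pos le_rfl, if_neg (by omega), hfn]
        have := hgd 0 (by omega)
        rw [hg0] at this
        simpa using this
      · rw [if_neg (by omega), if_neg (by omega)]
        have := hgd (i - n) (by omega)
        have e : i + 1 - n = i - n + 1 := by omega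
        rw [e]; exact this

/-- a minimal chain has few steps -/
lemma chain_short {S : Set Pl} (hS : IsPreconnected S) (hfin : H S ≠ ⊤) {a b : Pl} (ha : a ∈ S)
    (hb : b ∈ S) {δ : ℝ} (hδ : 0 < δ) (hδ2 : δ ≤ dist a b) :
    ∃ n, 0 < n ∧ IsChain' S δ n a b ∧ n * δ ≤ 6 * (H S).toReal := by
  classical
  have hex := chain_exists hS hδ ha hb
  set N := Nat.find hex with hN
  obtain ⟨f, hf0, hfN, hfS, hfd⟩ := Nat.find_spec hex
  rw [← hN] at hfN hfd
  have hmin : ∀ m, m < N → ¬ IsChain' S δ m a b := fun m hm => Nat.find_min hex hm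
  have hNpos : 0 < N := by
    rcases Nat.eq_zero_or_pos N with h | h
    · exfalso
      rw [h, hf0] at hfN
      rw [hfN, dist_self] at hδ2
      linarith
    · exact h
  have hsep : ∀ i j, i + 2 ≤ j → j ≤ N → δ ≤ dist (f i) (f j) := by
    intro i j hij hjN
    by_contra hcon
    push Not at hcon
    apply hmin (N - (j - i) + 1) (by omega)
    refine ⟨fun k => if k ≤ i then f k else f (k + (j - i) - 1), ?_, ?_, ?_, ?_⟩
    · simp [hf0]
    · have : ¬ N - (j - i) + 1 ≤ i := by omega
      simp only [this, if_false]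
      have e : N - (j - i) + 1 + (j - i) - 1 = N := by omega
      rw [e, hfN]
    · intro k; dsimp only; split_ifs <;> exact hfS _
    · intro k hk
      dsimp only
      rcases lt_trichotomy k i with h | h | h
      · rw [if_pos h.le, if_pos (by omega)]
        exact hfd k (by omega)
      · subst h
        rw [if_pos le_rfl, if_neg (by omega)]
        have e : k + 1 + (j - k) - 1 = j := by omega
        rw [e]; exact hcon
      · rw [if_neg (by omega), if_neg (by omega)]
        have e : k + 1 + (j - i) - 1 = (k + (j - i) - 1) + 1 := by omega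
        rw [e]
        exact hfd _ (by omega)
  refine ⟨N, hNpos, ⟨f, hf0, hfN, hfS, hfd⟩, ?_⟩
  -- disjoint balls around even points
  have hfinm : IsFiniteMeasure (H.restrict S) := ⟨by
    rw [Measure.restrict_apply_univ]; exact hfin.lt_top⟩
  have hball : ∀ z ∈ S, ENNReal.ofReal (δ / 3) ≤ H.restrict S (closedBall z (δ / 3)) := by
    intro z hz
    rw [Measure.restrict_apply isClosed_closedBall.measurableSet, inter_comm]
    have htri : dist a b ≤ dist a z + dist b z := dist_triangle_right _ _ _
    rcases le_or_gt (δ / 3) (dist a z) with h | h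
    · exact growth_ball hS hz ha h
    · exact growth_ball hS hz hb (by linarith)
  have hsum : ∑ k ∈ Finset.range (N / 2 + 1), H.restrict S (closedBall (f (2 * k)) (δ / 3)) ≤
      H.restrict S univ := by
    apply sum_measure_le_measure_univ
    · intro i _; exact isClosed_closedBall.measurableSet.nullMeasurableSet
    · intro i hi j hj hij
      apply Disjoint.aedisjoint
      apply closedBall_disjoint_closedBall
      have hi' : i < N / 2 + 1 := by simpa using hi
      have hj' : j < N / 2 + 1 := by simpa using hj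
      rcases lt_or_gt_of_ne hij with h | h
      · have := hsep (2 * i) (2 * j) (by omega) (by omega)
        linarith
      · have := hsep (2 * j) (2 * i) (by omega) (by omega)
        rw [dist_comm] at this
        linarith
  have h1 : ((N / 2 + 1 : ℕ) : ℝ≥0∞) * ENNReal.ofReal (δ / 3) ≤ H S := by
    calc ((N / 2 + 1 : ℕ) : ℝ≥0∞) * ENNReal.ofReal (δ / 3) =
          ∑ _k ∈ Finset.range (N / 2 + 1), ENNReal.ofReal (δ / 3) := by simp
      _ ≤ ∑ k ∈ Finset.range (N / 2 + 1), H.restrict S (closedBall (f (2 * k)) (δ / 3)) :=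
          Finset.sum_le_sum fun k _ => hball _ (hfS _)
      _ ≤ H.restrict S univ := hsum
      _ = H S := Measure.restrict_apply_univ _
  have h2 : ((N / 2 + 1 : ℕ) : ℝ) * (δ / 3) ≤ (H S).toReal := by
    have := ENNReal.toReal_mono hfin h1
    rw [ENNReal.toReal_mul, ENNReal.toReal_natCast, ENNReal.toReal_ofReal (by positivity)] at this
    exact this
  have h3 : (N : ℝ) ≤ 2 * ((N / 2 + 1 : ℕ) : ℝ) := by
    have : N ≤ 2 * (N / 2 + 1) := by omega
    exact_mod_cast this
  nlinarith

lemma chain_dist {f : ℕ → Pl} {n : ℕ} {δ : ℝ} (hf : ∀ i < n, dist (f i) (f (i + 1)) < δ) :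
    ∀ i j, i ≤ j → j ≤ n → dist (f i) (f j) ≤ ((j : ℝ) - i) * δ := by
  intro i j hij
  induction j, hij using Nat.le_induction with
  | base => intro _; simp
  | succ j hj ih =>
    intro hjn
    have h1 := ih (by omega)
    have h2 := hf j (by omega)
    have h3 := dist_triangle (f i) (f j) (f (j + 1))
    push_cast
    nlinarith

/-- Lipschitz paths in continua of finite length -/
lemma exists_path {S : Set Pl} (hS : IsPreconnected S) (hc : IsCompact S) (hfin : H S ≠ ⊤)
    {a b : Pl} (ha : a ∈ S) (hb : b ∈ S) :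
    ∃ (K : ℝ≥0) (γ : ℝ → Pl), LipschitzWith K γ ∧ γ 0 = a ∧ γ 1 = b ∧ ∀ t, γ t ∈ S := by
  rcases eq_or_ne a b with hab | hab
  · exact ⟨0, fun _ => a, LipschitzWith.const _, rfl, hab, fun _ => ha⟩
  have hd : 0 < dist a b := dist_pos.2 hab
  set L := 6 * (H S).toReal with hL
  have hL0 : 0 ≤ L := by positivity
  set δ : ℕ → ℝ := fun n => dist a b * (1 / ((n : ℝ) + 1)) with hδdef
  have hδ0 : ∀ n, 0 < δ n := fun n => by positivity
  have hδ1 : ∀ n, δ n ≤ dist a b := fun n => by
    have : 1 / ((n : ℝ) + 1) ≤ 1 := by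
      rw [div_le_one (by positivity)]; linarith [(Nat.cast_nonneg n : (0:ℝ) ≤ n)]
    calc dist a b * (1 / ((n : ℝ) + 1)) ≤ dist a b * 1 := by gcongr
      _ = dist a b := mul_one _
  have hδlim : Tendsto δ atTop (𝓝 0) := by
    have := tendsto_one_div_add_atTop_nhds_zero_nat (𝕜 := ℝ) |>.const_mul (dist a b)
    rw [mul_zero] at this
    exact this
  choose N hN0 hchain hNδ using fun n => chain_short hS hfin ha hb (hδ0 n) (hδ1 n)
  choose f hf0 hfN hfS hfd using hchain
  let c : ℝ → ℝ := fun t => max 0 (min t 1)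
  have hc0 : ∀ t, 0 ≤ c t := fun t => le_max_left _ _
  have hc1 : ∀ t, c t ≤ 1 := fun t => max_le zero_le_one (min_le_right _ _)
  have hcd : ∀ s t, |c s - c t| ≤ |s - t| := by
    intro s t
    calc |c s - c t| ≤ |min s 1 - min t 1| := by
          have := abs_max_sub_max_le_abs (min s 1) (min t 1) 0
          simp only [c]
          rwa [max_comm 0, max_comm 0]
      _ ≤ |s - t| := by
          have := abs_min_sub_min_le_max s 1 t 1
          simpa using this
  let g : ℕ → ℝ → Pl := fun n t => f n ⌊c t * N n⌋₊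
  have hgS : ∀ n t, g n t ∈ S := fun n t => hfS n _
  have hfloor : ∀ n t, ⌊c t * N n⌋₊ ≤ N n := by
    intro n t
    apply Nat.floor_le_of_le
    calc c t * N n ≤ 1 * N n := by gcongr; exact hc1 t
      _ = N n := one_mul _
  have hgd : ∀ n s t, dist (g n s) (g n t) ≤ L * |s - t| + δ n := by
    intro n
    have key : ∀ s t, c s ≤ c t → dist (g n s) (g n t) ≤ L * |s - t| + δ n := by
      intro s t hst
      have hN' : (0:ℝ) ≤ N n := Nat.cast_nonneg _
      have h1 : ⌊c s * N n⌋₊ ≤ ⌊c t * N n⌋₊ := Nat.floor_mono (by gcongr)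
      have h2 := chain_dist (hfd n) _ _ h1 (hfloor n t)
      have h3 : ((⌊c t * N n⌋₊ : ℕ) : ℝ) ≤ c t * N n := Nat.floor_le (mul_nonneg (hc0 t) hN')
      have h4 : c s * N n < (⌊c s * N n⌋₊ : ℝ) + 1 := Nat.lt_floor_add_one _
      have h5 : ((⌊c t * N n⌋₊ : ℕ) : ℝ) - (⌊c s * N n⌋₊ : ℕ) ≤ (c t - c s) * N n + 1 := by
        linarith
      have h6 : c t - c s ≤ |s - t| := by
        have := hcd t s
        rw [abs_sub_comm s t]
        exact (le_abs_self _).trans this
      calc dist (g n s) (g n t) ≤ (((⌊c t * N n⌋₊ : ℕ) : ℝ) - (⌊c s * N n⌋₊ : ℕ)) * δ n := h2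
        _ ≤ ((c t - c s) * N n + 1) * δ n := by
            apply mul_le_mul_of_nonneg_right h5 (hδ0 n).le
        _ = (c t - c s) * (N n * δ n) + δ n := by ring
        _ ≤ |s - t| * L + δ n := by
            have h7 : 0 ≤ N n * δ n := mul_nonneg hN' (hδ0 n).le
            have h8 := hNδ n
            have h9 : 0 ≤ c t - c s := by linarith
            gcongr
        _ = L * |s - t| + δ n := by ring
    intro s t
    rcases le_total (c s) (c t) with h | h
    · exact key s t h
    · rw [dist_comm, abs_sub_comm]; exact key t s h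
  -- limit
  have hlim : ∀ t, ∃ z ∈ S, Tendsto (fun n => g n t) (hyperfilter ℕ : Filter ℕ) (𝓝 z) := by
    intro t
    have h1 : ((hyperfilter ℕ).map (fun n => g n t) : Filter Pl) ≤ 𝓟 S := by
      rw [le_principal_iff, Ultrafilter.mem_coe, Ultrafilter.mem_map]
      exact Filter.univ_mem' fun n => hgS n t
    obtain ⟨z, hz, hz2⟩ := hc.ultrafilter_le_nhds _ h1
    exact ⟨z, hz, hz2⟩
  choose γ hγS hγ using hlim
  have hhyp : (hyperfilter ℕ : Filter ℕ) ≤ atTop := by
    rw [← Nat.cofinite_eq_atTop]; exact hyperfilter_le_cofinite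
  have hδlim' : Tendsto δ (hyperfilter ℕ : Filter ℕ) (𝓝 0) := hδlim.mono_left hhyp
  refine ⟨⟨L, hL0⟩, γ, ?_, ?_, ?_, hγS⟩
  · apply LipschitzWith.of_dist_le_mul
    intro s t
    have h1 : Tendsto (fun n => dist (g n s) (g n t)) (hyperfilter ℕ : Filter ℕ)
        (𝓝 (dist (γ s) (γ t))) := (hγ s).dist (hγ t)
    have h2 : Tendsto (fun n => L * |s - t| + δ n) (hyperfilter ℕ : Filter ℕ)
        (𝓝 (L * |s - t| + 0)) := tendsto_const_nhds.add hδlim'
    have := le_of_tendsto_of_tendsto' h1 h2 fun n => hgd n s t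
    rw [add_zero] at this
    rw [Real.dist_eq]
    exact this
  · have h1 : ∀ n, g n 0 = a := by
      intro n
      simp [g, c, hf0]
    have h2 := hγ 0
    simp only [h1] at h2
    exact tendsto_nhds_unique h2 tendsto_const_nhds
  · have h1 : ∀ n, g n 1 = b := by
      intro n
      simp [g, c, hfN]
    have h2 := hγ 1
    simp only [h1] at h2
    exact tendsto_nhds_unique h2 tendsto_const_nhds

end Pool.Agent.Lib.MP_a4170f_an
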