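import Pool.Agent.Lib.MP_a4170f_an.Golab2

open MeasureTheory Metric Set Filter Topology
open scoped ENNReal NNReal

namespace Pool.Agent.Lib.MP_a4170f_an

/-- the image of the points with zero derivative is null -/
lemma zero_deriv_null {γ : ℝ → Pl} : H (γ '' {t | t ∈ Icc (0:ℝ) 1 ∧ HasDerivAt γ 0 t}) = 0 := by
  have key : ∀ ε : ℝ, 0 < ε → H (γ '' {t | t ∈ Icc (0:ℝ) 1 ∧ HasDerivAt γ 0 t}) ≤ ENNReal.ofReal ε := by
    intro ε hε
    let Z : ℕ → Set ℝ := fun k => {t | t ∈ Icc (0:ℝ) 1 ∧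
      ∀ s, |s - t| < 1 / ((k:ℝ) + 1) → dist (γ s) (γ t) ≤ ε * |s - t|}
    have hmono : Monotone fun k => γ '' Z k := by
      intro k l hkl
      apply image_mono
      rintro t ⟨ht, h⟩
      refine ⟨ht, fun s hs => h s (hs.trans_le ?_)⟩
      apply one_div_le_one_div_of_le (by positivity)
      have : (k:ℝ) ≤ l := by exact_mod_cast hkl
      linarith
    have hsub : γ '' {t | t ∈ Icc (0:ℝ) 1 ∧ HasDerivAt γ 0 t} ⊆ ⋃ k, γ '' Z k := by
      rintro _ ⟨t, ⟨ht, hd⟩, rfl⟩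
      have h1 := hd.isLittleO.bound hε  -- ∀ᶠ s, ‖γ s - γ t - (s - t) • 0‖ ≤ ε ‖s - t‖
      obtain ⟨ρ, hρ, hb⟩ := Metric.eventually_nhds_iff.1 h1
      obtain ⟨k, hk⟩ := exists_nat_one_div_lt hρ
      refine mem_iUnion.2 ⟨k, t, ⟨ht, fun s hs => ?_⟩, rfl⟩
      have h2 := hb (y := s) (by rw [Real.dist_eq]; exact hs.trans hk)
      rw [dist_eq_norm]
      simpa using h2
    have hk : ∀ k, H (γ '' Z k) ≤ ENNReal.ofReal ε := by
      intro k
      set M : ℕ := k + 2 with hM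
      have hM0 : (0:ℝ) < M := by rw [hM]; push_cast; positivity
      have hcov : γ '' Z k ⊆ ⋃ j ∈ Finset.range M, γ '' (Z k ∩ Icc ((j:ℝ) / M) (((j:ℝ) + 1) / M)) := by
        rintro _ ⟨t, ht, rfl⟩
        rcases eq_or_lt_of_le ht.1.2 with h1 | h1
        · refine mem_iUnion₂.2 ⟨M - 1, Finset.mem_range.2 (by omega), t, ⟨ht, ?_⟩, rfl⟩
          have e : ((M - 1 : ℕ) : ℝ) = M - 1 := by rw [Nat.cast_sub (by omega)]; simp
          rw [e, h1]
          constructor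
          · rw [div_le_one hM0]; linarith
          · rw [le_div_iff₀ hM0]; linarith
        · have hfl : ⌊t * M⌋₊ < M := by
            rw [Nat.floor_lt (mul_nonneg ht.1.1 hM0.le)]
            nlinarith
          refine mem_iUnion₂.2 ⟨⌊t * M⌋₊, Finset.mem_range.2 hfl, t, ⟨ht, ?_⟩, rfl⟩
          constructor
          · rw [div_le_iff₀ hM0]
            exact Nat.floor_le (mul_nonneg ht.1.1 hM0.le)
          · rw [le_div_iff₀ hM0]
            exact (Nat.lt_floor_add_one _).le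
      have hpiece : ∀ j : ℕ, H (γ '' (Z k ∩ Icc ((j:ℝ) / M) (((j:ℝ) + 1) / M))) ≤
          ENNReal.ofReal (ε / M) := by
        intro j
        have hl : LipschitzOnWith ⟨ε, hε.le⟩ γ (Z k ∩ Icc ((j:ℝ) / M) (((j:ℝ) + 1) / M)) := by
          apply LipschitzOnWith.of_dist_le_mul
          intro s hs t ht
          rw [Real.dist_eq]
          apply ht.1.2 s
          have h1 : |s - t| ≤ 1 / M := by
            rw [abs_le]
            have e : ((j:ℝ) + 1) / M = (j:ℝ) / M + 1 / M := by ring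
            have hs2 := hs.2
            have ht2 := ht.2
            rw [e] at hs2 ht2
            constructor <;> linarith [hs2.1, hs2.2, ht2.1, ht2.2]
          refine h1.trans_lt ?_
          apply one_div_lt_one_div_of_lt (by positivity)
          rw [hM]; push_cast; linarith
        have h1 := hl.hausdorffMeasure_image_le zero_le_one
        rw [ENNReal.rpow_one, hausdorffMeasure_real] at h1
        calc H (γ '' (Z k ∩ Icc ((j:ℝ) / M) (((j:ℝ) + 1) / M)))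
            ≤ ENNReal.ofReal ε * volume (Z k ∩ Icc ((j:ℝ) / M) (((j:ℝ) + 1) / M)) := by
              rw [ENNReal.ofReal_eq_coe_nnreal hε.le]; exact h1
          _ ≤ ENNReal.ofReal ε * volume (Icc ((j:ℝ) / M) (((j:ℝ) + 1) / M)) := by
              gcongr; exact inter_subset_right
          _ = ENNReal.ofReal (ε / M) := by
              rw [Real.volume_Icc, ← ENNReal.ofReal_mul hε.le]
              congr 1; ring
      calc H (γ '' Z k) ≤ H (⋃ j ∈ Finset.range M, γ '' (Z k ∩ Icc ((j:ℝ) / M) (((j:ℝ) + 1) / M))) :=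
            measure_mono hcov
        _ ≤ ∑ j ∈ Finset.range M, H (γ '' (Z k ∩ Icc ((j:ℝ) / M) (((j:ℝ) + 1) / M))) :=
            measure_biUnion_finset_le _ _
        _ ≤ ∑ _j ∈ Finset.range M, ENNReal.ofReal (ε / M) := Finset.sum_le_sum fun j _ => hpiece j
        _ = ENNReal.ofReal ε := by
            rw [Finset.sum_const, Finset.card_range, nsmul_eq_mul, ← ENNReal.ofReal_natCast,
              ← ENNReal.ofReal_mul hM0.le]
            congr 1; field_simp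
    calc H (γ '' {t | t ∈ Icc (0:ℝ) 1 ∧ HasDerivAt γ 0 t}) ≤ H (⋃ k, γ '' Z k) := measure_mono hsub
      _ = ⨆ k, H (γ '' Z k) := hmono.measure_iUnion
      _ ≤ ENNReal.ofReal ε := iSup_le hk
  rw [← nonpos_iff_eq_zero]
  apply ENNReal.le_of_forall_pos_le_add
  intro ε hε _
  have := key ε (by exact_mod_cast hε)
  rw [zero_add]
  simpa using this

/-- the image of the bad parameters is null -/
lemma bad_null {K : ℝ≥0} {γ : ℝ → Pl} (hγ : LipschitzWith K γ) :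
    H (γ '' {t | t ∈ Icc (0:ℝ) 1 ∧ ¬ ∃ v, v ≠ 0 ∧ HasDerivAt γ v t}) = 0 := by
  have h1 : H (γ '' {t | ¬ DifferentiableAt ℝ γ t}) = 0 := by
    have h2 : (volume : Measure ℝ) {t | ¬ DifferentiableAt ℝ γ t} = 0 := by
      have := hγ.ae_differentiableAt (μ := (volume : Measure ℝ))
      exact this
    have h3 := hγ.hausdorffMeasure_image_le zero_le_one {t | ¬ DifferentiableAt ℝ γ t}
    rw [hausdorffMeasure_real, h2, mul_zero] at h3
    exact le_antisymm h3 bot_le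
  have hsub : γ '' {t | t ∈ Icc (0:ℝ) 1 ∧ ¬ ∃ v, v ≠ 0 ∧ HasDerivAt γ v t} ⊆
      γ '' {t | ¬ DifferentiableAt ℝ γ t} ∪ γ '' {t | t ∈ Icc (0:ℝ) 1 ∧ HasDerivAt γ 0 t} := by
    rintro _ ⟨t, ⟨ht, h⟩, rfl⟩
    by_cases hd : DifferentiableAt ℝ γ t
    · right
      refine ⟨t, ⟨ht, ?_⟩, rfl⟩
      have h5 := hd.hasDerivAt
      by_cases h0 : deriv γ t = 0
      · rwa [h0] at h5
      · exact absurd ⟨_, h0, h5⟩ h
    · left; exact ⟨t, hd, rfl⟩
  refine measure_mono_null hsub ?_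
  rw [measure_union_null_iff]
  exact ⟨h1, zero_deriv_null⟩

/-- almost all of a continuum is covered by Lipschitz paths inside it -/
lemma ae_paths {S : Set Pl} (hS : IsPreconnected S) (hc : IsCompact S) (hfin : H S ≠ ⊤)
    (hnt : S.Nontrivial) : ∃ (K : ℕ × ℕ → ℝ≥0) (γ : ℕ × ℕ → ℝ → Pl),
      (∀ p, LipschitzWith (K p) (γ p)) ∧ (∀ p t, γ p t ∈ S) ∧
      H (S \ ⋃ p, γ p '' Icc 0 1) = 0 := by
  have hne : Nonempty S := hnt.nonempty.to_subtype
  let d : ℕ → Pl := fun n => (TopologicalSpace.denseSeq S n : Pl)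
  have hdS : ∀ n, d n ∈ S := fun n => (TopologicalSpace.denseSeq S n).2
  have hdense : ∀ x ∈ S, ∀ ε > 0, ∃ n, dist (d n) x < ε := by
    intro x hx ε hε
    have := TopologicalSpace.denseRange_denseSeq S
    obtain ⟨n, hn⟩ := this.exists_dist_lt (⟨x, hx⟩ : S) hε
    exact ⟨n, by rw [dist_comm]; exact hn⟩
  choose K γ hLip h0 h1 hγS using fun p : ℕ × ℕ => exists_path hS hc hfin (hdS p.1) (hdS p.2)
  refine ⟨K, γ, hLip, hγS, ?_⟩
  set A : Set Pl := ⋃ p, γ p '' Icc 0 1 with hA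
  have hAm : MeasurableSet A := MeasurableSet.iUnion fun p =>
    ((isCompact_Icc.image (hLip p).continuous).isClosed).measurableSet
  have hAS : A ⊆ S := iUnion_subset fun p => by rintro _ ⟨t, _, rfl⟩; exact hγS p t
  have hfinA : IsFiniteMeasure (H.restrict A) := ⟨by
    rw [Measure.restrict_apply_univ]
    exact (measure_mono hAS).trans_lt hfin.lt_top⟩
  obtain ⟨p₀, hp₀, q₀, hq₀, hpq⟩ := hnt
  set D := dist p₀ q₀ with hD
  have hD0 : 0 < D := dist_pos.2 hpq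
  have hν0 : H.restrict A (S \ A) = 0 := by
    have : (S \ A) ∩ A = ∅ := sdiff_inter_self
    have hSm : MeasurableSet (S \ A) := hc.isClosed.measurableSet.diff hAm
    rw [Measure.restrict_apply hSm, this, measure_empty]
  have hdens : ∀ x ∈ S \ A, ∀ᶠ r in 𝓝[>] (0:ℝ),
      ENNReal.ofReal ((1/2) * r) ≤ H.restrict A (closedBall x r) := by
    intro x hx
    have e1 : ∀ᶠ r in 𝓝[>] (0:ℝ), r < D / 2 :=
      (gt_mem_nhds (by positivity)).filter_mono nhdsWithin_le_nhds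
    have e2 : ∀ᶠ r in 𝓝[>] (0:ℝ), 0 < r := self_mem_nhdsWithin
    filter_upwards [e1, e2] with r hr1 hr2
    obtain ⟨i, hi⟩ := hdense x hx.1 (r / 4) (by positivity)
    have hfar : ∃ z ∈ S, D / 2 ≤ dist x z := by
      have := dist_triangle_left p₀ q₀ x
      rcases le_or_gt (D / 2) (dist x p₀) with h | h
      · exact ⟨p₀, hp₀, h⟩
      · exact ⟨q₀, hq₀, by linarith⟩
    obtain ⟨z, hz, hzd⟩ := hfar
    obtain ⟨j, hj⟩ := hdense z hz (D / 8) (by positivity)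
    have hdij : r / 2 ≤ dist (d j) (d i) := by
      have h3 := dist_triangle4 x (d i) (d j) z
      have h4 : dist x (d i) = dist (d i) x := dist_comm _ _
      have h5 : dist (d i) (d j) = dist (d j) (d i) := dist_comm _ _
      linarith
    have hconn : IsPreconnected (γ (i, j) '' Icc 0 1) :=
      (isPreconnected_Icc).image _ (hLip _).continuous.continuousOn
    have hi' : d i ∈ γ (i, j) '' Icc 0 1 := ⟨0, by simp, h0 (i, j)⟩
    have hj' : d j ∈ γ (i, j) '' Icc 0 1 := ⟨1, by simp, h1 (i, j)⟩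
    have hg := growth_ball hconn hi' hj' hdij
    rw [Measure.restrict_apply isClosed_closedBall.measurableSet]
    have e : (1/2) * r = r / 2 := by ring
    rw [e]
    refine hg.trans (measure_mono ?_)
    rintro y ⟨hy1, hy2⟩
    refine ⟨?_, mem_iUnion.2 ⟨(i, j), hy1⟩⟩
    rw [mem_closedBall] at hy2 ⊢
    have := dist_triangle y (d i) x
    linarith
  -- conclude
  by_contra hne0
  have hpos : 0 < H (S \ A) := pos_iff_ne_zero.2 hne0
  have hle : ∀ ε : ℝ≥0∞, 0 < ε → ENNReal.ofReal (1/2) * H (S \ A) ≤ ENNReal.ofReal 10 * ε := by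
    intro ε hε
    obtain ⟨O, hO1, hO2, hO3⟩ := (S \ A).exists_isOpen_lt_of_lt (μ := H.restrict A) ε (by rw [hν0]; exact hε)
    exact (density_coarse (by norm_num) hO2 hO1 hdens).trans (by gcongr)
  have h0' : ENNReal.ofReal (1/2) * H (S \ A) = 0 := by
    rw [← nonpos_iff_eq_zero]
    apply ENNReal.le_of_forall_pos_le_add
    intro ε hε _
    rw [zero_add]
    have h2 := hle ((ε : ℝ≥0∞) / ENNReal.ofReal 10) (by
      apply ENNReal.div_pos
      · exact_mod_cast hε.ne'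
      · exact ENNReal.ofReal_ne_top)
    rwa [ENNReal.mul_div_cancel (by simp) ENNReal.ofReal_ne_top] at h2
  rw [mul_eq_zero] at h0'
  rcases h0' with h | h
  · rw [ENNReal.ofReal_eq_zero] at h; norm_num at h
  · exact hne0 h

/-- approximate full diameter at `x` -/
def Tan (S : Set Pl) (x : Pl) : Prop :=
  ∃ e : Pl, ‖e‖ = 1 ∧ ∀ ε > 0, ∀ᶠ r in 𝓝[>] (0:ℝ), ∀ τ : ℝ, |τ| ≤ r →
    ∃ y ∈ S, dist (x + τ • e) y ≤ ε * r

lemma tan_of_deriv {S : Set Pl} {γ : ℝ → Pl} (hγS : ∀ t, γ t ∈ S) {t : ℝ} {v : Pl} (hv : v ≠ 0)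
    (hd : HasDerivAt γ v t) : Tan S (γ t) := by
  have hv0 : 0 < ‖v‖ := norm_pos_iff.2 hv
  refine ⟨(‖v‖⁻¹) • v, ?_, ?_⟩
  · rw [norm_smul, norm_inv, norm_norm, inv_mul_cancel₀ hv0.ne']
  intro ε hε
  have h1 := hd.isLittleO.bound (c := ε * ‖v‖) (by positivity)
  obtain ⟨ρ, hρ, hb⟩ := Metric.eventually_nhds_iff.1 h1
  have e1 : ∀ᶠ r in 𝓝[>] (0:ℝ), r < ρ * ‖v‖ :=
    (gt_mem_nhds (by positivity)).filter_mono nhdsWithin_le_nhds
  have e2 : ∀ᶠ r in 𝓝[>] (0:ℝ), 0 < r := self_mem_nhdsWithin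
  filter_upwards [e1, e2] with r hr1 hr2 τ hτ
  set h := τ * ‖v‖⁻¹ with hh
  refine ⟨γ (t + h), hγS _, ?_⟩
  have habs : |h| ≤ r / ‖v‖ := by
    rw [hh, abs_mul, abs_of_pos (inv_pos.2 hv0), ← div_eq_mul_inv]
    gcongr
  have h2 := hb (y := t + h) (by
    rw [Real.dist_eq, add_sub_cancel_left]
    refine habs.trans_lt ?_
    rw [div_lt_iff₀ hv0]; exact hr1)
  rw [add_sub_cancel_left, Real.norm_eq_abs] at h2
  rw [dist_comm, dist_eq_norm]
  have e3 : γ (t + h) - (γ t + τ • ‖v‖⁻¹ • v) = γ (t + h) - γ t - h • v := by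
    rw [hh, smul_smul]; abel
  rw [e3]
  calc ‖γ (t + h) - γ t - h • v‖ ≤ ε * ‖v‖ * |h| := h2
    _ ≤ ε * ‖v‖ * (r / ‖v‖) := by gcongr
    _ = ε * r := by field_simp

lemma tan_ae {S : Set Pl} (hS : IsPreconnected S) (hc : IsCompact S) (hfin : H S ≠ ⊤)
    (hnt : S.Nontrivial) : H {x | x ∈ S ∧ ¬ Tan S x} = 0 := by
  obtain ⟨K, γ, hLip, hγS, h0⟩ := ae_paths hS hc hfin hnt
  have hsub : {x | x ∈ S ∧ ¬ Tan S x} ⊆ (S \ ⋃ p, γ p '' Icc 0 1) ∪
      ⋃ p, γ p '' {t | t ∈ Icc (0:ℝ) 1 ∧ ¬ ∃ v, v ≠ 0 ∧ HasDerivAt (γ p) v t} := by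
    rintro x ⟨hx, hT⟩
    by_cases hxA : x ∈ ⋃ p, γ p '' Icc 0 1
    · right
      obtain ⟨p, t, ht, rfl⟩ := mem_iUnion.1 hxA
      refine mem_iUnion.2 ⟨p, t, ⟨ht, ?_⟩, rfl⟩
      rintro ⟨v, hv, hd⟩
      exact hT (tan_of_deriv (hγS p) hv hd)
    · left; exact ⟨hx, hxA⟩
  refine measure_mono_null hsub ?_
  rw [measure_union_null_iff]
  exact ⟨h0, measure_iUnion_null fun p => bad_null (hLip p)⟩

end Pool.Agent.Lib.MP_a4170f_an
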