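import Pool.Agent.Lib.MP_a4170f_an.Golab3

open MeasureTheory Metric Set Filter Topology
open scoped ENNReal NNReal InnerProductSpace

namespace Pool.Agent.Lib.MP_a4170f_an

/-- the geometric core of the local Gołąb theorem -/
lemma core {S : Set Pl} (hS : IsPreconnected S) (hScl : IsClosed S) {x e : Pl} (he : ‖e‖ = 1)
    {r a : ℝ} (hr : 0 < r) (ha : 0 < a) (ha2 : a < 1 / 2) {n : ℕ} (hn : 4 / a < n) {η : ℝ}
    (hη : η = a / (2 * n))
    (hnear : ∀ τ : ℝ, |τ| ≤ r → ∃ y ∈ S, dist (x + τ • e) y ≤ η * r)
    (hout : ∃ y ∈ S, r < dist y x) : ENNReal.ofReal (2 * (1 - 2 * a) * r) ≤ H (S ∩ closedBall x r) := by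
  have hn0 : (0:ℝ) < n := lt_trans (by positivity) hn
  have hn8 : (8:ℝ) < n := by
    refine lt_of_le_of_lt ?_ hn
    rw [le_div_iff₀ ha]; linarith
  have hη0 : 0 < η := by rw [hη]; positivity
  have hηa : η ≤ a / 2 := by
    rw [hη]
    apply div_le_div_of_nonneg_left ha.le (by norm_num)
    linarith
  set T := S ∩ closedBall x r with hT
  by_contra hcon
  push Not at hcon
  have hTfin : H T ≠ ⊤ := ne_top_of_lt hcon
  have hTr : (H T).toReal < 2 * r := by
    have h1 := (ENNReal.toReal_lt_toReal hTfin ENNReal.ofReal_ne_top).2 hcon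
    have h2 : 0 ≤ 2 * (1 - 2 * a) * r := by
      have : 0 ≤ 1 - 2 * a := by linarith
      positivity
    rw [ENNReal.toReal_ofReal h2] at h1
    nlinarith
  set p : Pl → ℝ := fun y => ⟪y - x, e⟫_ℝ with hp
  have hpc : Continuous p := by fun_prop
  have hplip : ∀ y z, |p y - p z| ≤ dist y z := by
    intro y z
    have h1 : p y - p z = ⟪y - z, e⟫_ℝ := by
      simp only [hp]
      rw [← inner_sub_left]; congr 1; abel
    rw [h1, dist_eq_norm]
    have := abs_real_inner_le_norm (y - z) e
    rwa [he, mul_one] at this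
  have hpx : ∀ τ : ℝ, p (x + τ • e) = τ := by
    intro τ
    simp only [hp, add_sub_cancel_left, inner_smul_left, real_inner_self_eq_norm_sq, he]
    simp
  set w := 4 * η * r with hw
  set q := a * r / 2 with hq
  have hw0 : 0 < w := by positivity
  have hq0 : 0 < q := by positivity
  set G : Set ℝ := Icc (-((1 - a) * r)) ((1 - a) * r) \ p '' T with hG
  -- claim 1
  have claim1 : ∀ g ∈ G, ∀ g' ∈ G, g + w ≤ g' → ENNReal.ofReal q ≤ H (T ∩ {z | g < p z ∧ p z < g'}) := by
    intro g hg g' hg' hgg
    set c := (g + g') / 2 with hc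
    have hcabs : |c| ≤ (1 - a) * r := by
      rw [abs_le]; constructor <;> [linarith [hg.1.1, hg'.1.1]; linarith [hg.1.2, hg'.1.2]]
    have hcr : |c| ≤ r := hcabs.trans (by nlinarith)
    obtain ⟨y, hyS, hyd⟩ := hnear c hcr
    have hpy : |p y - c| ≤ η * r := by
      have h1 := hplip y (x + c • e)
      rw [hpx, dist_comm] at h1
      exact h1.trans hyd
    have hηr : 0 < η * r := by positivity
    have hpy1 : g < p y := by
      have := (abs_le.1 hpy).1
      have : w = 4 * (η * r) := by rw [hw]; ring
      linarith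
    have hpy2 : p y < g' := by
      have := (abs_le.1 hpy).2
      have : w = 4 * (η * r) := by rw [hw]; ring
      linarith
    have hyx : dist y x ≤ r - q := by
      have h1 : dist (x + c • e) x = |c| := by
        rw [dist_eq_norm, add_sub_cancel_left, norm_smul, he, mul_one, Real.norm_eq_abs]
      have h2 := dist_triangle y (x + c • e) x
      rw [dist_comm y (x + c • e)] at h2
      have h3 : η * r ≤ a / 2 * r := by gcongr
      rw [hq]
      nlinarith
    obtain ⟨y', hy'S, hy'd⟩ := hout
    have himg : Icc (dist y x) r ⊆ (fun z => dist z x) '' (T ∩ {z | g < p z ∧ p z < g'}) := by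
      intro t ht
      by_contra hnot
      have hV1 : IsOpen {z : Pl | dist z x < t ∧ (g < p z ∧ p z < g')} := by
        apply IsOpen.inter
        · exact isOpen_lt (continuous_id.dist continuous_const) continuous_const
        · exact (isOpen_lt continuous_const hpc).inter (isOpen_lt hpc continuous_const)
      have hV2 : IsOpen {z : Pl | t < dist z x ∨ (p z < g ∨ g' < p z)} := by
        apply IsOpen.union
        · exact isOpen_lt continuous_const (continuous_id.dist continuous_const)
        · exact (isOpen_lt hpc continuous_const).union (isOpen_lt continuous_const hpc)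
      have hdisj : Disjoint {z : Pl | dist z x < t ∧ (g < p z ∧ p z < g')}
          {z : Pl | t < dist z x ∨ (p z < g ∨ g' < p z)} := by
        rw [Set.disjoint_left]
        rintro z ⟨h1, h2, h3⟩ h4
        rcases h4 with h4 | h4 | h4 <;> linarith
      have hcov : S ⊆ {z : Pl | dist z x < t ∧ (g < p z ∧ p z < g')} ∪
          {z : Pl | t < dist z x ∨ (p z < g ∨ g' < p z)} := by
        intro z hz
        by_cases h1 : t < dist z x
        · right; left; exact h1
        · push Not at h1
          have hzT : z ∈ T := ⟨hz, h1.trans ht.2⟩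
          have hne1 : p z ≠ g := fun h => hg.2 ⟨z, hzT, h⟩
          have hne2 : p z ≠ g' := fun h => hg'.2 ⟨z, hzT, h⟩
          by_cases h2 : g < p z ∧ p z < g'
          · left
            refine ⟨lt_of_le_of_ne h1 ?_, h2⟩
            intro h3
            exact hnot ⟨z, ⟨hzT, h2⟩, h3⟩
          · right; right
            by_contra h3
            push Not at h3
            exact h2 ⟨lt_of_le_of_ne h3.1 (Ne.symm hne1), lt_of_le_of_ne h3.2 hne2⟩
      rcases hS.subset_or_subset hV1 hV2 hdisj hcov with h | h
      · have := (h hy'S).1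
        linarith [ht.2]
      · rcases h hyS with h1 | h1 | h1
        · linarith [ht.1]
        · linarith
        · linarith
    have := growth himg
    refine le_trans (ENNReal.ofReal_le_ofReal ?_) this
    linarith
  -- the distribution function
  set Mf : ℝ → ℝ := fun g => (H (T ∩ {z | p z < g})).toReal with hMf
  have hMfin : ∀ A : Set Pl, H (T ∩ A) ≠ ⊤ := fun A =>
    ne_top_of_le_ne_top hTfin (measure_mono inter_subset_left)
  have claim2 : ∀ g ∈ G, ∀ g' ∈ G, g + w ≤ g' → Mf g + q ≤ Mf g' := by
    intro g hg g' hg' hgg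
    have h1 := claim1 g hg g' hg' hgg
    have hTm : MeasurableSet T := (hScl.inter isClosed_closedBall).measurableSet
    have hd : Disjoint (T ∩ {z | p z < g}) (T ∩ {z | g < p z ∧ p z < g'}) := by
      rw [Set.disjoint_left]
      rintro z ⟨_, h2⟩ ⟨_, h3, _⟩
      have h2' : p z < g := h2
      linarith
    have hm : MeasurableSet (T ∩ {z | g < p z ∧ p z < g'}) := by
      apply hTm.inter
      exact ((isOpen_lt continuous_const hpc).inter (isOpen_lt hpc continuous_const)).measurableSet
    have h4 : H (T ∩ {z | p z < g}) + H (T ∩ {z | g < p z ∧ p z < g'}) ≤ H (T ∩ {z | p z < g'}) := by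
      rw [← measure_union hd hm]
      apply measure_mono
      rintro z (⟨h5, h6⟩ | ⟨h5, _, h7⟩)
      · refine ⟨h5, ?_⟩
        have h6' : p z < g := h6
        show p z < g'
        linarith
      · exact ⟨h5, h7⟩
    have h8 := ENNReal.toReal_mono (hMfin _) ((add_le_add le_rfl h1).trans h4)
    rw [ENNReal.toReal_add (hMfin _) ENNReal.ofReal_ne_top, ENNReal.toReal_ofReal hq0.le] at h8
    exact h8
  have hMle : ∀ g, Mf g < n * q := by
    intro g
    have h1 : Mf g ≤ (H T).toReal := ENNReal.toReal_mono hTfin (measure_mono inter_subset_left)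
    have h2 : 2 * r < n * q := by
      rw [hq]
      rw [div_lt_iff₀ ha] at hn
      nlinarith
    linarith
  have hM0 : ∀ g, 0 ≤ Mf g := fun g => ENNReal.toReal_nonneg
  -- volume of the gaps
  have hGvol : volume G ≤ ENNReal.ofReal (n * w) := by
    have hcov : G ⊆ ⋃ k ∈ Finset.range n, {g | g ∈ G ∧ k * q ≤ Mf g ∧ Mf g < (k + 1) * q} := by
      intro g hg
      have hfl : ⌊Mf g / q⌋₊ < n := by
        rw [Nat.floor_lt (div_nonneg (hM0 g) hq0.le), div_lt_iff₀ hq0]
        exact hMle g
      refine mem_iUnion₂.2 ⟨⌊Mf g / q⌋₊, Finset.mem_range.2 hfl, hg, ?_, ?_⟩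
      · rw [← le_div_iff₀ hq0]
        exact Nat.floor_le (div_nonneg (hM0 g) hq0.le)
      · rw [← div_lt_iff₀ hq0]
        exact Nat.lt_floor_add_one _
    have hpiece : ∀ k : ℕ, volume {g | g ∈ G ∧ k * q ≤ Mf g ∧ Mf g < (k + 1) * q} ≤ ENNReal.ofReal w := by
      intro k
      refine (Real.volume_le_diam _).trans ?_
      apply ediam_le_of_forall_dist_le
      have key : ∀ g g', g ∈ G → g' ∈ G → k * q ≤ Mf g → Mf g' < (k + 1) * q → g' - g < w := by
        intro g g' hg hg' h1 h2
        by_contra h3
        push Not at h3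
        have := claim2 g hg g' hg' (by linarith)
        linarith
      rintro g ⟨hg, h1, h2⟩ g' ⟨hg', h3, h4⟩
      rw [Real.dist_eq, abs_le]
      have k1 := key g g' hg hg' h1 h4
      have k2 := key g' g hg' hg h3 h2
      constructor <;> linarith
    calc volume G ≤ volume (⋃ k ∈ Finset.range n, {g | g ∈ G ∧ k * q ≤ Mf g ∧ Mf g < (k + 1) * q}) :=
          measure_mono hcov
      _ ≤ ∑ k ∈ Finset.range n, volume {g | g ∈ G ∧ k * q ≤ Mf g ∧ Mf g < (k + 1) * q} :=
          measure_biUnion_finset_le _ _
      _ ≤ ∑ _k ∈ Finset.range n, ENNReal.ofReal w := Finset.sum_le_sum fun k _ => hpiece k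
      _ = ENNReal.ofReal (n * w) := by
          rw [Finset.sum_const, Finset.card_range, nsmul_eq_mul, ← ENNReal.ofReal_natCast,
            ← ENNReal.ofReal_mul hn0.le]
  -- volume of the projection
  have hPvol : volume (p '' T) ≤ H T := by
    have hl : LipschitzOnWith 1 p T := by
      apply LipschitzOnWith.of_dist_le_mul
      intro y _ z _
      rw [Real.dist_eq, NNReal.coe_one, one_mul]
      exact hplip y z
    have h1 := hl.hausdorffMeasure_image_le zero_le_one
    rwa [ENNReal.rpow_one, ENNReal.coe_one, one_mul, hausdorffMeasure_real] at h1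
  have hI : ENNReal.ofReal (2 * (1 - a) * r) ≤ H T + ENNReal.ofReal (n * w) := by
    calc ENNReal.ofReal (2 * (1 - a) * r) = volume (Icc (-((1 - a) * r)) ((1 - a) * r)) := by
          rw [Real.volume_Icc]; congr 1; ring
      _ ≤ volume (p '' T ∪ G) := by
          apply measure_mono
          intro g hg
          by_cases h : g ∈ p '' T
          · left; exact h
          · right; exact ⟨hg, h⟩
      _ ≤ volume (p '' T) + volume G := measure_union_le _ _
      _ ≤ _ := add_le_add hPvol hGvol
  have hnw : n * w = 2 * a * r := by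
    rw [hw, hη]; field_simp; ring
  have h9 : 2 * (1 - a) * r ≤ (H T).toReal + 2 * a * r := by
    have h10 := ENNReal.toReal_mono (ENNReal.add_ne_top.2 ⟨hTfin, ENNReal.ofReal_ne_top⟩) hI
    rw [ENNReal.toReal_add hTfin ENNReal.ofReal_ne_top, hnw, ENNReal.toReal_ofReal (by
        have : 0 ≤ 1 - a := by linarith
        positivity), ENNReal.toReal_ofReal (by positivity)] at h10
    exact h10
  have h11 : 2 * (1 - 2 * a) * r ≤ (H T).toReal := by nlinarith
  have h12 : ENNReal.ofReal (2 * (1 - 2 * a) * r) ≤ H T := by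
    rw [← ENNReal.ofReal_toReal hTfin]
    exact ENNReal.ofReal_le_ofReal h11
  exact absurd hcon (not_lt.2 h12)

end Pool.Agent.Lib.MP_a4170f_an
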