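import Pool.Agent.Lib.MP_a4170f_an.Golab4
import Pool.Agent.Lib.MP_a4170f_an.Exist

open MeasureTheory Metric Set Filter Topology
open scoped ENNReal NNReal InnerProductSpace

namespace Pool.Agent.Lib.MP_a4170f_an

lemma support_nonempty_inter {μ : Measure Pl} {V : Set Pl} (h : 0 < μ V) : (μ.support ∩ V).Nonempty := by
  by_contra hcon
  rw [not_nonempty_iff_eq_empty] at hcon
  have hsub : V ⊆ μ.supportᶜ := by
    intro x hx hx'
    have : x ∈ μ.support ∩ V := ⟨hx', hx⟩
    rw [hcon] at this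
    exact this
  have h0 : μ V = 0 := measure_mono_null hsub Measure.measure_compl_support
  rw [h0] at h
  exact lt_irrefl _ h

section
variable {ι : Type} {l : Filter ι} {μs : ι → Measure Pl} {μ : Measure Pl}

lemma low (hopen : ∀ V, IsOpen V → ∀ c : ℝ≥0∞, c < μ V → ∀ᶠ i in l, c < μs i V)
    {x : Pl} (hx : x ∈ μ.support) {ε : ℝ} (hε : 0 < ε) :
    ∀ᶠ i in l, ∃ z ∈ (μs i).support, dist z x < ε := by
  have h1 : 0 < μ (ball x ε) := (Measure.mem_support_iff_forall x).1 hx _ (ball_mem_nhds x hε)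
  filter_upwards [hopen _ isOpen_ball 0 h1] with i hi
  obtain ⟨z, hz1, hz2⟩ := support_nonempty_inter hi
  exact ⟨z, hz1, hz2⟩

/-- mass growth of the limit -/
lemma mass_growth (hclosed : ∀ F, IsClosed F → ∀ c : ℝ≥0∞, (∃ᶠ i in l, c ≤ μs i F) → c ≤ μ F)
    (hopen : ∀ V, IsOpen V → ∀ c : ℝ≥0∞, c < μ V → ∀ᶠ i in l, c < μs i V)
    (hconn : ∀ i, IsPreconnected (μs i).support)
    (hge : ∀ i, (H : Measure Pl).restrict (μs i).support ≤ μs i)
    {z y₀ : Pl} (hy₀ : y₀ ∈ μ.support) {r : ℝ} (hr0 : 0 < r) (hr : 4 * r ≤ dist y₀ z)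
    (hz : ∃ᶠ i in l, ∃ x ∈ (μs i).support, dist x z < r) :
    ENNReal.ofReal r ≤ μ (closedBall z (2 * r)) := by
  apply hclosed _ isClosed_closedBall
  have h1 := low hopen hy₀ hr0
  refine (hz.and_eventually h1).mono ?_
  rintro i ⟨⟨x, hx, hxz⟩, ⟨y, hy, hyy⟩⟩
  have hd : r ≤ dist y x := by
    have h2 := dist_triangle4 y₀ y x z
    rw [dist_comm y₀ y] at h2
    linarith
  have h3 := growth_ball (hconn i) hx hy hd
  calc ENNReal.ofReal r ≤ H ((μs i).support ∩ closedBall x r) := h3
    _ ≤ H ((μs i).support ∩ closedBall z (2 * r)) := by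
        apply measure_mono
        apply inter_subset_inter_right
        intro w hw
        rw [mem_closedBall] at hw ⊢
        have := dist_triangle w x z
        linarith
    _ = (H : Measure Pl).restrict (μs i).support (closedBall z (2 * r)) := by
        rw [Measure.restrict_apply isClosed_closedBall.measurableSet, inter_comm]
    _ ≤ μs i (closedBall z (2 * r)) := hge i _

lemma mem_support_of_growth {z : Pl} {D : ℝ} (hD : 0 < D)
    (h : ∀ r : ℝ, 0 < r → 4 * r ≤ D → ENNReal.ofReal r ≤ μ (closedBall z (2 * r))) : z ∈ μ.support := by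
  rw [Measure.mem_support_iff_forall]
  intro V hV
  obtain ⟨ρ, hρ, hρV⟩ := Metric.mem_nhds_iff.1 hV
  set r := min (ρ / 4) (D / 4) with hr
  have hr0 : 0 < r := lt_min (by positivity) (by positivity)
  have h1 := h r hr0 (by have := min_le_right (ρ / 4) (D / 4); linarith)
  have h2 : closedBall z (2 * r) ⊆ V := by
    refine Subset.trans (closedBall_subset_ball ?_) hρV
    have := min_le_left (ρ / 4) (D / 4)
    linarith
  exact (ENNReal.ofReal_pos.2 hr0).trans_le (h1.trans (measure_mono h2))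

/-- the supports converge from above -/
lemma up (hclosed : ∀ F, IsClosed F → ∀ c : ℝ≥0∞, (∃ᶠ i in l, c ≤ μs i F) → c ≤ μ F)
    (hopen : ∀ V, IsOpen V → ∀ c : ℝ≥0∞, c < μ V → ∀ᶠ i in l, c < μs i V)
    (hconn : ∀ i, IsPreconnected (μs i).support)
    (hge : ∀ i, (H : Measure Pl).restrict (μs i).support ≤ μs i)
    {K : Set Pl} (hK : IsCompact K) (hKn : ∀ i, μs i Kᶜ = 0)
    (hne : μ.support.Nonempty) {ε : ℝ} (hε : 0 < ε) :
    ∀ᶠ i in l, (μs i).support ⊆ thickening ε μ.support := by
  by_contra hcon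
  set K' := K ∩ (thickening ε μ.support)ᶜ with hK'
  have hK'c : IsCompact K' := hK.inter_right isOpen_thickening.isClosed_compl
  have hsK : ∀ i, (μs i).support ⊆ K := fun i =>
    Measure.support_subset_of_isClosed hK.isClosed (by rw [mem_ae_iff]; exact hKn i)
  -- some point of K' is approached frequently
  have hex : ∃ z ∈ K', ∀ V ∈ 𝓝 z, ∃ᶠ i in l, ((μs i).support ∩ V).Nonempty := by
    by_contra hno
    push Not at hno
    have hall : ∀ᶠ i in l, (μs i).support ∩ K' = ∅ := by
      refine hK'c.induction_on (p := fun A => ∀ᶠ i in l, (μs i).support ∩ A = ∅) ?_ ?_ ?_ ?_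
      · simp
      · intro A B hAB hB
        filter_upwards [hB] with i hi
        exact subset_eq_empty (inter_subset_inter_right _ hAB) hi
      · intro A B hA hB
        filter_upwards [hA, hB] with i hi1 hi2
        rw [inter_union_distrib_left, hi1, hi2, union_empty]
      · intro z hz
        obtain ⟨V, hV, hV2⟩ := hno z hz
        exact ⟨V, mem_nhdsWithin_of_mem_nhds hV, hV2⟩
    apply hcon
    filter_upwards [hall] with i hi x hx
    by_contra hx2
    have : x ∈ (μs i).support ∩ K' := ⟨hx, hsK i hx, hx2⟩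
    rw [hi] at this
    exact this
  obtain ⟨z, hz, hzV⟩ := hex
  obtain ⟨y₀, hy₀⟩ := hne
  have hzS : z ∉ μ.support := fun h => hz.2 (self_subset_thickening hε _ h)
  have hD : 0 < dist y₀ z := dist_pos.2 fun h => hzS (h ▸ hy₀)
  apply hzS
  apply mem_support_of_growth hD
  intro r hr0 hr
  apply mass_growth hclosed hopen hconn hge hy₀ hr0 hr
  refine (hzV _ (ball_mem_nhds z hr0)).mono ?_
  rintro i ⟨x, hx1, hx2⟩
  exact ⟨x, hx1, hx2⟩

lemma preconn (hl : l.NeBot)
    (hclosed : ∀ F, IsClosed F → ∀ c : ℝ≥0∞, (∃ᶠ i in l, c ≤ μs i F) → c ≤ μ F)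
    (hopen : ∀ V, IsOpen V → ∀ c : ℝ≥0∞, c < μ V → ∀ᶠ i in l, c < μs i V)
    (hconn : ∀ i, IsPreconnected (μs i).support)
    (hge : ∀ i, (H : Measure Pl).restrict (μs i).support ≤ μs i)
    {K : Set Pl} (hK : IsCompact K) (hKn : ∀ i, μs i Kᶜ = 0) (hSc : IsCompact μ.support) :
    IsPreconnected μ.support := by
  rw [isPreconnected_iff_subset_of_disjoint_closed]
  intro u v hu hv huv hdis
  by_contra hcon
  push Not at hcon
  obtain ⟨h1, h2⟩ := hcon
  rw [not_subset] at h1 h2
  obtain ⟨b, hbS, hbu⟩ := h1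
  obtain ⟨a, haS, hav⟩ := h2
  have hau : a ∈ u := (huv haS).resolve_right hav
  have hbv : b ∈ v := (huv hbS).resolve_left hbu
  have hA : IsCompact (μ.support ∩ u) := hSc.inter_right hu
  have hB : IsCompact (μ.support ∩ v) := hSc.inter_right hv
  have hd : Disjoint (μ.support ∩ u) (μ.support ∩ v) := by
    rw [Set.disjoint_left]
    rintro x ⟨hx1, hx2⟩ ⟨_, hx3⟩
    have : x ∈ μ.support ∩ (u ∩ v) := ⟨hx1, hx2, hx3⟩
    rw [hdis] at this
    exact this
  obtain ⟨δ, hδ, hdδ⟩ := hd.exists_thickenings hA hB.isClosed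
  have hun : thickening δ μ.support ⊆ thickening δ (μ.support ∩ u) ∪ thickening δ (μ.support ∩ v) := by
    rw [← thickening_union, ← inter_union_distrib_left]
    apply thickening_subset_of_subset
    exact fun x hx => ⟨hx, huv hx⟩
  have e1 := up hclosed hopen hconn hge hK hKn ⟨a, haS⟩ hδ
  have e2 := low hopen haS hδ
  have e3 := low hopen hbS hδ
  obtain ⟨i, ⟨hi1, ⟨z, hz, hza⟩⟩, ⟨w, hw, hwb⟩⟩ := ((e1.and e2).and e3).exists
  have hzT : z ∈ thickening δ (μ.support ∩ u) := mem_thickening_iff.2 ⟨a, ⟨haS, hau⟩, hza⟩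
  have hwT : w ∈ thickening δ (μ.support ∩ v) := mem_thickening_iff.2 ⟨b, ⟨hbS, hbv⟩, hwb⟩
  rcases (hconn i).subset_or_subset isOpen_thickening isOpen_thickening hdδ (hi1.trans hun) with h | h
  · exact (Set.disjoint_left.1 hdδ (h hw)) hwT
  · exact (Set.disjoint_left.1 hdδ hzT) (h hz)

end

/-- Local Gołąb theorem. -/
theorem golab : GolabStatement := by
  intro ι l hl μs _ μ _ M _ _ K hK hKn hKμ hclosed hopen hconn hge
  have hSK : μ.support ⊆ K :=
    Measure.support_subset_of_isClosed hK.isClosed (by rw [mem_ae_iff]; exact hKμ)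
  have hSc : IsCompact μ.support := hK.of_isClosed_subset Measure.isClosed_support hSK
  have hpre := preconn hl hclosed hopen hconn hge hK hKn hSc
  refine ⟨hpre, ?_⟩
  set S := μ.support with hS
  rcases S.subsingleton_or_nontrivial with hsub | hnt
  · have h0 : (H : Measure Pl).restrict S = 0 := by
      rw [Measure.restrict_eq_zero]
      have := Measure.nullSingletonClass_hausdorff Pl (d := 1) zero_lt_one
      exact hsub.measure_zero _
    rw [h0]; exact Measure.zero_le _
  obtain ⟨p₀, hp₀, q₀, hq₀, hpq⟩ := id hnt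
  set D := dist p₀ q₀ with hD
  have hD0 : 0 < D := dist_pos.2 hpq
  have hfar : ∀ x : Pl, ∃ z ∈ S, D / 2 ≤ dist z x := by
    intro x
    have := dist_triangle_right p₀ q₀ x
    rcases le_or_gt (D / 2) (dist p₀ x) with h | h
    · exact ⟨p₀, hp₀, h⟩
    · exact ⟨q₀, hq₀, by linarith⟩
  -- growth of μ
  have hgr : ∀ x ∈ S, ∀ᶠ r in 𝓝[>] (0:ℝ), ENNReal.ofReal ((1/2) * r) ≤ μ (closedBall x r) := by
    intro x hx
    have e1 : ∀ᶠ r in 𝓝[>] (0:ℝ), r < D / 4 :=
      (gt_mem_nhds (by positivity)).filter_mono nhdsWithin_le_nhds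
    have e2 : ∀ᶠ r in 𝓝[>] (0:ℝ), 0 < r := self_mem_nhdsWithin
    filter_upwards [e1, e2] with r hr1 hr2
    obtain ⟨y₀, hy₀, hy₀d⟩ := hfar x
    have h1 := mass_growth (z := x) hclosed hopen hconn hge hy₀ (r := r / 2) (by positivity)
      (by linarith) (low hopen hx (by positivity)).frequently
    have e3 : 2 * (r / 2) = r := by ring
    rw [e3] at h1
    have e4 : (1/2) * r = r / 2 := by ring
    rw [e4]; exact h1
  have hfin : H S ≠ ⊤ := by
    have h1 := density_coarse (E := S) (ν := μ) (c := 1/2) (by norm_num) isOpen_univ (subset_univ _) hgr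
    intro htop
    rw [htop, ENNReal.mul_top (by simp)] at h1
    have h2 : ENNReal.ofReal 10 * μ univ < ⊤ :=
      ENNReal.mul_lt_top ENNReal.ofReal_lt_top (measure_lt_top _ _)
    exact absurd h1 (not_le.2 h2)
  -- sharp growth at tangent points
  have hsharp : ∀ a : ℝ, 0 < a → a < 1 / 2 → ∀ x ∈ S, Tan S x →
      ∀ᶠ r in 𝓝[>] (0:ℝ), ENNReal.ofReal ((2 * (1 - 2 * a)) * r) ≤ μ (closedBall x r) := by
    intro a ha ha2 x hx hT
    obtain ⟨n, hn⟩ := exists_nat_gt (4 / a)
    have hn0 : (0:ℝ) < n := lt_trans (by positivity) hn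
    set η := a / (2 * n) with hη
    have hη0 : 0 < η := by positivity
    obtain ⟨e, he, hTe⟩ := hT
    have e1 : ∀ᶠ r in 𝓝[>] (0:ℝ), r < D / 8 :=
      (gt_mem_nhds (by positivity)).filter_mono nhdsWithin_le_nhds
    have e2 : ∀ᶠ r in 𝓝[>] (0:ℝ), 0 < r := self_mem_nhdsWithin
    filter_upwards [e1, e2, hTe (η / 2) (by positivity)] with r hr1 hr2 hr3
    apply hclosed _ isClosed_closedBall
    apply Eventually.frequently
    obtain ⟨y₀, hy₀, hy₀d⟩ := hfar x
    -- S is close to S_i
    have hclose : ∀ᶠ i in l, ∀ y ∈ S, ∃ z ∈ (μs i).support, dist y z < η / 2 * r := by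
      have hε : 0 < η / 2 * r := by positivity
      refine hSc.induction_on (p := fun A => ∀ᶠ i in l, ∀ y ∈ A, ∃ z ∈ (μs i).support,
        dist y z < η / 2 * r) ?_ ?_ ?_ ?_
      · exact Eventually.of_forall fun i y hy => absurd hy (notMem_empty y)
      · intro A B hAB hB
        filter_upwards [hB] with i hi y hy
        exact hi y (hAB hy)
      · intro A B hA hB
        filter_upwards [hA, hB] with i hi1 hi2 y hy
        rcases hy with hy | hy
        · exact hi1 y hy
        · exact hi2 y hy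
      · intro z hz
        refine ⟨ball z (η / 2 * r / 2), mem_nhdsWithin_of_mem_nhds (ball_mem_nhds z (by positivity)), ?_⟩
        filter_upwards [low hopen hz (show 0 < η / 2 * r / 2 by positivity)] with i hi y hy
        obtain ⟨w, hw, hwd⟩ := hi
        refine ⟨w, hw, ?_⟩
        have h5 := dist_triangle_right y w z
        have h6 : dist y z < η / 2 * r / 2 := hy
        linarith
    filter_upwards [hclose, low hopen hy₀ (show 0 < D / 8 by positivity)] with i hi1 hi2
    have hcore := core (hconn i) Measure.isClosed_support he hr2 ha ha2 hn hη (x := x) ?_ ?_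
    · calc ENNReal.ofReal ((2 * (1 - 2 * a)) * r) ≤ H ((μs i).support ∩ closedBall x r) := hcore
        _ = (H : Measure Pl).restrict (μs i).support (closedBall x r) := by
            rw [Measure.restrict_apply isClosed_closedBall.measurableSet, inter_comm]
        _ ≤ μs i (closedBall x r) := hge i _
    · intro τ hτ
      obtain ⟨y, hy, hyd⟩ := hr3 τ hτ
      obtain ⟨z, hz, hzd⟩ := hi1 y hy
      refine ⟨z, hz, ?_⟩
      have := dist_triangle (x + τ • e) y z
      linarith
    · obtain ⟨w, hw, hwd⟩ := hi2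
      refine ⟨w, hw, ?_⟩
      have := dist_triangle_left y₀ x w
      linarith
  -- conclusion
  rw [Measure.le_iff]
  intro A hA
  rw [Measure.restrict_apply hA]
  set E := (A ∩ S) ∩ {x | Tan S x} with hE
  have hEE : H (A ∩ S) ≤ H E := by
    calc H (A ∩ S) ≤ H (E ∪ {x | x ∈ S ∧ ¬ Tan S x}) := by
          apply measure_mono
          intro x hx
          by_cases h : Tan S x
          · left; exact ⟨hx, h⟩
          · right; exact ⟨hx.2, h⟩
      _ ≤ H E + H {x | x ∈ S ∧ ¬ Tan S x} := measure_union_le _ _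
      _ = H E := by rw [tan_ae hpre hSc hfin hnt, add_zero]
  have hEfin : H E ≠ ⊤ := ne_top_of_le_ne_top hfin (measure_mono fun x hx => hx.1.2)
  have hEO : ∀ O, IsOpen O → E ⊆ O → H E ≤ μ O := by
    intro O hO hEO
    have hOfin : μ O ≠ ⊤ := measure_ne_top _ _
    have key : ∀ a : ℝ, 0 < a → a < 1 / 2 → (1 - 2 * a) * (H E).toReal ≤ (μ O).toReal := by
      intro a ha ha2
      have hpos : 0 < 2 * (1 - 2 * a) := by linarith
      have h1 := density_sharp hEfin (ν := μ) hpos hO hEO fun x hx => hsharp a ha ha2 x hx.1.2 hx.2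
      have h2 := ENNReal.toReal_mono (ENNReal.mul_ne_top ENNReal.ofReal_ne_top hOfin) h1
      rw [ENNReal.toReal_mul, ENNReal.toReal_mul, ENNReal.toReal_ofReal hpos.le,
        ENNReal.toReal_ofReal (by norm_num)] at h2
      linarith
    have hreal : (H E).toReal ≤ (μ O).toReal := by
      have hlim : Tendsto (fun a : ℝ => (1 - 2 * a) * (H E).toReal) (𝓝[>] 0)
          (𝓝 ((1 - 2 * 0) * (H E).toReal)) := by
        have : Continuous (fun a : ℝ => (1 - 2 * a) * (H E).toReal) := by fun_prop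
        exact (this.tendsto 0).mono_left nhdsWithin_le_nhds
      have e : (1 - 2 * 0) * (H E).toReal = (H E).toReal := by ring
      rw [e] at hlim
      apply le_of_tendsto hlim
      have e1 : ∀ᶠ a in 𝓝[>] (0:ℝ), a < 1 / 2 :=
        (gt_mem_nhds (by norm_num)).filter_mono nhdsWithin_le_nhds
      have e2 : ∀ᶠ a in 𝓝[>] (0:ℝ), 0 < a := self_mem_nhdsWithin
      filter_upwards [e1, e2] with a ha1 ha2
      exact key a ha2 ha1
    exact (ENNReal.toReal_le_toReal hEfin hOfin).1 hreal
  refine hEE.trans ?_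
  by_contra hcon
  push Not at hcon
  obtain ⟨O, hO1, hO2, hO3⟩ := A.exists_isOpen_lt_of_lt (μ := μ) (H E) hcon
  have := hEO O hO2 (fun x hx => hO1 hx.1.1)
  exact absurd hO3 (not_lt.2 this)

end Pool.Agent.Lib.MP_a4170f_an
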