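import Pool.Agent.Lib.MP_a4170f_an.U

open MeasureTheory Metric Set Filter Topology
open scoped ENNReal NNReal ContDiff InnerProductSpace

namespace Pool.Agent.Lib.MP_a4170f_an

/-- the unit disc -/
abbrev Om : Set Pl := ball (0 : Pl) 1

/-- `w = φ / U` -/
noncomputable def W (φ : Pl → ℝ) (x : Pl) : ℝ := φ x / U x

variable {φ : Pl → ℝ}

lemma IsTest.tsupport_W (_ : IsTest Om φ) : tsupport (W φ) ⊆ tsupport φ := by
  apply closure_mono
  intro x hx
  rw [Function.mem_support] at hx ⊢
  intro h0
  apply hx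
  simp [W, h0]

lemma IsTest.compact_W (h : IsTest Om φ) : HasCompactSupport (W φ) :=
  h.2.1.of_isClosed_subset (isClosed_tsupport _) h.tsupport_W

lemma IsTest.contDiff_W (h : IsTest Om φ) : ContDiff ℝ ∞ (W φ) := by
  rw [contDiff_iff_contDiffAt]
  intro x
  by_cases hx : x ∈ tsupport φ
  · have hx1 : ‖x‖ < 1 := by simpa using h.2.2.1 hx
    exact h.1.contDiffAt.div contDiff_U.contDiffAt (U_pos hx1).ne'
  · have : W φ =ᶠ[𝓝 x] fun _ => 0 := by
      have := notMem_tsupport_iff_eventuallyEq.1 hx
      filter_upwards [this] with y hy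
      simp [W, hy]
    exact contDiffAt_const.congr_of_eventuallyEq this

lemma IsTest.eq_mul (h : IsTest Om φ) (x : Pl) : φ x = U x * W φ x := by
  by_cases hx : x ∈ tsupport φ
  · have hx1 : ‖x‖ < 1 := by simpa using h.2.2.1 hx
    have := (U_pos hx1).ne'
    rw [W]; field_simp
  · have := image_eq_zero_of_notMem_tsupport hx
    simp [W, this]

lemma ip_eq {w : Pl → ℝ} (hw : Differentiable ℝ w) (x : Pl) :
    ip (fun x => U x * w x) (fun x => U x * w x) x =
      U x ^ 2 * ip w w x + ip U (fun x => U x * w x ^ 2) x := by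
  have hU : HasFDerivAt U (fderiv ℝ U x) x :=
    ((contDiff_U.differentiable (by simp)).differentiableAt).hasFDerivAt
  have hw' : HasFDerivAt w (fderiv ℝ w x) x := hw.differentiableAt.hasFDerivAt
  have h1 : HasFDerivAt (fun x => U x * w x) _ x := hU.mul hw'
  have h2 : HasFDerivAt (fun x => U x * w x ^ 2) _ x := hU.mul (hw'.pow 2)
  unfold ip
  rw [h1.fderiv, h2.fderiv, Finset.mul_sum, ← Finset.sum_add_distrib]
  refine Finset.sum_congr rfl (fun i _ => ?_)
  simp
  ring

/-- ground state identity -/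
lemma IsTest.ground (h : IsTest Om φ) :
    ∫ x, ‖fderiv ℝ φ x‖ ^ 2 = (∫ x, U x ^ 2 * ‖fderiv ℝ (W φ) x‖ ^ 2) + lam * ∫ x, φ x ^ 2 := by
  have hW := h.contDiff_W
  have hWc := h.compact_W
  have hφ : φ = fun x => U x * W φ x := funext h.eq_mul
  have hψ : ContDiff ℝ 1 (fun x => U x * W φ x ^ 2) := by
    have : ContDiff ℝ ∞ (fun x => U x * W φ x ^ 2) := contDiff_U.mul (hW.pow 2)
    exact this.of_le (by simp)
  have hψc : HasCompactSupport (fun x => U x * W φ x ^ 2) := by
    have : HasCompactSupport (fun x => W φ x ^ 2) := by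
      simp only [pow_two]
      exact hWc.mul_left
    exact this.mul_left
  have hwk := weak_form hψ hψc
  have e1 : ∀ x, ‖fderiv ℝ φ x‖ ^ 2 = U x ^ 2 * ‖fderiv ℝ (W φ) x‖ ^ 2
      + ip U (fun x => U x * W φ x ^ 2) x := by
    intro x
    rw [norm_fderiv_sq, norm_fderiv_sq]
    conv_lhs => rw [hφ]
    exact ip_eq (hW.differentiable (by simp)) x
  simp only [e1]
  have hdW : Continuous (fderiv ℝ (W φ)) := hW.continuous_fderiv (by simp)
  have hdψ : Continuous (fderiv ℝ (fun x => U x * W φ x ^ 2)) := hψ.continuous_fderiv (by norm_num)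
  have hdU : Continuous (fderiv ℝ U) := contDiff_U.continuous_fderiv (by simp)
  rw [integral_add]
  · congr 1
    rw [hwk]
    congr 1
    congr 1
    ext x
    conv_rhs => rw [h.eq_mul x]
    ring
  · apply Continuous.integrable_of_hasCompactSupport
    · exact (contDiff_U.continuous.pow 2).mul (hdW.norm.pow 2)
    · have : HasCompactSupport (fun x => ‖fderiv ℝ (W φ) x‖ ^ 2) := by
        simp only [pow_two]
        exact (hWc.fderiv (𝕜 := ℝ)).norm.mul_left
      exact this.mul_left
  · unfold ip
    apply Continuous.integrable_of_hasCompactSupport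
    · exact continuous_finsetSum _ fun i _ =>
        (hdU.clm_apply continuous_const).mul (hdψ.clm_apply continuous_const)
    · have hc : HasCompactSupport (fderiv ℝ (fun x => U x * W φ x ^ 2)) := hψc.fderiv (𝕜 := ℝ)
      refine hc.mono ?_
      intro x hx
      rw [Function.mem_support] at hx ⊢
      intro h0
      apply hx
      simp [h0]

end Pool.Agent.Lib.MP_a4170f_an
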