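import Pool.Agent.Lib.MP_a4170f_an.SegMeasure

open MeasureTheory Metric Set Filter Topology
open scoped ENNReal NNReal ContDiff InnerProductSpace

namespace Pool.Agent.Lib.MP_a4170f_an

lemma continuous_gp : Continuous gp := by
  unfold gp
  have := contDiff_F1.continuous
  fun_prop

lemma norm_fderiv_U_eq {x : Pl} (hx : ‖x‖ ≤ 1) : ‖fderiv ℝ U x‖ = gp ‖x‖ := by
  rw [norm_fderiv_U, gp]
  rcases eq_or_lt_of_le (norm_nonneg x) with h | h
  · rw [← h]; simp
  · have h2 : ‖x‖ ^ 2 ≤ 1 := by nlinarith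
    have := s0_pos
    have h3 : F1 (s0 * ‖x‖ ^ 2) < 0 := F1_neg (by positivity) (by nlinarith)
    have h4 : 2 * s0 * F1 (s0 * ‖x‖ ^ 2) < 0 := mul_neg_of_pos_of_neg (by linarith) h3
    rw [abs_of_neg h4]; ring

lemma hasDerivAt_gp_one : HasDerivAt gp (2 * s0 * F1 s0) 1 := by
  have h1 : HasDerivAt (fun t : ℝ => s0 * t ^ 2) (s0 * (2 * 1)) 1 := by
    have := (hasDerivAt_pow 2 (1:ℝ)).const_mul s0
    simpa using this
  have h2 : HasDerivAt (fun t : ℝ => F1 (s0 * t ^ 2)) (F2 (s0 * 1 ^ 2) * (s0 * (2 * 1))) 1 :=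
    (hasDerivAt_F1 (s0 * 1 ^ 2)).comp (1:ℝ) h1
  have h3 := ((h2.const_mul (2 * s0)).mul (hasDerivAt_id (1:ℝ))).neg
  refine (h3.congr_deriv ?_)
  have := ode s0
  rw [F_s0] at this
  simp only [one_pow, mul_one, id]
  linear_combination (- 4 * s0) * this

lemma exists_gmax : ∃ t₀ : ℝ, 0 < t₀ ∧ t₀ < 1 ∧ (∀ t ∈ Icc (0:ℝ) 1, gp t ≤ gp t₀) ∧ gp 1 < gp t₀ ∧
    0 < gp t₀ := by
  obtain ⟨t₀, ht₀, hmax⟩ := isCompact_Icc.exists_isMaxOn (nonempty_Icc.2 (zero_le_one (α := ℝ)))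
    continuous_gp.continuousOn
  have hmax' : ∀ t ∈ Icc (0:ℝ) 1, gp t ≤ gp t₀ := fun t ht => hmax ht
  have hd := hasDerivAt_gp_one
  have hneg : 2 * s0 * F1 s0 < 0 :=
    mul_neg_of_pos_of_neg (by linarith [s0_pos]) (F1_neg s0_pos le_rfl)
  have hlt : gp 1 < gp t₀ := by
    by_contra hcon
    push Not at hcon
    have hall : ∀ t ∈ Icc (0:ℝ) 1, gp t ≤ gp 1 := fun t ht => (hmax' t ht).trans hcon
    have hs := hasDerivAt_iff_tendsto_slope.1 hd
    have hs2 : Tendsto (slope gp 1) (𝓝[<] 1) (𝓝 (2 * s0 * F1 s0)) :=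
      hs.mono_left (nhdsWithin_mono _ fun x hx => ne_of_lt hx)
    have hge : 0 ≤ 2 * s0 * F1 s0 := by
      apply ge_of_tendsto hs2
      have : Ioo (0:ℝ) 1 ∈ 𝓝[<] (1:ℝ) := Ioo_mem_nhdsLT one_pos
      filter_upwards [this] with t ht
      rw [slope_def_field]
      apply div_nonneg_of_nonpos
      · linarith [hall t ⟨ht.1.le, ht.2.le⟩]
      · linarith [ht.2]
    linarith
  have h1pos : 0 < gp 1 := by
    unfold gp
    have : F1 s0 < 0 := F1_neg s0_pos le_rfl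
    have := s0_pos
    simp only [one_pow, mul_one]
    nlinarith
  have hpos : 0 < gp t₀ := h1pos.trans hlt
  refine ⟨t₀, ?_, ?_, hmax', hlt, hpos⟩
  · rcases lt_or_eq_of_le ht₀.1 with h | h
    · exact h
    · exfalso
      rw [← h] at hpos
      simp [gp] at hpos
  · rcases lt_or_eq_of_le ht₀.2 with h | h
    · exact h
    · exfalso
      rw [h] at hlt
      exact lt_irrefl _ hlt

/-- radius of maximal gradient -/
noncomputable def tm : ℝ := exists_gmax.choose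
lemma tm_pos : 0 < tm := exists_gmax.choose_spec.1
lemma tm_lt : tm < 1 := exists_gmax.choose_spec.2.1
lemma gp_le {t : ℝ} (ht : t ∈ Icc (0:ℝ) 1) : gp t ≤ gp tm := exists_gmax.choose_spec.2.2.1 t ht
lemma gp_one_lt : gp 1 < gp tm := exists_gmax.choose_spec.2.2.2.1
lemma gp_tm_pos : 0 < gp tm := exists_gmax.choose_spec.2.2.2.2

/-- existence of test functions -/
lemma exists_test : ∃ u, IsTest Om u := by
  let f : ContDiffBump (0 : Pl) := ⟨1/4, 1/2, by norm_num, by norm_num⟩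
  refine ⟨f, f.contDiff, f.hasCompactSupport, ?_, ?_⟩
  · rw [f.tsupport_eq]
    intro x hx
    rw [mem_closedBall_zero_iff] at hx
    rw [mem_ball_zero_iff]
    change ‖x‖ ≤ 1 / 2 at hx
    exact hx.trans_lt (by norm_num)
  · intro h
    have h1 : f (0:Pl) = 1 := f.one_of_mem_closedBall (by simp [f])
    rw [h] at h1
    simp at h1

lemma IsTest.setIntegral_eq {φ : Pl → ℝ} (h : IsTest Om φ) {f : Pl → ℝ}
    (hf : ∀ x, x ∉ tsupport φ → f x = 0) : ∫ x in Om, f x = ∫ x, f x := by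
  apply setIntegral_eq_integral_of_forall_compl_eq_zero
  intro x hx
  exact hf x fun hx' => hx (h.2.2.1 hx')

lemma IsTest.sq_pos {φ : Pl → ℝ} (h : IsTest Om φ) : 0 < ∫ x in Om, φ x ^ 2 := by
  rw [h.setIntegral_eq (fun x hx => by simp [image_eq_zero_of_notMem_tsupport hx])]
  have hc : Continuous fun x => φ x ^ 2 := h.1.continuous.pow 2
  have hcs : HasCompactSupport fun x => φ x ^ 2 := by
    simp only [pow_two]; exact h.2.1.mul_left
  rw [integral_pos_iff_support_of_nonneg (fun x => sq_nonneg _) (hc.integrable_of_hasCompactSupport hcs)]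
  have hne : (Function.support fun x => φ x ^ 2).Nonempty := by
    by_contra hcon
    rw [not_nonempty_iff_eq_empty, Function.support_eq_empty_iff] at hcon
    apply h.2.2.2
    ext x
    have := congrFun hcon x
    simpa using this
  exact (hc.isOpen_support).measure_pos _ hne

lemma alg1 {L s η I : ℝ} (hs : s ≠ 0) (hη : 1 + η ≠ 0) :
    (L / s) * I = (L / (s ^ 2 * (1 + η))) * ((1 + η) * (s * I)) := by
  field_simp

lemma alg2 {L s η a G R : ℝ} (hs : s ≠ 0) (hη : 1 + η ≠ 0) (hη0 : η ≠ 0) :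
    L * a ^ 2 * ((1 - 2 * η) * G) ^ 2 / (1 + η) -
      (1 + 1 / η) * (L * R ^ 2 / ((1 + η) * η ^ 2 * s ^ 4)) = (L / (s ^ 2 * (1 + η))) *
        (a ^ 2 * ((1 - 2 * η) * s * G) ^ 2 - (1 + 1 / η) * (R / (η * s)) ^ 2) := by
  field_simp

lemma alg3 {L η a G u X : ℝ} (hη : 1 + η ≠ 0) (hu : u ≠ 0) :
    L * ((1 - 2 * η) * G) ^ 2 / ((1 + η) ^ 2 * u) * ((1 + η) * a ^ 2 * u + (1 + 1 / η) * X) =
      L * a ^ 2 * ((1 - 2 * η) * G) ^ 2 / (1 + η) +
        L * ((1 - 2 * η) * G) ^ 2 / ((1 + η) ^ 2 * u) * ((1 + 1 / η) * X) := by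
  rw [mul_add]
  congr 1
  field_simp

lemma alg4 {m κ A J K D : ℝ} (hm : 0 ≤ m) (h : κ * A - J ≤ K * D) (hmK : m * K ≤ 1) (hD : 0 ≤ D)
    (l : ℝ) : (l + m * κ) * A ≤ D + l * A + m * J := by
  have h1 := mul_le_mul_of_nonneg_left h hm
  have h2 := mul_le_mul_of_nonneg_right hmK hD
  nlinarith

lemma alg5 (u w a : ℝ) {η : ℝ} (hη : 0 < η) :
    u ^ 2 * w ^ 2 ≤ (1 + η) * a ^ 2 * u ^ 2 + (1 + 1 / η) * (u ^ 2 * (w - a) ^ 2) := by
  have hy : w ^ 2 ≤ (1 + η) * a ^ 2 + (1 + 1 / η) * (w - a) ^ 2 := by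
    have h0 : 0 ≤ (η * a - (w - a)) ^ 2 / η := by positivity
    have e : (η * a - (w - a)) ^ 2 / η =
        η * a ^ 2 - 2 * a * (w - a) + (1 / η) * (w - a) ^ 2 := by
      field_simp
      ring
    rw [e] at h0
    nlinarith
  have h1 : 0 ≤ u ^ 2 := sq_nonneg _
  calc u ^ 2 * w ^ 2 ≤ u ^ 2 * ((1 + η) * a ^ 2 + (1 + 1 / η) * (w - a) ^ 2) := by gcongr
    _ = _ := by ring

/-- Main lower bound. -/
theorem lower_bound {L κ : ℝ} (hL : 0 < L) (hκ : κ < L * gp tm ^ 2 / U0) :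
    ∃ μ : Measure Pl, Admissible Om L μ ∧ ∃ m₀ : ℝ, 0 < m₀ ∧
      ∀ m, 0 < m → m < m₀ → lam + m * κ ≤ lam1 Om m μ := by
  have hU0 := U0_pos
  have hGm := gp_tm_pos
  -- choice of η
  obtain ⟨η, hη0, hη2, hηG, hηκ⟩ : ∃ η : ℝ, 0 < η ∧ 2 * η < 1 ∧ η < gp tm ∧
      κ < L * ((1 - 2 * η) * (gp tm - η)) ^ 2 / ((1 + η) ^ 2 * U0) := by
    have hcont : ContinuousAt (fun η : ℝ => L * ((1 - 2 * η) * (gp tm - η)) ^ 2 / ((1 + η) ^ 2 * U0)) 0 := by
      apply ContinuousAt.div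
      · fun_prop
      · fun_prop
      · simp [hU0.ne']
    have hlim : κ < (fun η : ℝ => L * ((1 - 2 * η) * (gp tm - η)) ^ 2 / ((1 + η) ^ 2 * U0)) 0 := by
      simpa using hκ
    have h1 := hcont.eventually (lt_mem_nhds hlim)
    have h2 : ∀ᶠ η : ℝ in 𝓝 0, 2 * η < 1 := by
      have : ContinuousAt (fun η : ℝ => 2 * η) 0 := by fun_prop
      exact this.eventually (gt_mem_nhds (by norm_num))
    have h3 : ∀ᶠ η : ℝ in 𝓝 0, η < gp tm := gt_mem_nhds hGm
    have h4 : ∀ᶠ η : ℝ in 𝓝[>] 0, 0 < η := self_mem_nhdsWithin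
    obtain ⟨η, hη⟩ := (((h1.and (h2.and h3)).filter_mono nhdsWithin_le_nhds).and h4).exists
    exact ⟨η, hη.2, hη.1.2.1, hη.1.2.2, hη.1.1⟩
  set G' := gp tm - η with hG'
  have hG'0 : 0 < G' := by rw [hG']; linarith
  -- choice of the segment
  obtain ⟨r, hr0, hrα, hrβ, hrL, hrg⟩ : ∃ r : ℝ, 0 < r ∧ 0 < tm - r ∧ tm + r < 1 ∧ 2 * r ≤ L ∧
      ∀ t ∈ Icc (tm - r) (tm + r), G' ≤ gp t := by
    have h1 : ∀ᶠ t in 𝓝 tm, G' < gp t := continuous_gp.continuousAt.eventually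
      (lt_mem_nhds (by rw [hG']; linarith))
    obtain ⟨r₁, hr₁, hb⟩ := Metric.eventually_nhds_iff.1 h1
    have ht0 := tm_pos
    have ht1 := tm_lt
    refine ⟨min (min (r₁ / 2) (tm / 2)) (min ((1 - tm) / 2) (L / 2)), ?_, ?_, ?_, ?_, ?_⟩
    · apply lt_min <;> apply lt_min <;> linarith
    · have : min (min (r₁ / 2) (tm / 2)) (min ((1 - tm) / 2) (L / 2)) ≤ tm / 2 :=
        (min_le_left _ _).trans (min_le_right _ _)
      linarith
    · have : min (min (r₁ / 2) (tm / 2)) (min ((1 - tm) / 2) (L / 2)) ≤ (1 - tm) / 2 :=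
        (min_le_right _ _).trans (min_le_left _ _)
      linarith
    · have : min (min (r₁ / 2) (tm / 2)) (min ((1 - tm) / 2) (L / 2)) ≤ L / 2 :=
        (min_le_right _ _).trans (min_le_right _ _)
      linarith
    · intro t ht
      have : min (min (r₁ / 2) (tm / 2)) (min ((1 - tm) / 2) (L / 2)) ≤ r₁ / 2 :=
        (min_le_left _ _).trans (min_le_left _ _)
      apply (hb _).le
      rw [Real.dist_eq, abs_lt]
      constructor <;> linarith [ht.1, ht.2]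
  set α := tm - r with hα
  set β := tm + r with hβ
  have hαβ : α < β := by rw [hα, hβ]; linarith
  set s := β - α with hs
  have hs0 : 0 < s := by rw [hs]; linarith
  have hsL : s ≤ L := by rw [hs, hα, hβ]; linarith
  have hc0 : 0 < L / s := by positivity
  set μ := segM α β (L / s) with hμ
  have hadm : Admissible Om L μ := segM_admissible hrα.le hαβ hrβ.le hsL
  -- trace constants
  set ρ := (1 + β) / 2 with hρ
  set h := (1 - β) / 2 with hh
  have hh0 : 0 < h := by rw [hh]; linarith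
  have hβ0 : 0 < β := by linarith
  have hρ0 : 0 ≤ ρ := by rw [hρ]; linarith
  have hρ1 : ρ < 1 := by rw [hρ]; linarith
  have hb : β ^ 2 + h ^ 2 ≤ ρ ^ 2 := by
    have : ρ = β + h := by rw [hρ, hh]; ring
    rw [this]; nlinarith
  set CT := 2 * ((β - α) * h) / F (s0 * ρ ^ 2) ^ 2 * (1 / h ^ 2 + 1) with hCT
  have hCT0 : 0 ≤ CT := by
    rw [hCT]
    have : 0 ≤ (β - α) * h := mul_nonneg (by linarith) hh0.le
    positivity
  set κ' := L * ((1 - 2 * η) * G') ^ 2 / ((1 + η) ^ 2 * U0) with hκ'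
  have hκ'0 : 0 ≤ κ' := by rw [hκ']; positivity
  set K := (1 + 1 / η) * (L * (CT * (CP + 1)) / ((1 + η) * η ^ 2 * s ^ 4) + κ' * CP) with hK
  have hCP := CP_pos
  have hK0 : 0 ≤ K := by rw [hK]; positivity
  refine ⟨μ, hadm, 1 / (K + 1), by positivity, fun m hm0 hm1 => ?_⟩
  have hmK : m * K ≤ 1 := by
    have : m * (K + 1) < 1 := by rwa [lt_div_iff₀ (by positivity)] at hm1
    nlinarith
  -- the infimum
  apply le_csInf
  · obtain ⟨u, hu⟩ := exists_test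
    exact ⟨_, u, hu, rfl⟩
  rintro q ⟨φ, hφ, rfl⟩
  have hA := hφ.sq_pos
  unfold quotient
  rw [le_div_iff₀ hA]
  set A := ∫ x in Om, φ x ^ 2 with hAdef
  set w := W φ with hw
  have hw1 : ContDiff ℝ 1 w := hφ.contDiff_W.of_le (by simp)
  have hφ1 : ContDiff ℝ 1 φ := hφ.1.of_le (by simp)
  have hwc := hφ.compact_W
  obtain ⟨a, ha⟩ := poincare hw1 hwc
  set D := ∫ x, U x ^ 2 * ‖fderiv ℝ w x‖ ^ 2 with hD
  set X := ∫ x, U x ^ 2 * (w x - a) ^ 2 ∂νO with hX
  have hD0 : 0 ≤ D := integral_nonneg fun x => by positivity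
  have hX0 : 0 ≤ X := integral_nonneg fun x => by positivity
  -- bulk energy
  have hbulk : ∫ x in Om, ‖fderiv ℝ φ x‖ ^ 2 = D + lam * A := by
    have h1 : ∫ x in Om, ‖fderiv ℝ φ x‖ ^ 2 = ∫ x, ‖fderiv ℝ φ x‖ ^ 2 := by
      apply hφ.setIntegral_eq
      intro x hx
      have : fderiv ℝ φ x = 0 := by
        have := notMem_tsupport_iff_eventuallyEq.1 hx
        rw [this.fderiv_eq]; simp
      simp [this]
    have h2 : ∫ x, φ x ^ 2 = A := by
      rw [hAdef]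
      symm
      apply hφ.setIntegral_eq
      intro x hx
      simp [image_eq_zero_of_notMem_tsupport hx]
    rw [h1, hφ.ground, h2]
  -- trace
  set R := ∫ t in Icc α β, |w (P t 0) - a| with hR
  have htr : R ^ 2 ≤ CT * (X + D) := trace hrα.le hαβ.le hh0 hρ0 hρ1 hb hw1 hwc a
  -- segment
  set I := ∫ t in Icc α β, (fderiv ℝ φ (P t 0) (e 0)) ^ 2 with hI
  have hseg := seg_lower (δ := η) hφ1 hw1 hφ.eq_mul hrα.le hαβ hrβ.le hη0 hη2.le hη0 hG'0.le hrg a
  rw [← hs, ← hI, ← hR] at hseg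
  set J := ∫ x, ‖fderiv ℝ φ x‖ ^ 2 ∂μ with hJ
  have hdφ : Continuous (fderiv ℝ φ) := hφ1.continuous_fderiv (by norm_num)
  have hJI : (L / s) * I ≤ J := by
    have kk : Continuous fun x => ‖fderiv ℝ φ x‖ ^ 2 := by fun_prop
    rw [hJ, hμ, segM_integral hc0.le kk]
    refine mul_le_mul_of_nonneg_left ?_ hc0.le
    apply integral_mono_of_nonneg
    · exact Eventually.of_forall fun t => sq_nonneg _
    · exact (kk.comp continuous_P0).continuousOn.integrableOn_Icc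
    · refine Eventually.of_forall fun t => ?_
      have h1 := (fderiv ℝ φ (P t 0)).le_opNorm (e 0)
      have he : ‖(e 0 : Pl)‖ = 1 := by simp [e]
      rw [he, mul_one, Real.norm_eq_abs] at h1
      have h2 := abs_nonneg (fderiv ℝ φ (P t 0) (e 0))
      show (fderiv ℝ φ (P t 0) (e 0)) ^ 2 ≤ ‖fderiv ℝ φ (P t 0)‖ ^ 2
      rw [← sq_abs]
      gcongr
  -- mass
  have hAle : A ≤ (1 + η) * a ^ 2 * U0 + (1 + 1 / η) * X := by
    have hUc := contDiff_U.continuous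
    have hwc' := hw1.continuous
    have h1 : A = ∫ x, U x ^ 2 * w x ^ 2 ∂νO := by
      rw [hAdef]
      congr 1
      ext x
      rw [hφ.eq_mul x]; ring
    have k1 : Continuous fun x => U x ^ 2 * w x ^ 2 := by fun_prop
    have k2 : Continuous fun x => ((1 + η) * a ^ 2) * U x ^ 2 := by fun_prop
    have k3 : Continuous fun x => (1 + 1 / η) * (U x ^ 2 * (w x - a) ^ 2) := by fun_prop
    calc A = ∫ x, U x ^ 2 * w x ^ 2 ∂νO := h1
      _ ≤ ∫ x, (((1 + η) * a ^ 2) * U x ^ 2 + (1 + 1 / η) * (U x ^ 2 * (w x - a) ^ 2)) ∂νO := by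
          apply integral_mono (integrable_of_cont k1)
            ((integrable_of_cont k2).add (integrable_of_cont k3))
          exact fun x => alg5 (U x) (w x) a hη0
      _ = (1 + η) * a ^ 2 * U0 + (1 + 1 / η) * X := by
          rw [integral_add (integrable_of_cont k2) (integrable_of_cont k3), integral_const_mul,
            integral_const_mul, ← hX, U0]
  -- final computation
  rw [hbulk]
  have hXD : X ≤ CP * D := ha
  have hRD : R ^ 2 ≤ CT * (CP + 1) * D := by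
    calc R ^ 2 ≤ CT * (X + D) := htr
      _ ≤ CT * (CP * D + D) := by gcongr
      _ = CT * (CP + 1) * D := by ring
  have hJlow : L * a ^ 2 * ((1 - 2 * η) * G') ^ 2 / (1 + η) -
      (1 + 1 / η) * (L * R ^ 2 / ((1 + η) * η ^ 2 * s ^ 4)) ≤ J := by
    refine le_trans ?_ hJI
    have h1 : a ^ 2 * ((1 - 2 * η) * s * G') ^ 2 - (1 + 1 / η) * (R / (η * s)) ^ 2 ≤
        (1 + η) * (s * I) := by linarith
    have h1η : 0 < 1 + η := by linarith
    rw [alg1 (η := η) hs0.ne' h1η.ne', alg2 hs0.ne' h1η.ne' hη0.ne']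
    exact mul_le_mul_of_nonneg_left h1 (by positivity)
  have hκA : κ * A ≤ L * a ^ 2 * ((1 - 2 * η) * G') ^ 2 / (1 + η) + κ' * ((1 + 1 / η) * X) := by
    calc κ * A ≤ κ' * A := by gcongr
      _ ≤ κ' * ((1 + η) * a ^ 2 * U0 + (1 + 1 / η) * X) := by gcongr
      _ = L * a ^ 2 * ((1 - 2 * η) * G') ^ 2 / (1 + η) + κ' * ((1 + 1 / η) * X) := by
          rw [hκ']; exact alg3 (by positivity) hU0.ne'
  have hdiff : κ * A - J ≤ K * D := by
    have h1 : (1 + 1 / η) * (L * R ^ 2 / ((1 + η) * η ^ 2 * s ^ 4)) ≤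
        (1 + 1 / η) * (L * (CT * (CP + 1)) / ((1 + η) * η ^ 2 * s ^ 4)) * D := by
      have h0 : L * R ^ 2 ≤ (L * (CT * (CP + 1))) * D := by
        calc L * R ^ 2 ≤ L * (CT * (CP + 1) * D) := by gcongr
          _ = L * (CT * (CP + 1)) * D := by ring
      calc (1 + 1 / η) * (L * R ^ 2 / ((1 + η) * η ^ 2 * s ^ 4)) ≤
          (1 + 1 / η) * ((L * (CT * (CP + 1))) * D / ((1 + η) * η ^ 2 * s ^ 4)) := by gcongr
        _ = _ := by ring
    have h2 : κ' * ((1 + 1 / η) * X) ≤ (1 + 1 / η) * (κ' * CP) * D := by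
      calc κ' * ((1 + 1 / η) * X) ≤ κ' * ((1 + 1 / η) * (CP * D)) := by gcongr
        _ = _ := by ring
    have h3 : K * D = (1 + 1 / η) * (L * (CT * (CP + 1)) / ((1 + η) * η ^ 2 * s ^ 4)) * D +
        (1 + 1 / η) * (κ' * CP) * D := by rw [hK]; ring
    rw [h3]
    linarith
  exact alg4 hm0.le hdiff hmK hD0 lam

end Pool.Agent.Lib.MP_a4170f_an
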