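import Pool.Agent.Lib.MP_a4170f_an.Ground

open MeasureTheory Metric Set Filter Topology
open scoped ENNReal NNReal ContDiff InnerProductSpace

namespace Pool.Agent.Lib.MP_a4170f_an

/-- Lebesgue measure on the disc -/
noncomputable abbrev νO : Measure Pl := (volume : Measure Pl).restrict Om

instance : IsFiniteMeasure νO := ⟨by
  rw [Measure.restrict_apply_univ]; exact measure_ball_lt_top⟩

/-- area of the disc -/
noncomputable def aO : ℝ := (volume : Measure Pl).real Om

lemma aO_pos : 0 < aO := by
  unfold aO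
  exact ENNReal.toReal_pos (measure_ball_pos _ _ one_pos).ne' measure_ball_lt_top.ne

lemma inner_bound {h : Pl → ℝ} (hc : Continuous h) (hs : HasCompactSupport h) (h0 : ∀ z, 0 ≤ h z)
    {t : ℝ} (ht : 1 / 2 ≤ t) (y : Pl) : ∫ x, h (t • x + y) ∂νO ≤ 4 * ∫ x, h x := by
  have ht0 : t ≠ 0 := by
    intro h
    rw [h] at ht
    norm_num at ht
  have e1 : ∫ x, h (t • x + y) = |(t ^ Module.finrank ℝ Pl)⁻¹| * ∫ x, h x := by
    have := Measure.integral_comp_smul (volume : Measure Pl) (fun z => h (z + y)) t
    rw [this, smul_eq_mul, integral_add_right_eq_self]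
  have hsup : HasCompactSupport (fun x : Pl => h (t • x + y)) := by
    have hh : IsClosedEmbedding (fun x : Pl => t • x + y) := by
      exact ((Homeomorph.smulOfNeZero t ht0).trans (Homeomorph.addRight y)).isClosedEmbedding
    exact hs.comp_isClosedEmbedding hh
  have hint : Integrable (fun x : Pl => h (t • x + y)) := by
    apply Continuous.integrable_of_hasCompactSupport _ hsup
    exact hc.comp (by fun_prop)
  calc ∫ x, h (t • x + y) ∂νO ≤ ∫ x, h (t • x + y) :=
        setIntegral_le_integral hint (Eventually.of_forall fun x => h0 _)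
    _ = |(t ^ Module.finrank ℝ Pl)⁻¹| * ∫ x, h x := e1
    _ ≤ 4 * ∫ x, h x := by
        have hD : 0 ≤ ∫ x, h x := integral_nonneg h0
        have : |(t ^ Module.finrank ℝ Pl)⁻¹| ≤ 4 := by
          have hf : Module.finrank ℝ Pl = 2 := by simp
          rw [hf, abs_of_nonneg (by positivity)]
          rw [inv_le_comm₀ (by positivity) (by norm_num)]
          nlinarith
        gcongr

/-- the double integral of `h` along segments -/
lemma double_bound {h : Pl → ℝ} (hc : Continuous h) (hs : HasCompactSupport h) (h0 : ∀ z, 0 ≤ h z)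
    {t : ℝ} : ∫ p : Pl × Pl, h ((1 - t) • p.2 + t • p.1) ∂(νO.prod νO) ≤ 4 * aO * ∫ x, h x := by
  obtain ⟨C, hC⟩ := hc.bounded_above_of_compact_support hs
  have hD : 0 ≤ ∫ x, h x := integral_nonneg h0
  have hint : Integrable (fun p : Pl × Pl => h ((1 - t) • p.2 + t • p.1)) (νO.prod νO) := by
    apply Integrable.of_bound _ C
    · exact Eventually.of_forall fun p => hC _
    · exact (hc.comp (by fun_prop)).aestronglyMeasurable
  rcases le_total (1/2) t with ht | ht
  · rw [integral_prod_symm _ hint]
    calc ∫ y, ∫ x, h ((1 - t) • y + t • x) ∂νO ∂νO ≤ ∫ _y, (4 * ∫ x, h x) ∂νO := by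
          apply integral_mono_of_nonneg
          · exact Eventually.of_forall fun y => integral_nonneg fun x => h0 _
          · exact integrable_const _
          · refine Eventually.of_forall fun y => ?_
            have := inner_bound hc hs h0 ht ((1 - t) • y)
            simpa only [add_comm] using this
      _ = 4 * aO * ∫ x, h x := by
          rw [integral_const, smul_eq_mul, measureReal_restrict_apply_univ]
          unfold aO; ring
  · rw [integral_prod _ hint]
    calc ∫ x, ∫ y, h ((1 - t) • y + t • x) ∂νO ∂νO ≤ ∫ _x, (4 * ∫ x, h x) ∂νO := by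
          apply integral_mono_of_nonneg
          · exact Eventually.of_forall fun y => integral_nonneg fun x => h0 _
          · exact integrable_const _
          · refine Eventually.of_forall fun x => ?_
            exact inner_bound hc hs h0 (by linarith) (t • x)
      _ = 4 * aO * ∫ x, h x := by
          rw [integral_const, smul_eq_mul, measureReal_restrict_apply_univ]
          unfold aO; ring

lemma sq_integral_le {f : ℝ → ℝ} (hf : Continuous f) :
    (∫ t in (0:ℝ)..1, f t) ^ 2 ≤ ∫ t in (0:ℝ)..1, f t ^ 2 := by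
  set c := ∫ t in (0:ℝ)..1, f t with hc
  have h1 : 0 ≤ ∫ t in (0:ℝ)..1, (f t - c) ^ 2 :=
    intervalIntegral.integral_nonneg (by norm_num) fun t _ => sq_nonneg _
  have h2 : ∫ t in (0:ℝ)..1, (f t - c) ^ 2 = (∫ t in (0:ℝ)..1, f t ^ 2) - c ^ 2 := by
    have : ∀ t, (f t - c) ^ 2 = f t ^ 2 - (2 * c) * f t + c ^ 2 := fun t => by ring
    simp only [this]
    rw [intervalIntegral.integral_add, intervalIntegral.integral_sub,
      intervalIntegral.integral_const_mul, ← hc]
    · simp; ring
    · exact (hf.pow 2).intervalIntegrable _ _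
    · exact (continuous_const.mul hf).intervalIntegrable _ _
    · exact ((hf.pow 2).sub (continuous_const.mul hf)).intervalIntegrable _ _
    · exact continuous_const.intervalIntegrable _ _
  linarith

/-- pointwise bound -/
lemma pointwise_bound {w : Pl → ℝ} (hw : ContDiff ℝ 1 w) {x y : Pl} (hx : ‖x‖ ≤ 1) (hy : ‖y‖ ≤ 1) :
    U x ^ 2 * U y ^ 2 * (w x - w y) ^ 2 ≤
      4 * ∫ t in (0:ℝ)..1, U ((1 - t) • y + t • x) ^ 2 * ‖fderiv ℝ w ((1 - t) • y + t • x)‖ ^ 2 := by
  have hdw : Continuous (fderiv ℝ w) := hw.continuous_fderiv (by norm_num)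
  have hz : Continuous (fun t : ℝ => (1 - t) • y + t • x) := by fun_prop
  have hftc : w x - w y = ∫ t in (0:ℝ)..1, fderiv ℝ w ((1 - t) • y + t • x) (x - y) := by
    have hd : ∀ t ∈ uIcc (0:ℝ) 1, HasDerivAt (fun t : ℝ => w ((1 - t) • y + t • x))
        (fderiv ℝ w ((1 - t) • y + t • x) (x - y)) t := by
      intro t _
      have h1 : HasDerivAt (fun t : ℝ => (1 - t) • y + t • x) (x - y) t := by
        have h2 : HasDerivAt (fun t : ℝ => (1 - t) • y) ((-1:ℝ) • y) t := by
          have := ((hasDerivAt_id t).const_sub 1).smul_const y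
          simpa using this
        have h3 : HasDerivAt (fun t : ℝ => t • x) ((1:ℝ) • x) t := (hasDerivAt_id t).smul_const x
        refine (h2.add h3).congr_deriv ?_
        simp [sub_eq_add_neg, add_comm]
      exact ((hw.differentiable (by norm_num)).differentiableAt.hasFDerivAt).comp_hasDerivAt t h1
    have := intervalIntegral.integral_eq_sub_of_hasDerivAt hd
      (((hdw.comp hz).clm_apply continuous_const).intervalIntegrable _ _)
    rw [this]; simp
  rw [hftc]
  have hsq := sq_integral_le (f := fun t => fderiv ℝ w ((1 - t) • y + t • x) (x - y))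
    ((hdw.comp hz).clm_apply continuous_const)
  calc U x ^ 2 * U y ^ 2 * (∫ t in (0:ℝ)..1, fderiv ℝ w ((1 - t) • y + t • x) (x - y)) ^ 2
      ≤ U x ^ 2 * U y ^ 2 * ∫ t in (0:ℝ)..1, (fderiv ℝ w ((1 - t) • y + t • x) (x - y)) ^ 2 := by
        gcongr
    _ = ∫ t in (0:ℝ)..1, U x ^ 2 * U y ^ 2 * (fderiv ℝ w ((1 - t) • y + t • x) (x - y)) ^ 2 := by
        rw [intervalIntegral.integral_const_mul]
    _ ≤ ∫ t in (0:ℝ)..1, 4 * (U ((1 - t) • y + t • x) ^ 2 *
          ‖fderiv ℝ w ((1 - t) • y + t • x)‖ ^ 2) := by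
        apply intervalIntegral.integral_mono_on (by norm_num)
        · exact (continuous_const.mul
            (((hdw.comp hz).clm_apply continuous_const).pow 2)).intervalIntegrable _ _
        · exact (continuous_const.mul (((contDiff_U.continuous.comp hz).pow 2).mul
            ((hdw.comp hz).norm.pow 2))).intervalIntegrable _ _
        · intro t ht
          set z := (1 - t) • y + t • x with hzdef
          have hnorm : ‖z‖ ≤ max ‖x‖ ‖y‖ := by
            calc ‖z‖ ≤ ‖(1 - t) • y‖ + ‖t • x‖ := norm_add_le _ _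
              _ = (1 - t) * ‖y‖ + t * ‖x‖ := by
                  rw [norm_smul, norm_smul, Real.norm_of_nonneg (by linarith [ht.2]),
                    Real.norm_of_nonneg ht.1]
              _ ≤ (1 - t) * max ‖x‖ ‖y‖ + t * max ‖x‖ ‖y‖ := by
                  have := le_max_left ‖x‖ ‖y‖
                  have := le_max_right ‖x‖ ‖y‖
                  have := ht.1
                  have := ht.2
                  gcongr
              _ = max ‖x‖ ‖y‖ := by ring
          have hU : U x ^ 2 * U y ^ 2 ≤ U z ^ 2 := by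
            have hx0 := U_nonneg hx
            have hy0 := U_nonneg hy
            have hx1 := U_le_one hx
            have hy1 := U_le_one hy
            rcases le_total ‖x‖ ‖y‖ with hxy | hxy
            · rw [max_eq_right hxy] at hnorm
              have hzy := U_antitone hnorm hy
              have : U x ^ 2 * U y ^ 2 ≤ 1 * U y ^ 2 := by
                gcongr
                nlinarith
              nlinarith
            · rw [max_eq_left hxy] at hnorm
              have hzx := U_antitone hnorm hx
              have : U x ^ 2 * U y ^ 2 ≤ U x ^ 2 * 1 := by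
                gcongr
                nlinarith
              nlinarith
          have hL : (fderiv ℝ w z (x - y)) ^ 2 ≤ 4 * ‖fderiv ℝ w z‖ ^ 2 := by
            have h1 : |fderiv ℝ w z (x - y)| ≤ ‖fderiv ℝ w z‖ * ‖x - y‖ :=
              (fderiv ℝ w z).le_opNorm _
            have h2 : ‖x - y‖ ≤ 2 := by
              calc ‖x - y‖ ≤ ‖x‖ + ‖y‖ := norm_sub_le _ _
                _ ≤ 2 := by linarith
            have h3 : |fderiv ℝ w z (x - y)| ≤ ‖fderiv ℝ w z‖ * 2 := h1.trans (by gcongr)
            rw [← sq_abs]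
            have h4 := abs_nonneg (fderiv ℝ w z (x - y))
            nlinarith [norm_nonneg (fderiv ℝ w z)]
          calc U x ^ 2 * U y ^ 2 * (fderiv ℝ w z (x - y)) ^ 2
              ≤ U z ^ 2 * (4 * ‖fderiv ℝ w z‖ ^ 2) := by gcongr
            _ = 4 * (U z ^ 2 * ‖fderiv ℝ w z‖ ^ 2) := by ring
    _ = 4 * ∫ t in (0:ℝ)..1, U ((1 - t) • y + t • x) ^ 2 *
          ‖fderiv ℝ w ((1 - t) • y + t • x)‖ ^ 2 := by
        rw [intervalIntegral.integral_const_mul]

/-- `∫_Ω U²` -/
noncomputable def U0 : ℝ := ∫ x, U x ^ 2 ∂νO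

lemma U0_pos : 0 < U0 := by
  unfold U0
  rw [integral_pos_iff_support_of_nonneg (fun x => sq_nonneg _)]
  · rw [Measure.restrict_apply' measurableSet_ball]
    have : ball (0:Pl) 1 ⊆ Function.support (fun x => U x ^ 2) ∩ ball (0:Pl) 1 := by
      intro x hx
      refine ⟨?_, hx⟩
      have := U_pos (x := x) (by simpa using hx)
      exact (pow_pos this 2).ne'
    exact (measure_ball_pos _ _ one_pos).trans_le (measure_mono this)
  · apply Integrable.of_bound (C := 1) (contDiff_U.continuous.pow 2).aestronglyMeasurable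
    rw [ae_restrict_iff' measurableSet_ball]
    refine Eventually.of_forall fun x hx => ?_
    have hx1 : ‖x‖ ≤ 1 := by
      have : ‖x‖ < 1 := by simpa using hx
      exact this.le
    show ‖U x ^ 2‖ ≤ 1
    rw [norm_pow, Real.norm_of_nonneg (U_nonneg hx1)]
    exact pow_le_one₀ (U_nonneg hx1) (U_le_one hx1)

lemma integrable_of_cont {f : Pl → ℝ} (hf : Continuous f) : Integrable f νO := by
  have : IntegrableOn f (closedBall 0 1) := hf.continuousOn.integrableOn_compact (isCompact_closedBall _ _)
  exact this.mono_set ball_subset_closedBall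

/-- Poincaré constant -/
noncomputable def CP : ℝ := 8 * aO / U0

lemma CP_pos : 0 < CP := by unfold CP; have := aO_pos; have := U0_pos; positivity

/-- weighted Poincaré inequality -/
lemma poincare {w : Pl → ℝ} (hw : ContDiff ℝ 1 w) (hs : HasCompactSupport w) :
    ∃ a : ℝ, ∫ x, U x ^ 2 * (w x - a) ^ 2 ∂νO ≤ CP * ∫ x, U x ^ 2 * ‖fderiv ℝ w x‖ ^ 2 := by
  set D := ∫ x, U x ^ 2 * ‖fderiv ℝ w x‖ ^ 2 with hD
  have hdw : Continuous (fderiv ℝ w) := hw.continuous_fderiv (by norm_num)
  have hUc := contDiff_U.continuous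
  set h : Pl → ℝ := fun z => U z ^ 2 * ‖fderiv ℝ w z‖ ^ 2 with hh
  have hc : Continuous h := (hUc.pow 2).mul (hdw.norm.pow 2)
  have hcs : HasCompactSupport h := by
    have : HasCompactSupport (fun x => ‖fderiv ℝ w x‖ ^ 2) := by
      simp only [pow_two]
      exact (hs.fderiv (𝕜 := ℝ)).norm.mul_left
    exact this.mul_left
  have h0 : ∀ z, 0 ≤ h z := fun z => by positivity
  obtain ⟨C, hC⟩ := hc.bounded_above_of_compact_support hcs
  -- double integral
  have hmain : ∫ p : Pl × Pl, U p.1 ^ 2 * U p.2 ^ 2 * (w p.1 - w p.2) ^ 2 ∂(νO.prod νO)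
      ≤ 16 * aO * D := by
    have hswap : ∫ p : Pl × Pl, (∫ t, h ((1 - t) • p.2 + t • p.1) ∂(volume.restrict (Ioc (0:ℝ) 1)))
        ∂(νO.prod νO) = ∫ t, (∫ p : Pl × Pl, h ((1 - t) • p.2 + t • p.1) ∂(νO.prod νO))
        ∂(volume.restrict (Ioc (0:ℝ) 1)) := by
      apply integral_integral_swap
      apply Integrable.of_bound (C := C)
      · apply Continuous.aestronglyMeasurable
        apply hc.comp
        fun_prop
      · exact Eventually.of_forall fun p => hC _
    have hint1 : Integrable (fun p : Pl × Pl =>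
        ∫ t, h ((1 - t) • p.2 + t • p.1) ∂(volume.restrict (Ioc (0:ℝ) 1))) (νO.prod νO) := by
      have : Integrable (Function.uncurry fun (p : Pl × Pl) (t : ℝ) =>
          h ((1 - t) • p.2 + t • p.1)) ((νO.prod νO).prod (volume.restrict (Ioc (0:ℝ) 1))) := by
        apply Integrable.of_bound (C := C)
        · apply Continuous.aestronglyMeasurable
          apply hc.comp
          fun_prop
        · exact Eventually.of_forall fun p => hC _
      exact this.integral_prod_left
    calc ∫ p : Pl × Pl, U p.1 ^ 2 * U p.2 ^ 2 * (w p.1 - w p.2) ^ 2 ∂(νO.prod νO)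
        ≤ ∫ p : Pl × Pl, 4 * (∫ t, h ((1 - t) • p.2 + t • p.1) ∂(volume.restrict (Ioc (0:ℝ) 1)))
          ∂(νO.prod νO) := by
          apply integral_mono_of_nonneg
          · exact Eventually.of_forall fun p => by positivity
          · exact hint1.const_mul 4
          · rw [Measure.prod_restrict, EventuallyLE, ae_restrict_iff' (measurableSet_ball.prod measurableSet_ball)]
            refine Eventually.of_forall fun p hp => ?_
            have h1 : ‖p.1‖ ≤ 1 := by
              have : ‖p.1‖ < 1 := by simpa using hp.1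
              exact this.le
            have h2 : ‖p.2‖ ≤ 1 := by
              have : ‖p.2‖ < 1 := by simpa using hp.2
              exact this.le
            have := pointwise_bound hw h1 h2
            rw [intervalIntegral.integral_of_le (by norm_num)] at this
            exact this
      _ = 4 * ∫ t, (∫ p : Pl × Pl, h ((1 - t) • p.2 + t • p.1) ∂(νO.prod νO))
            ∂(volume.restrict (Ioc (0:ℝ) 1)) := by
          rw [integral_const_mul, hswap]
      _ ≤ 4 * ∫ t, 4 * aO * D ∂(volume.restrict (Ioc (0:ℝ) 1)) := by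
          refine mul_le_mul_of_nonneg_left ?_ (by norm_num)
          apply integral_mono_of_nonneg
          · exact Eventually.of_forall fun t => integral_nonneg fun p => h0 _
          · exact integrable_const _
          · exact Eventually.of_forall fun t => double_bound hc hcs h0
      _ = 16 * aO * D := by
          rw [integral_const, measureReal_restrict_apply_univ, Real.volume_real_Ioc]
          simp
          ring
  -- expand
  have hwc := hw.continuous
  set A1 := ∫ x, U x ^ 2 * w x ∂νO with hA1
  set A2 := ∫ x, U x ^ 2 * w x ^ 2 ∂νO with hA2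
  have i0 : Integrable (fun x => U x ^ 2) νO := integrable_of_cont (hUc.pow 2)
  have i1 : Integrable (fun x => U x ^ 2 * w x) νO := integrable_of_cont ((hUc.pow 2).mul hwc)
  have i2 : Integrable (fun x => U x ^ 2 * w x ^ 2) νO :=
    integrable_of_cont ((hUc.pow 2).mul (hwc.pow 2))
  have hexp : ∫ p : Pl × Pl, U p.1 ^ 2 * U p.2 ^ 2 * (w p.1 - w p.2) ^ 2 ∂(νO.prod νO)
      = 2 * (U0 * A2 - A1 ^ 2) := by
    have e : ∀ p : Pl × Pl, U p.1 ^ 2 * U p.2 ^ 2 * (w p.1 - w p.2) ^ 2 =
        (U p.1 ^ 2 * w p.1 ^ 2) * U p.2 ^ 2 + U p.1 ^ 2 * (U p.2 ^ 2 * w p.2 ^ 2)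
          - 2 * ((U p.1 ^ 2 * w p.1) * (U p.2 ^ 2 * w p.2)) := fun p => by ring
    simp only [e]
    rw [integral_sub, integral_add, integral_const_mul, integral_prod_mul (fun x => U x ^ 2 * w x ^ 2)
      (fun x => U x ^ 2), integral_prod_mul (fun x => U x ^ 2) (fun x => U x ^ 2 * w x ^ 2),
      integral_prod_mul (fun x => U x ^ 2 * w x) (fun x => U x ^ 2 * w x)]
    · unfold U0; ring
    · exact i2.mul_prod i0
    · exact i0.mul_prod i2
    · exact (i2.mul_prod i0).add (i0.mul_prod i2)
    · exact (i1.mul_prod i1).const_mul 2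
  refine ⟨A1 / U0, ?_⟩
  have hU0 := U0_pos
  have hvar : ∫ x, U x ^ 2 * (w x - A1 / U0) ^ 2 ∂νO = A2 - A1 ^ 2 / U0 := by
    have e : ∀ x, U x ^ 2 * (w x - A1 / U0) ^ 2 =
        U x ^ 2 * w x ^ 2 - (2 * (A1 / U0)) * (U x ^ 2 * w x) + (A1 / U0) ^ 2 * U x ^ 2 :=
      fun x => by ring
    simp only [e]
    rw [integral_add, integral_sub, integral_const_mul, integral_const_mul]
    · rw [← hA1, ← hA2, ← U0]; field_simp; ring
    · exact i2
    · exact i1.const_mul _
    · exact i2.sub (i1.const_mul _)
    · exact i0.const_mul _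
  rw [hvar]
  rw [hexp] at hmain
  unfold CP
  rw [div_mul_eq_mul_div, le_div_iff₀ hU0]
  have : (A2 - A1 ^ 2 / U0) * U0 = U0 * A2 - A1 ^ 2 := by field_simp
  rw [this]
  linarith

end Pool.Agent.Lib.MP_a4170f_an
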