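import Pool.Agent.Lib.MP_a4170f_an.Segment

open MeasureTheory Metric Set Filter Topology
open scoped ENNReal NNReal ContDiff InnerProductSpace

namespace Pool.Agent.Lib.MP_a4170f_an

lemma isometry_P0 : Isometry (fun t : ℝ => P t 0) := by
  refine Isometry.of_dist_eq fun s t => ?_
  rw [dist_eq_norm, Real.dist_eq]
  have : P s 0 - P t 0 = P (s - t) 0 := by simp [P, sub_smul]
  rw [this, norm_P0]

/-- the segment measure -/
noncomputable def segM (α β c : ℝ) : Measure Pl :=
  ENNReal.ofReal c • ((volume : Measure ℝ).restrict (Icc α β)).map (fun t => P t 0)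

variable {α β c : ℝ}

instance : IsFiniteMeasure (segM α β c) := by
  unfold segM
  exact Measure.smul_finite _ ENNReal.ofReal_ne_top

lemma segM_apply {A : Set Pl} (hA : MeasurableSet A) :
    segM α β c A = ENNReal.ofReal c * volume ((fun t : ℝ => P t 0) ⁻¹' A ∩ Icc α β) := by
  have hm : Measurable (fun t : ℝ => P t 0) := continuous_P0.measurable
  rw [segM, Measure.smul_apply, Measure.map_apply hm hA, Measure.restrict_apply (hm hA), smul_eq_mul]

lemma segM_univ (hc : 0 ≤ c) : segM α β c univ = ENNReal.ofReal (c * (β - α)) := by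
  rw [segM_apply MeasurableSet.univ, preimage_univ, univ_inter, Real.volume_Icc,
    ← ENNReal.ofReal_mul hc]

lemma segM_support (hαβ : α < β) (hc : 0 < c) :
    (segM α β c).support = (fun t : ℝ => P t 0) '' Icc α β := by
  have hclosed : IsClosed ((fun t : ℝ => P t 0) '' Icc α β) :=
    (isCompact_Icc.image continuous_P0).isClosed
  apply Subset.antisymm
  · apply Measure.support_subset_of_isClosed hclosed
    rw [mem_ae_iff, segM_apply hclosed.measurableSet.compl]
    have : (fun t : ℝ => P t 0) ⁻¹' ((fun t : ℝ => P t 0) '' Icc α β)ᶜ ∩ Icc α β = ∅ := by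
      ext t
      simp only [mem_inter_iff, mem_preimage, mem_compl_iff, mem_empty_iff_false, iff_false, not_and]
      intro h1 h2
      exact h1 (mem_image_of_mem _ h2)
    rw [this]; simp
  · rintro _ ⟨t, ht, rfl⟩
    rw [Measure.mem_support_iff_forall]
    intro V hV
    obtain ⟨O, hOV, hO, htO⟩ := _root_.mem_nhds_iff.1 hV
    refine lt_of_lt_of_le ?_ (measure_mono hOV)
    rw [segM_apply hO.measurableSet]
    apply ENNReal.mul_pos
    · exact (ENNReal.ofReal_pos.2 hc).ne'
    · have hpre : IsOpen ((fun t : ℝ => P t 0) ⁻¹' O) := hO.preimage continuous_P0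
      -- the preimage is an open set meeting Icc α β, hence Ioo α β
      have hcl : t ∈ closure (Ioo α β) := by rw [closure_Ioo hαβ.ne]; exact ht
      obtain ⟨z, hz1, hz2⟩ := mem_closure_iff.1 hcl _ hpre htO
      have hop : IsOpen ((fun t : ℝ => P t 0) ⁻¹' O ∩ Ioo α β) := hpre.inter isOpen_Ioo
      have hpos : 0 < volume ((fun t : ℝ => P t 0) ⁻¹' O ∩ Ioo α β) :=
        hop.measure_pos volume ⟨z, hz1, hz2⟩
      exact (hpos.trans_le (measure_mono (inter_subset_inter_right _ Ioo_subset_Icc_self))).ne'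

lemma segM_ge (hαβ : α < β) (hc : 1 ≤ c) :
    (Measure.hausdorffMeasure 1 : Measure Pl).restrict (segM α β c).support ≤ segM α β c := by
  rw [segM_support hαβ (by linarith)]
  rw [Measure.le_iff]
  intro A hA
  rw [Measure.restrict_apply hA, segM_apply hA]
  have h1 : A ∩ (fun t : ℝ => P t 0) '' Icc α β =
      (fun t : ℝ => P t 0) '' ((fun t : ℝ => P t 0) ⁻¹' A ∩ Icc α β) := by
    rw [image_preimage_inter]
  rw [h1, isometry_P0.hausdorffMeasure_image (Or.inl zero_le_one), hausdorffMeasure_real]
  calc volume ((fun t : ℝ => P t 0) ⁻¹' A ∩ Icc α β)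
      = 1 * volume ((fun t : ℝ => P t 0) ⁻¹' A ∩ Icc α β) := (one_mul _).symm
    _ ≤ ENNReal.ofReal c * volume ((fun t : ℝ => P t 0) ⁻¹' A ∩ Icc α β) := by
        gcongr
        rw [← ENNReal.ofReal_one]
        exact ENNReal.ofReal_le_ofReal hc

lemma segM_integral (hc : 0 ≤ c) {f : Pl → ℝ} (hf : Continuous f) :
    ∫ x, f x ∂(segM α β c) = c * ∫ t in Icc α β, f (P t 0) := by
  rw [segM, integral_smul_measure, integral_map continuous_P0.measurable.aemeasurable
    hf.aestronglyMeasurable, ENNReal.toReal_ofReal hc, smul_eq_mul]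

lemma segM_admissible {L : ℝ} (hα : 0 ≤ α) (hαβ : α < β) (hβ : β ≤ 1) (hs : β - α ≤ L) :
    Admissible Om L (segM α β (L / (β - α))) := by
  have hs0 : 0 < β - α := by linarith
  have hc : 1 ≤ L / (β - α) := by rw [le_div_iff₀ hs0]; linarith
  have hc0 : 0 < L / (β - α) := by linarith
  refine ⟨?_, ?_, ?_, segM_ge hαβ hc⟩
  · rw [segM_apply isClosed_closure.measurableSet.compl]
    have : (fun t : ℝ => P t 0) ⁻¹' (closure Om)ᶜ ∩ Icc α β = ∅ := by
      ext t
      simp only [mem_inter_iff, mem_preimage, mem_compl_iff, mem_empty_iff_false, iff_false, not_and]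
      intro h1 h2
      apply h1
      rw [closure_ball _ one_ne_zero, mem_closedBall_zero_iff, norm_P0,
        abs_of_nonneg (hα.trans h2.1)]
      exact h2.2.trans hβ
    rw [this]; simp
  · rw [segM_univ hc0.le, div_mul_cancel₀ _ hs0.ne']
  · rw [segM_support hαβ hc0]
    exact ((isConnected_Icc hαβ.le).image _ continuous_P0.continuousOn)

end Pool.Agent.Lib.MP_a4170f_an
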