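import Pool.Agent.Lib.MP_a4170f_an.Trace

open MeasureTheory Metric Set Filter Topology
open scoped ENNReal NNReal ContDiff InnerProductSpace

namespace Pool.Agent.Lib.MP_a4170f_an

lemma continuous_P0 : Continuous (fun t : ℝ => P t 0) :=
  continuous_P.comp (by fun_prop : Continuous fun t : ℝ => (t, (0:ℝ)))

lemma hasDerivAt_P0 (t : ℝ) : HasDerivAt (fun t : ℝ => P t 0) (e 0) t := by
  have := ((hasDerivAt_id t).smul_const (e 0)).add_const ((0:ℝ) • e 1)
  simpa [P] using this

lemma norm_P0 (t : ℝ) : ‖P t 0‖ = |t| := by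
  rw [← Real.sqrt_sq (norm_nonneg _), norm_P_sq, zero_pow (by norm_num), add_zero, Real.sqrt_sq_eq_abs]

/-- derivative of the profile -/
noncomputable def gp (t : ℝ) : ℝ := - (2 * s0 * F1 (s0 * t ^ 2) * t)

lemma hasDerivAt_profile (t : ℝ) : HasDerivAt (fun t : ℝ => U (P t 0)) (- gp t) t := by
  have h1 := ((contDiff_U.differentiable (by simp)).differentiableAt.hasFDerivAt (x := P t 0)).comp_hasDerivAt t
    (hasDerivAt_P0 t)
  refine h1.congr_deriv ?_
  rw [fderiv_U_e, DU, gp, norm_P_sq, P_zero_coord]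
  ring_nf

/-- integral of differences at distance `τ` from the ends -/
lemma ends_bound {f : ℝ → ℝ} (hf : Continuous f) {α β τ₀ : ℝ} (h0 : 0 ≤ τ₀) (h1 : 2 * τ₀ ≤ β - α) :
    |∫ τ in (0:ℝ)..τ₀, (f (α + τ) - f (β - τ))| ≤ ∫ t in Icc α β, |f t| := by
  have hfa : Continuous fun t => |f t| := hf.abs
  have e1 : ∫ τ in (0:ℝ)..τ₀, |f (α + τ)| = ∫ t in α..(α + τ₀), |f t| := by
    rw [intervalIntegral.integral_comp_add_left (fun t => |f t|) α]
    simp
  have e2 : ∫ τ in (0:ℝ)..τ₀, |f (β - τ)| = ∫ t in (β - τ₀)..β, |f t| := by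
    rw [intervalIntegral.integral_comp_sub_left (fun t => |f t|) β]
    simp
  have c1 : Continuous fun τ => f (α + τ) := hf.comp (by fun_prop)
  have c2 : Continuous fun τ => f (β - τ) := hf.comp (by fun_prop)
  calc |∫ τ in (0:ℝ)..τ₀, (f (α + τ) - f (β - τ))|
      ≤ ∫ τ in (0:ℝ)..τ₀, |f (α + τ) - f (β - τ)| :=
        intervalIntegral.abs_integral_le_integral_abs h0
    _ ≤ ∫ τ in (0:ℝ)..τ₀, (|f (α + τ)| + |f (β - τ)|) := by
        apply intervalIntegral.integral_mono_on h0
        · exact (c1.sub c2).abs.intervalIntegrable _ _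
        · exact (c1.abs.add c2.abs).intervalIntegrable _ _
        · intro τ _; exact abs_sub _ _
    _ = (∫ t in α..(α + τ₀), |f t|) + ∫ t in (β - τ₀)..β, |f t| := by
        rw [intervalIntegral.integral_add (c1.abs.intervalIntegrable _ _)
          (c2.abs.intervalIntegrable _ _), e1, e2]
    _ ≤ ((∫ t in α..(α + τ₀), |f t|) + ∫ t in (α + τ₀)..(β - τ₀), |f t|) +
          ∫ t in (β - τ₀)..β, |f t| := by
        have : 0 ≤ ∫ t in (α + τ₀)..(β - τ₀), |f t| :=
          intervalIntegral.integral_nonneg (by linarith) fun t _ => abs_nonneg _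
        linarith
    _ = ∫ t in α..β, |f t| := by
        rw [intervalIntegral.integral_add_adjacent_intervals (hfa.intervalIntegrable _ _)
          (hfa.intervalIntegrable _ _), intervalIntegral.integral_add_adjacent_intervals
          (hfa.intervalIntegrable _ _) (hfa.intervalIntegrable _ _)]
    _ = ∫ t in Icc α β, |f t| := by
        rw [intervalIntegral.integral_of_le (by linarith), integral_Icc_eq_integral_Ioc]

/-- energy bounds differences -/
lemma diff_bound {f f' : ℝ → ℝ} (hf : ∀ t, HasDerivAt f (f' t) t) (hf' : Continuous f')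
    {α β x y : ℝ} (hx : α ≤ x) (hxy : x ≤ y) (hy : y ≤ β) :
    (f y - f x) ^ 2 ≤ (β - α) * ∫ t in Icc α β, f' t ^ 2 := by
  have h1 : f y - f x = ∫ t in Icc x y, f' t := by
    have := intervalIntegral.integral_eq_sub_of_hasDerivAt (a := x) (b := y) (fun t _ => hf t)
      (hf'.intervalIntegrable _ _)
    rw [← this, intervalIntegral.integral_of_le hxy, integral_Icc_eq_integral_Ioc]
  rw [h1]
  have h2 := sq_integral_le' (ν := (volume : Measure ℝ).restrict (Icc x y)) (f := f')
    hf'.continuousOn.integrableOn_Icc (hf'.pow 2).continuousOn.integrableOn_Icc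
  refine h2.trans ?_
  rw [measureReal_restrict_apply_univ, Real.volume_real_Icc_of_le hxy]
  have h3 : ∫ t in Icc x y, f' t ^ 2 ≤ ∫ t in Icc α β, f' t ^ 2 := by
    apply setIntegral_mono_set (hf'.pow 2).continuousOn.integrableOn_Icc
    · exact Eventually.of_forall fun t => sq_nonneg _
    · exact (Icc_subset_Icc hx hy).eventuallyLE
  have h4 : 0 ≤ ∫ t in Icc x y, f' t ^ 2 := integral_nonneg fun t => sq_nonneg _
  have : (0:ℝ) ≤ β - α := by linarith
  gcongr

/-- the lower bound on the segment -/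
lemma seg_lower {φ w : Pl → ℝ} (hφ : ContDiff ℝ 1 φ) (hw : ContDiff ℝ 1 w)
    (hφw : ∀ x, φ x = U x * w x) {α β ε G' δ : ℝ} (hα : 0 ≤ α) (hαβ : α < β) (hβ : β ≤ 1)
    (hε : 0 < ε) (hε2 : 2 * ε ≤ 1) (hδ : 0 < δ) (hG' : 0 ≤ G')
    (hg : ∀ t ∈ Icc α β, G' ≤ gp t) (a : ℝ) :
    a ^ 2 * ((1 - 2 * ε) * (β - α) * G') ^ 2 ≤
      (1 + δ) * ((β - α) * ∫ t in Icc α β, (fderiv ℝ φ (P t 0) (e 0)) ^ 2) +
      (1 + 1 / δ) * ((∫ t in Icc α β, |w (P t 0) - a|) / (ε * (β - α))) ^ 2 := by
  set s := β - α with hs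
  have hs0 : 0 < s := by rw [hs]; linarith
  set τ₀ := ε * s with hτ₀
  have hτ0 : 0 < τ₀ := by positivity
  have hτs : 2 * τ₀ ≤ s := by rw [hτ₀]; nlinarith
  set I := ∫ t in Icc α β, (fderiv ℝ φ (P t 0) (e 0)) ^ 2 with hI
  set R := ∫ t in Icc α β, |w (P t 0) - a| with hR
  have hI0 : 0 ≤ I := integral_nonneg fun t => sq_nonneg _
  have hR0 : 0 ≤ R := integral_nonneg fun t => abs_nonneg _
  set ψ : ℝ → ℝ := fun t => φ (P t 0) with hψ
  have hψd : ∀ t, HasDerivAt ψ (fderiv ℝ φ (P t 0) (e 0)) t := fun t =>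
    ((hφ.differentiable (by norm_num)).differentiableAt.hasFDerivAt (x := P t 0)).comp_hasDerivAt t
      (hasDerivAt_P0 t)
  have hψc : Continuous ψ := hφ.continuous.comp continuous_P0
  have hψ'c : Continuous (fun t => fderiv ℝ φ (P t 0) (e 0)) :=
    ((hφ.continuous_fderiv (by norm_num)).comp continuous_P0).clm_apply continuous_const
  set u : ℝ → ℝ := fun t => U (P t 0) with hu
  have huc : Continuous u := contDiff_U.continuous.comp continuous_P0
  have hwc : Continuous (fun t => w (P t 0)) := hw.continuous.comp continuous_P0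
  -- averages
  set T : (ℝ → ℝ) → ℝ := fun f => ∫ τ in (0:ℝ)..τ₀, (f (α + τ) - f (β - τ)) with hT
  have hTψ : |T ψ| ≤ τ₀ * Real.sqrt (s * I) := by
    have h1 : ∀ τ ∈ Icc (0:ℝ) τ₀, |ψ (α + τ) - ψ (β - τ)| ≤ Real.sqrt (s * I) := by
      intro τ hτ
      apply Real.abs_le_sqrt
      have := diff_bound (α := α) (β := β) (x := α + τ) (y := β - τ) hψd hψ'c (by linarith [hτ.1])
        (by linarith [hτ.2]) (by linarith [hτ.1])
      rw [← neg_sub, neg_sq]
      exact this
    have hc : Continuous fun τ => ψ (α + τ) - ψ (β - τ) :=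
      (hψc.comp (by fun_prop)).sub (hψc.comp (by fun_prop))
    calc |T ψ| ≤ ∫ τ in (0:ℝ)..τ₀, |ψ (α + τ) - ψ (β - τ)| :=
          intervalIntegral.abs_integral_le_integral_abs hτ0.le
      _ ≤ ∫ τ in (0:ℝ)..τ₀, Real.sqrt (s * I) :=
          intervalIntegral.integral_mono_on hτ0.le (hc.abs.intervalIntegrable _ _)
            (continuous_const.intervalIntegrable _ _) h1
      _ = τ₀ * Real.sqrt (s * I) := by simp
  have hTu : τ₀ * ((s - 2 * τ₀) * G') ≤ T u := by
    have h1 : ∀ τ ∈ Icc (0:ℝ) τ₀, (s - 2 * τ₀) * G' ≤ u (α + τ) - u (β - τ) := by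
      intro τ hτ
      have hle : α + τ ≤ β - τ := by linarith [hτ.2]
      have hd : ∀ t ∈ uIcc (α + τ) (β - τ), HasDerivAt (fun t => - u t) (gp t) t := by
        intro t _
        have h5 : HasDerivAt (fun t => - u t) (- (- gp t)) t := (hasDerivAt_profile t).neg
        rwa [neg_neg] at h5
      have hgc : Continuous gp := by
        unfold gp
        have := contDiff_F1.continuous
        fun_prop
      have hft := intervalIntegral.integral_eq_sub_of_hasDerivAt hd (hgc.intervalIntegrable _ _)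
      have h2 : ∫ t in (α + τ)..(β - τ), G' ≤ ∫ t in (α + τ)..(β - τ), gp t := by
        apply intervalIntegral.integral_mono_on hle (continuous_const.intervalIntegrable _ _)
          (hgc.intervalIntegrable _ _)
        intro t ht
        exact hg t ⟨by linarith [ht.1, hτ.1], by linarith [ht.2, hτ.1]⟩
      rw [hft, intervalIntegral.integral_const, smul_eq_mul] at h2
      have h3 : (s - 2 * τ₀) * G' ≤ (β - τ - (α + τ)) * G' := by
        apply mul_le_mul_of_nonneg_right _ hG'
        linarith [hτ.2]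
      linarith
    have hc : Continuous fun τ => u (α + τ) - u (β - τ) :=
      (huc.comp (by fun_prop)).sub (huc.comp (by fun_prop))
    calc τ₀ * ((s - 2 * τ₀) * G') = ∫ τ in (0:ℝ)..τ₀, (s - 2 * τ₀) * G' := by
          rw [intervalIntegral.integral_const, smul_eq_mul, sub_zero]
      _ ≤ T u := intervalIntegral.integral_mono_on hτ0.le (continuous_const.intervalIntegrable _ _)
            (hc.intervalIntegrable _ _) h1
  have hTe : |T (fun t => u t * (w (P t 0) - a))| ≤ R := by
    have h1 := ends_bound (f := fun t => u t * (w (P t 0) - a)) (α := α) (β := β)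
      (huc.mul (hwc.sub continuous_const)) hτ0.le hτs
    refine h1.trans ?_
    apply setIntegral_mono_on
    · exact ((huc.mul (hwc.sub continuous_const)).abs).continuousOn.integrableOn_Icc
    · exact ((hwc.sub continuous_const).abs).continuousOn.integrableOn_Icc
    · exact measurableSet_Icc
    · intro t ht
      rw [abs_mul]
      have hn : ‖P t 0‖ ≤ 1 := by
        rw [norm_P0, abs_of_nonneg (by linarith [ht.1])]; linarith [ht.2]
      have : |u t| ≤ 1 := by
        rw [abs_of_nonneg (U_nonneg hn)]; exact U_le_one hn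
      calc |u t| * |w (P t 0) - a| ≤ 1 * |w (P t 0) - a| := by gcongr
        _ = _ := one_mul _
  have hsplit : T ψ = a * T u + T (fun t => u t * (w (P t 0) - a)) := by
    rw [hT]
    simp only
    rw [← intervalIntegral.integral_const_mul, ← intervalIntegral.integral_add]
    · congr 1
      ext τ
      simp only [hψ, hφw, hu]
      ring
    · apply Continuous.intervalIntegrable
      exact continuous_const.mul ((huc.comp (by fun_prop)).sub (huc.comp (by fun_prop)))
    · apply Continuous.intervalIntegrable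
      exact ((huc.mul (hwc.sub continuous_const)).comp (by fun_prop)).sub
        ((huc.mul (hwc.sub continuous_const)).comp (by fun_prop))
  -- combine
  have hmain : |a| * ((1 - 2 * ε) * s * G') ≤ Real.sqrt (s * I) + R / τ₀ := by
    have h1 : |a| * (τ₀ * ((s - 2 * τ₀) * G')) ≤ |a| * T u :=
      mul_le_mul_of_nonneg_left hTu (abs_nonneg _)
    have hTu0 : 0 ≤ T u := by
      refine le_trans ?_ hTu
      have : 0 ≤ s - 2 * τ₀ := by linarith
      positivity
    have h2 : |a| * T u = |T ψ - T (fun t => u t * (w (P t 0) - a))| := by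
      rw [hsplit, add_sub_cancel_right, abs_mul, abs_of_nonneg hTu0]
    have h3 : |T ψ - T (fun t => u t * (w (P t 0) - a))| ≤ τ₀ * Real.sqrt (s * I) + R :=
      (abs_sub _ _).trans (add_le_add hTψ hTe)
    have h4 : τ₀ * (|a| * ((1 - 2 * ε) * s * G')) ≤ τ₀ * (Real.sqrt (s * I) + R / τ₀) := by
      have e1 : τ₀ * (|a| * ((1 - 2 * ε) * s * G')) = |a| * (τ₀ * ((s - 2 * τ₀) * G')) := by
        rw [hτ₀]; ring
      have e2 : τ₀ * (Real.sqrt (s * I) + R / τ₀) = τ₀ * Real.sqrt (s * I) + R := by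
        field_simp
      rw [e1, e2]
      linarith
    exact le_of_mul_le_mul_left h4 hτ0
  have hl0 : 0 ≤ |a| * ((1 - 2 * ε) * s * G') := by
    have : 0 ≤ 1 - 2 * ε := by linarith
    positivity
  have hsq : (|a| * ((1 - 2 * ε) * s * G')) ^ 2 ≤ (Real.sqrt (s * I) + R / τ₀) ^ 2 := by gcongr
  have hsI : Real.sqrt (s * I) ^ 2 = s * I := Real.sq_sqrt (by positivity)
  have hyoung : (Real.sqrt (s * I) + R / τ₀) ^ 2 ≤
      (1 + δ) * Real.sqrt (s * I) ^ 2 + (1 + 1 / δ) * (R / τ₀) ^ 2 := by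
    set p := Real.sqrt (s * I)
    set q := R / τ₀
    have : 0 ≤ (δ * p - q) ^ 2 / δ := by positivity
    have e : (δ * p - q) ^ 2 / δ = δ * p ^ 2 - 2 * p * q + (1 / δ) * q ^ 2 := by
      field_simp
      ring
    rw [e] at this
    nlinarith
  rw [hsI] at hyoung
  calc a ^ 2 * ((1 - 2 * ε) * s * G') ^ 2 = (|a| * ((1 - 2 * ε) * s * G')) ^ 2 := by
        rw [mul_pow |a| _ 2, sq_abs]
    _ ≤ _ := hsq.trans hyoung

end Pool.Agent.Lib.MP_a4170f_an
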