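import Pool.Agent.Lib.MP_a4170f_an.Poincare

open MeasureTheory Metric Set Filter Topology
open scoped ENNReal NNReal ContDiff InnerProductSpace

namespace Pool.Agent.Lib.MP_a4170f_an

/-- point with coordinates `(t, y)` -/
noncomputable def P (t y : ℝ) : Pl := t • e 0 + y • e 1

lemma P_zero_coord (t y : ℝ) : P t y 0 = t := by simp [P, e]
lemma P_one_coord (t y : ℝ) : P t y 1 = y := by simp [P, e]

lemma P_eq (x : Pl) : P (x 0) (x 1) = x := by
  ext i
  fin_cases i
  · exact P_zero_coord _ _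
  · exact P_one_coord _ _

lemma norm_P_sq (t y : ℝ) : ‖P t y‖ ^ 2 = t ^ 2 + y ^ 2 := by
  rw [EuclideanSpace.real_norm_sq_eq]
  simp [P_zero_coord, P_one_coord]

lemma continuous_P : Continuous (fun p : ℝ × ℝ => P p.1 p.2) := by
  unfold P; fun_prop

/-- coordinates as a measurable equivalence -/
noncomputable def Ψ : Pl ≃ᵐ ℝ × ℝ :=
  (MeasurableEquiv.toLp 2 (Fin 2 → ℝ)).symm.trans MeasurableEquiv.finTwoArrow

lemma Ψ_apply (x : Pl) : Ψ x = (x 0, x 1) := rfl

lemma measurePreserving_Ψ : MeasurePreserving (Ψ : Pl → ℝ × ℝ) volume volume :=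
  (volume_preserving_finTwoArrow ℝ).comp
    (EuclideanSpace.volume_preserving_symm_measurableEquiv_toLp (Fin 2))

/-- box -/
def Box (α β h : ℝ) : Set Pl := Ψ ⁻¹' (Icc α β ×ˢ Icc 0 h)

lemma mem_Box {α β h : ℝ} {x : Pl} : x ∈ Box α β h ↔ x 0 ∈ Icc α β ∧ x 1 ∈ Icc 0 h := Iff.rfl

lemma measurableSet_Box (α β h : ℝ) : MeasurableSet (Box α β h) :=
  Ψ.measurable (measurableSet_Icc.prod measurableSet_Icc)

lemma box_integral {f : Pl → ℝ} (hf : Continuous f) (α β h : ℝ) :
    ∫ t in Icc α β, ∫ y in Icc 0 h, f (P t y) = ∫ x in Box α β h, f x := by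
  have h1 := measurePreserving_Ψ.setIntegral_preimage_emb Ψ.measurableEmbedding
    (fun p => f (P p.1 p.2)) (Icc α β ×ˢ Icc 0 h)
  have h2 : ∀ x : Pl, f (P (Ψ x).1 (Ψ x).2) = f x := by
    intro x; rw [Ψ_apply, P_eq]
  simp only [h2] at h1
  rw [Box, h1]
  rw [Measure.volume_eq_prod, setIntegral_prod]
  exact ((hf.comp continuous_P).continuousOn).integrableOn_compact (isCompact_Icc.prod isCompact_Icc)

lemma volume_Box {α β h : ℝ} (hαβ : α ≤ β) (hh : 0 ≤ h) :
    (volume : Measure Pl).real (Box α β h) = (β - α) * h := by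
  have := measurePreserving_Ψ.measureReal_preimage (s := Icc α β ×ˢ Icc 0 h)
    (measurableSet_Icc.prod measurableSet_Icc).nullMeasurableSet
  rw [Box, this, Measure.volume_eq_prod, measureReal_prod_prod, Real.volume_real_Icc_of_le hαβ,
    Real.volume_real_Icc_of_le hh, sub_zero]

/-- Cauchy–Schwarz for a finite measure -/
lemma sq_integral_le' {X : Type*} [MeasurableSpace X] {ν : Measure X} [IsFiniteMeasure ν]
    {f : X → ℝ} (hf : Integrable f ν) (hf2 : Integrable (fun x => f x ^ 2) ν) :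
    (∫ x, f x ∂ν) ^ 2 ≤ ν.real univ * ∫ x, f x ^ 2 ∂ν := by
  set I := ∫ x, f x ∂ν with hI
  set A := ν.real univ with hA
  have hA0 : 0 ≤ A := measureReal_nonneg
  have h1 : 0 ≤ ∫ x, (A * f x - I) ^ 2 ∂ν := integral_nonneg fun x => sq_nonneg _
  have h2 : ∫ x, (A * f x - I) ^ 2 ∂ν = A ^ 2 * (∫ x, f x ^ 2 ∂ν) - A * I ^ 2 := by
    have : ∀ x, (A * f x - I) ^ 2 = A ^ 2 * f x ^ 2 - (2 * A * I) * f x + I ^ 2 :=
      fun x => by ring
    simp only [this]
    rw [integral_add, integral_sub, integral_const_mul, integral_const_mul, integral_const,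
      ← hI, ← hA, smul_eq_mul]
    · ring
    · exact hf2.const_mul _
    · exact hf.const_mul _
    · exact (hf2.const_mul _).sub (hf.const_mul _)
    · exact integrable_const _
  rcases eq_or_lt_of_le hA0 with h0 | hpos
  · have hν : ν = 0 := by
      rw [← Measure.measure_univ_eq_zero]
      have := h0.symm
      rw [hA, measureReal_eq_zero_iff] at this
      exact this
    rw [hI, hν]; simp
  · rw [h2] at h1
    have h3 : 0 ≤ A * (A * (∫ x, f x ^ 2 ∂ν) - I ^ 2) := by linarith
    have := nonneg_of_mul_nonneg_right h3 hpos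
    linarith

/-- one dimensional step -/
lemma vert {w : Pl → ℝ} (hw : ContDiff ℝ 1 w) (a t : ℝ) {h : ℝ} (hh : 0 < h) :
    |w (P t 0) - a| ≤ (1 / h) * (∫ y in Icc 0 h, |w (P t y) - a|) +
      ∫ y in Icc 0 h, ‖fderiv ℝ w (P t y)‖ := by
  have hdw : Continuous (fderiv ℝ w) := hw.continuous_fderiv (by norm_num)
  have hP : Continuous (fun y : ℝ => P t y) := continuous_P.comp (by fun_prop : Continuous fun y : ℝ => (t, y))
  have hG : Continuous (fun y : ℝ => ‖fderiv ℝ w (P t y)‖) := (hdw.comp hP).norm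
  have hiG : IntegrableOn (fun y : ℝ => ‖fderiv ℝ w (P t y)‖) (Icc 0 h) :=
    hG.continuousOn.integrableOn_Icc
  have key : ∀ y ∈ Icc 0 h, |w (P t 0) - a| ≤ |w (P t y) - a| + ∫ y in Icc 0 h, ‖fderiv ℝ w (P t y)‖ := by
    intro y hy
    have hd : ∀ z ∈ uIcc (0:ℝ) y, HasDerivAt (fun z : ℝ => w (P t z)) (fderiv ℝ w (P t z) (e 1)) z := by
      intro z _
      have h1 : HasDerivAt (fun z : ℝ => P t z) (e 1) z := by
        have := ((hasDerivAt_id z).smul_const (e 1)).const_add (t • e 0)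
        simpa [P] using this
      exact ((hw.differentiable (by norm_num)).differentiableAt.hasFDerivAt).comp_hasDerivAt z h1
    have hftc := intervalIntegral.integral_eq_sub_of_hasDerivAt hd
      (((hdw.comp hP).clm_apply continuous_const).intervalIntegrable _ _)
    have hb : |∫ z in (0:ℝ)..y, fderiv ℝ w (P t z) (e 1)| ≤ ∫ z in Icc 0 h, ‖fderiv ℝ w (P t z)‖ := by
      rw [intervalIntegral.integral_of_le hy.1]
      calc |∫ z in Ioc 0 y, fderiv ℝ w (P t z) (e 1)| ≤ ∫ z in Ioc 0 y, |fderiv ℝ w (P t z) (e 1)| :=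
            abs_integral_le_integral_abs
        _ ≤ ∫ z in Ioc 0 y, ‖fderiv ℝ w (P t z)‖ := by
            apply integral_mono_of_nonneg
            · exact Eventually.of_forall fun z => abs_nonneg _
            · exact hiG.mono_set (Ioc_subset_Icc_self.trans (Icc_subset_Icc_right hy.2))
            · refine Eventually.of_forall fun z => ?_
              have := (fderiv ℝ w (P t z)).le_opNorm (e 1)
              have he : ‖(e 1 : Pl)‖ = 1 := by simp [e]
              rw [he, mul_one] at this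
              exact this
        _ ≤ ∫ z in Icc 0 h, ‖fderiv ℝ w (P t z)‖ := by
            apply setIntegral_mono_set hiG
            · exact Eventually.of_forall fun z => norm_nonneg _
            · exact (Ioc_subset_Icc_self.trans (Icc_subset_Icc_right hy.2)).eventuallyLE
    rw [hftc] at hb
    have h3 : w (P t 0) - a = (w (P t y) - a) - (w (P t y) - w (P t 0)) := by ring
    rw [h3]
    calc |w (P t y) - a - (w (P t y) - w (P t 0))| ≤ |w (P t y) - a| + |w (P t y) - w (P t 0)| :=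
          abs_sub _ _
      _ ≤ _ := by gcongr
  -- average over y
  have hwP : Continuous (fun y : ℝ => |w (P t y) - a|) := ((hw.continuous.comp hP).sub continuous_const).abs
  set J := ∫ y in Icc 0 h, ‖fderiv ℝ w (P t y)‖ with hJ
  have hav : ∫ _y in Icc 0 h, |w (P t 0) - a| ≤ ∫ y in Icc 0 h, (|w (P t y) - a| + J) := by
    apply setIntegral_mono_on (integrable_const _)
    · exact (hwP.add continuous_const).continuousOn.integrableOn_Icc
    · exact measurableSet_Icc
    · exact key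
  rw [integral_const, measureReal_restrict_apply_univ, Real.volume_real_Icc_of_le hh.le,
    integral_add hwP.continuousOn.integrableOn_Icc (integrable_const _), integral_const,
    measureReal_restrict_apply_univ, Real.volume_real_Icc_of_le hh.le] at hav
  simp only [sub_zero, smul_eq_mul] at hav
  have h4 : |w (P t 0) - a| = (h * |w (P t 0) - a|) / h := by field_simp
  rw [h4, div_le_iff₀ hh]
  calc h * |w (P t 0) - a| ≤ _ := hav
    _ = _ := by field_simp

/-- lower bound of `U` on a ball -/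
lemma U_lower {ρ : ℝ} (hρ0 : 0 ≤ ρ) (hρ : ρ < 1) {x : Pl} (hx : ‖x‖ ≤ ρ) : F (s0 * ρ ^ 2) ≤ U x := by
  unfold U
  have := s0_pos
  have h1 : ‖x‖ ^ 2 ≤ ρ ^ 2 := by nlinarith [norm_nonneg x]
  have h2 : ρ ^ 2 ≤ 1 := by nlinarith
  apply F_antitone (by positivity) (by nlinarith) (by nlinarith)

/-- trace inequality -/
lemma trace {α β h ρ : ℝ} (hα : 0 ≤ α) (hαβ : α ≤ β) (hh : 0 < h) (hρ0 : 0 ≤ ρ) (hρ : ρ < 1)
    (hb : β ^ 2 + h ^ 2 ≤ ρ ^ 2) {w : Pl → ℝ} (hw : ContDiff ℝ 1 w) (hs : HasCompactSupport w)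
    (a : ℝ) :
    (∫ t in Icc α β, |w (P t 0) - a|) ^ 2 ≤
      (2 * ((β - α) * h) / F (s0 * ρ ^ 2) ^ 2 * (1 / h ^ 2 + 1)) *
        ((∫ x, U x ^ 2 * (w x - a) ^ 2 ∂νO) + ∫ x, U x ^ 2 * ‖fderiv ℝ w x‖ ^ 2) := by
  have hdw : Continuous (fderiv ℝ w) := hw.continuous_fderiv (by norm_num)
  have hwc := hw.continuous
  set cb := F (s0 * ρ ^ 2) with hcb
  have hcb0 : 0 < cb := by
    apply F_pos
    · have := s0_pos; positivity
    · have := s0_pos
      have : ρ ^ 2 < 1 := by nlinarith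
      nlinarith
  set B := Box α β h with hB
  have hBsub : ∀ x ∈ B, ‖x‖ ≤ ρ := by
    intro x hx
    rw [hB, mem_Box] at hx
    have : ‖x‖ ^ 2 ≤ ρ ^ 2 := by
      rw [← P_eq x, norm_P_sq]
      have h1 : (x 0) ^ 2 ≤ β ^ 2 := by nlinarith [hx.1.1, hx.1.2]
      have h2 : (x 1) ^ 2 ≤ h ^ 2 := by nlinarith [hx.2.1, hx.2.2]
      linarith
    exact abs_le_of_sq_le_sq' this hρ0 |>.2
  have hBO : B ⊆ Om := by
    intro x hx
    have := hBsub x hx
    simp only [Om, mem_ball_zero_iff]
    linarith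
  have hBm : MeasurableSet B := measurableSet_Box _ _ _
  have hBfin : (volume : Measure Pl) B ≠ ⊤ := ne_top_of_le_ne_top measure_ball_lt_top.ne (measure_mono hBO)
  have : IsFiniteMeasure ((volume : Measure Pl).restrict B) := ⟨by
    rw [Measure.restrict_apply_univ]; exact hBfin.lt_top⟩
  -- integrate `vert`
  have hc1 : Continuous (fun x => |w x - a|) := (hwc.sub continuous_const).abs
  have hc2 : Continuous (fun x => ‖fderiv ℝ w x‖) := hdw.norm
  have hP0 : Continuous (fun t : ℝ => P t 0) := continuous_P.comp (by fun_prop : Continuous fun t : ℝ => (t, (0:ℝ)))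
  have hint : ∀ {f : Pl → ℝ}, Continuous f → IntegrableOn (fun t => ∫ y in Icc 0 h, f (P t y)) (Icc α β) := by
    intro f hf
    have : Integrable (Function.uncurry fun (t y : ℝ) => f (P t y))
        (((volume : Measure ℝ).restrict (Icc α β)).prod ((volume : Measure ℝ).restrict (Icc 0 h))) := by
      rw [Measure.prod_restrict]
      exact ((hf.comp continuous_P).continuousOn).integrableOn_compact (isCompact_Icc.prod isCompact_Icc)
    exact this.integral_prod_left
  have hI : ∫ t in Icc α β, |w (P t 0) - a| ≤ (1 / h) * (∫ x in B, |w x - a|) +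
      ∫ x in B, ‖fderiv ℝ w x‖ := by
    rw [hB, ← box_integral hc1, ← box_integral hc2, ← integral_const_mul, ← integral_add]
    · apply integral_mono_of_nonneg
      · exact Eventually.of_forall fun t => abs_nonneg _
      · exact ((hint hc1).const_mul _).add (hint hc2)
      · exact Eventually.of_forall fun t => vert hw a t hh
    · exact (hint hc1).const_mul _
    · exact hint hc2
  have hI0 : 0 ≤ ∫ t in Icc α β, |w (P t 0) - a| := integral_nonneg fun t => abs_nonneg _
  have iB : ∀ {f : Pl → ℝ}, Continuous f → Integrable f (volume.restrict B) := by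
    intro f hf
    have : IntegrableOn f (closedBall 0 1) := hf.continuousOn.integrableOn_compact (isCompact_closedBall _ _)
    exact this.mono_set (hBO.trans ball_subset_closedBall)
  have hA : ((volume : Measure Pl).restrict B).real univ = (β - α) * h := by
    rw [measureReal_restrict_apply_univ, hB, volume_Box hαβ hh.le]
  have hS1 : (∫ x in B, |w x - a|) ^ 2 ≤ ((β - α) * h) * ∫ x in B, (w x - a) ^ 2 := by
    have := sq_integral_le' (iB hc1) (iB (hc1.pow 2))
    rw [hA] at this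
    simpa only [sq_abs] using this
  have hS2 : (∫ x in B, ‖fderiv ℝ w x‖) ^ 2 ≤ ((β - α) * h) * ∫ x in B, ‖fderiv ℝ w x‖ ^ 2 := by
    have := sq_integral_le' (iB hc2) (iB (hc2.pow 2))
    rw [hA] at this
    exact this
  have hUc := contDiff_U.continuous
  have hT1 : ∫ x in B, (w x - a) ^ 2 ≤ (1 / cb ^ 2) * ∫ x, U x ^ 2 * (w x - a) ^ 2 ∂νO := by
    have k1 : Continuous (fun x => (w x - a) ^ 2) := by fun_prop
    have k2 : Continuous (fun x => U x ^ 2 * (w x - a) ^ 2) := by fun_prop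
    have k3 : Continuous (fun x => (1 / cb ^ 2) * (U x ^ 2 * (w x - a) ^ 2)) := by fun_prop
    have h1 : ∫ x in B, (w x - a) ^ 2 ≤ ∫ x in B, (1 / cb ^ 2) * (U x ^ 2 * (w x - a) ^ 2) := by
      apply setIntegral_mono_on (iB k1) (iB k3) hBm
      intro x hx
      have hUx := U_lower hρ0 hρ (hBsub x hx)
      have : cb ^ 2 ≤ U x ^ 2 := by nlinarith
      have h5 : 1 ≤ (1 / cb ^ 2) * U x ^ 2 := by
        rw [one_div, ← div_eq_inv_mul, le_div_iff₀ (by positivity)]
        linarith
      calc (w x - a) ^ 2 = 1 * (w x - a) ^ 2 := by ring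
        _ ≤ ((1 / cb ^ 2) * U x ^ 2) * (w x - a) ^ 2 := by gcongr
        _ = _ := by ring
    refine h1.trans ?_
    rw [integral_const_mul]
    refine mul_le_mul_of_nonneg_left ?_ (by positivity)
    apply setIntegral_mono_set (integrable_of_cont k2)
    · exact Eventually.of_forall fun x => by positivity
    · exact hBO.eventuallyLE
  have hDint : Integrable (fun x => U x ^ 2 * ‖fderiv ℝ w x‖ ^ 2) := by
    apply Continuous.integrable_of_hasCompactSupport
    · exact (hUc.pow 2).mul (hdw.norm.pow 2)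
    · have : HasCompactSupport (fun x => ‖fderiv ℝ w x‖ ^ 2) := by
        simp only [pow_two]
        exact (hs.fderiv (𝕜 := ℝ)).norm.mul_left
      exact this.mul_left
  have hT2 : ∫ x in B, ‖fderiv ℝ w x‖ ^ 2 ≤ (1 / cb ^ 2) * ∫ x, U x ^ 2 * ‖fderiv ℝ w x‖ ^ 2 := by
    have k1 : Continuous (fun x => ‖fderiv ℝ w x‖ ^ 2) := by fun_prop
    have k3 : Continuous (fun x => (1 / cb ^ 2) * (U x ^ 2 * ‖fderiv ℝ w x‖ ^ 2)) := by fun_prop
    have h1 : ∫ x in B, ‖fderiv ℝ w x‖ ^ 2 ≤ ∫ x in B, (1 / cb ^ 2) * (U x ^ 2 * ‖fderiv ℝ w x‖ ^ 2) := by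
      apply setIntegral_mono_on (iB k1) (iB k3) hBm
      intro x hx
      have hUx := U_lower hρ0 hρ (hBsub x hx)
      have : cb ^ 2 ≤ U x ^ 2 := by nlinarith
      have h5 : 1 ≤ (1 / cb ^ 2) * U x ^ 2 := by
        rw [one_div, ← div_eq_inv_mul, le_div_iff₀ (by positivity)]
        linarith
      calc ‖fderiv ℝ w x‖ ^ 2 = 1 * ‖fderiv ℝ w x‖ ^ 2 := by ring
        _ ≤ ((1 / cb ^ 2) * U x ^ 2) * ‖fderiv ℝ w x‖ ^ 2 := by gcongr
        _ = _ := by ring
    refine h1.trans ?_
    rw [integral_const_mul]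
    refine mul_le_mul_of_nonneg_left ?_ (by positivity)
    exact setIntegral_le_integral hDint (Eventually.of_forall fun x => by positivity)
  set X := ∫ x, U x ^ 2 * (w x - a) ^ 2 ∂νO with hX
  set D := ∫ x, U x ^ 2 * ‖fderiv ℝ w x‖ ^ 2 with hD
  have hX0 : 0 ≤ X := integral_nonneg fun x => by positivity
  have hD0 : 0 ≤ D := integral_nonneg fun x => by positivity
  set b1 := ∫ x in B, |w x - a| with hb1
  set b2 := ∫ x in B, ‖fderiv ℝ w x‖ with hb2
  have hb10 : 0 ≤ b1 := integral_nonneg fun x => abs_nonneg _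
  have hb20 : 0 ≤ b2 := integral_nonneg fun x => norm_nonneg _
  have har : 0 ≤ (β - α) * h := mul_nonneg (by linarith) hh.le
  have hb1' : b1 ^ 2 ≤ (β - α) * h * ((1 / cb ^ 2) * X) := hS1.trans (by gcongr)
  have hb2' : b2 ^ 2 ≤ (β - α) * h * ((1 / cb ^ 2) * D) := hS2.trans (by gcongr)
  calc (∫ t in Icc α β, |w (P t 0) - a|) ^ 2 ≤ ((1 / h) * b1 + b2) ^ 2 := by gcongr
    _ ≤ 2 * ((1 / h ^ 2) * b1 ^ 2 + b2 ^ 2) := by
        have : (1 / h ^ 2) * b1 ^ 2 = ((1 / h) * b1) ^ 2 := by field_simp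
        rw [this]
        nlinarith [sq_nonneg ((1 / h) * b1 - b2)]
    _ ≤ 2 * ((1 / h ^ 2) * ((β - α) * h * ((1 / cb ^ 2) * X)) + (β - α) * h * ((1 / cb ^ 2) * D)) := by
        gcongr
    _ ≤ (2 * ((β - α) * h) / cb ^ 2 * (1 / h ^ 2 + 1)) * (X + D) := by
        have e1 : 2 * ((1 / h ^ 2) * ((β - α) * h * ((1 / cb ^ 2) * X)) +
          (β - α) * h * ((1 / cb ^ 2) * D)) = (2 * ((β - α) * h) / cb ^ 2) * ((1 / h ^ 2) * X + D) := by
          field_simp
        rw [e1, mul_assoc]
        refine mul_le_mul_of_nonneg_left ?_ (by positivity)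
        have : 0 ≤ 1 / h ^ 2 := by positivity
        nlinarith

end Pool.Agent.Lib.MP_a4170f_an
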