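import Pool.Agent.Lib.MP_a4170f_an.Bessel

open MeasureTheory Metric Set Filter Topology
open scoped ENNReal NNReal ContDiff Nat InnerProductSpace

namespace Pool.Agent.Lib.MP_a4170f_an

/-- basis vectors -/
noncomputable def e (i : Fin 2) : Pl := EuclideanSpace.single i (1:ℝ)

/-- the inner product of two gradients -/
noncomputable def ip (f g : Pl → ℝ) (x : Pl) : ℝ :=
  ∑ i : Fin 2, fderiv ℝ f x (e i) * fderiv ℝ g x (e i)

lemma inner_e (x : Pl) (i : Fin 2) : ⟪x, e i⟫_ℝ = x i := by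
  simp [e, EuclideanSpace.inner_single_right]

lemma norm_clm_sq (L : Pl →L[ℝ] ℝ) : ‖L‖ ^ 2 = ∑ i : Fin 2, (L (e i)) ^ 2 := by
  obtain ⟨v, rfl⟩ := (InnerProductSpace.toDual ℝ Pl).surjective L
  rw [LinearIsometryEquiv.norm_map, EuclideanSpace.real_norm_sq_eq]
  refine Finset.sum_congr rfl (fun i _ => ?_)
  rw [InnerProductSpace.toDual_apply_apply, inner_e]

lemma norm_fderiv_sq (f : Pl → ℝ) (x : Pl) : ‖fderiv ℝ f x‖ ^ 2 = ip f f x := by
  rw [norm_clm_sq, ip]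
  exact Finset.sum_congr rfl fun i _ => by ring

/-- the first eigenfunction of the disc -/
noncomputable def U (x : Pl) : ℝ := F (s0 * ‖x‖ ^ 2)

/-- its eigenvalue -/
noncomputable def lam : ℝ := 4 * s0

lemma lam_pos : 0 < lam := by unfold lam; linarith [s0_pos]

lemma contDiff_U : ContDiff ℝ ∞ U :=
  contDiff_F.comp (contDiff_const.mul (contDiff_norm_sq ℝ))

lemma U_le_one {x : Pl} (hx : ‖x‖ ≤ 1) : U x ≤ 1 := by
  unfold U
  rw [← F_zero]
  apply F_antitone le_rfl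
  · have := s0_pos; positivity
  · have := s0_pos
    have h2 : ‖x‖ ^ 2 ≤ 1 := by nlinarith [norm_nonneg x]
    nlinarith

lemma U_nonneg {x : Pl} (hx : ‖x‖ ≤ 1) : 0 ≤ U x := by
  unfold U
  rw [← F_s0]
  have := s0_pos
  have h2 : ‖x‖ ^ 2 ≤ 1 := by nlinarith [norm_nonneg x]
  apply F_antitone (by positivity) (by nlinarith) le_rfl

lemma U_pos {x : Pl} (hx : ‖x‖ < 1) : 0 < U x := by
  unfold U
  have := s0_pos
  have h2 : ‖x‖ ^ 2 < 1 := by nlinarith [norm_nonneg x]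
  apply F_pos (by positivity) (by nlinarith)

lemma U_antitone {x y : Pl} (hxy : ‖x‖ ≤ ‖y‖) (hy : ‖y‖ ≤ 1) : U y ≤ U x := by
  unfold U
  have := s0_pos
  have h2 : ‖y‖ ^ 2 ≤ 1 := by nlinarith [norm_nonneg y]
  have h3 : ‖x‖ ^ 2 ≤ ‖y‖ ^ 2 := by nlinarith [norm_nonneg x, norm_nonneg y]
  apply F_antitone (by positivity) (by nlinarith) (by nlinarith)

lemma hasFDerivAt_rad {f f' : ℝ → ℝ} (x : Pl) (hf : HasDerivAt f (f' (s0 * ‖x‖ ^ 2)) (s0 * ‖x‖ ^ 2)) :
    HasFDerivAt (fun x : Pl => f (s0 * ‖x‖ ^ 2))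
      ((2 * s0 * f' (s0 * ‖x‖ ^ 2)) • innerSL ℝ x) x := by
  have h1 : HasFDerivAt (fun x : Pl => ‖x‖ ^ 2) (2 • innerSL ℝ x) x :=
    (hasStrictFDerivAt_norm_sq x).hasFDerivAt
  have h2 := h1.const_mul s0
  have h3 := hf.comp_hasFDerivAt x h2
  refine h3.congr_fderiv ?_
  ext v
  simp
  ring

lemma hasFDerivAt_U (x : Pl) :
    HasFDerivAt U ((2 * s0 * F1 (s0 * ‖x‖ ^ 2)) • innerSL ℝ x) x :=
  hasFDerivAt_rad (f := F) (f' := F1) x (hasDerivAt_F _)

lemma fderiv_U (x v : Pl) : fderiv ℝ U x v = 2 * s0 * F1 (s0 * ‖x‖ ^ 2) * ⟪x, v⟫_ℝ := by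
  rw [(hasFDerivAt_U x).fderiv]
  simp

lemma norm_fderiv_U (x : Pl) : ‖fderiv ℝ U x‖ = |2 * s0 * F1 (s0 * ‖x‖ ^ 2)| * ‖x‖ := by
  rw [(hasFDerivAt_U x).fderiv, norm_smul, innerSL_apply_norm, Real.norm_eq_abs]

/-- partial derivatives of U -/
noncomputable def DU (i : Fin 2) (x : Pl) : ℝ := 2 * s0 * F1 (s0 * ‖x‖ ^ 2) * x i

lemma fderiv_U_e (x : Pl) (i : Fin 2) : fderiv ℝ U x (e i) = DU i x := by
  rw [fderiv_U, inner_e, DU]

lemma hasFDerivAt_DU (i : Fin 2) (x : Pl) :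
    HasFDerivAt (DU i) ((x i) • ((2 * s0) • ((2 * s0 * F2 (s0 * ‖x‖ ^ 2)) • innerSL ℝ x))
      + (2 * s0 * F1 (s0 * ‖x‖ ^ 2)) • (EuclideanSpace.proj i : Pl →L[ℝ] ℝ)) x := by
  have h1 := (hasFDerivAt_rad (f := F1) (f' := F2) x (hasDerivAt_F1 _)).const_mul (2 * s0)
  have h2 : HasFDerivAt (fun x : Pl => x i) (EuclideanSpace.proj i : Pl →L[ℝ] ℝ) x :=
    (EuclideanSpace.proj i : Pl →L[ℝ] ℝ).hasFDerivAt
  have h3 := h1.mul h2
  refine h3.congr_fderiv ?_
  ext v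
  simp
  ring

lemma contDiff_DU (i : Fin 2) : ContDiff ℝ ∞ (DU i) := by
  unfold DU
  have h1 : ContDiff ℝ ∞ (fun x : Pl => F1 (s0 * ‖x‖ ^ 2)) :=
    contDiff_F1.comp (contDiff_const.mul (contDiff_norm_sq ℝ))
  have h2 : ContDiff ℝ ∞ (fun x : Pl => x i) :=
    (EuclideanSpace.proj i : Pl →L[ℝ] ℝ).contDiff
  exact (contDiff_const.mul h1).mul h2

lemma laplace_U (x : Pl) : ∑ i : Fin 2, fderiv ℝ (DU i) x (e i) = - lam * U x := by
  have : ∀ i : Fin 2, fderiv ℝ (DU i) x (e i) =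
      4 * s0 ^ 2 * F2 (s0 * ‖x‖ ^ 2) * (x i) ^ 2 + 2 * s0 * F1 (s0 * ‖x‖ ^ 2) := by
    intro i
    rw [(hasFDerivAt_DU i x).fderiv]
    simp only [ContinuousLinearMap.add_apply, ContinuousLinearMap.smul_apply, innerSL_apply_apply,
      inner_e, smul_eq_mul]
    have : (EuclideanSpace.proj i : Pl →L[ℝ] ℝ) (e i) = 1 := by simp [e]
    rw [this]
    ring
  simp only [this]
  rw [Finset.sum_add_distrib, ← Finset.mul_sum, ← EuclideanSpace.real_norm_sq_eq]
  simp only [Finset.sum_const, Finset.card_univ, Fintype.card_fin, nsmul_eq_mul]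
  have := ode (s0 * ‖x‖ ^ 2)
  unfold lam U
  push_cast
  linear_combination (4 * s0) * this

/-- weak form of the eigenvalue equation -/
lemma weak_form {ψ : Pl → ℝ} (hψ : ContDiff ℝ 1 ψ) (hc : HasCompactSupport ψ) :
    ∫ x, ip U ψ x = lam * ∫ x, U x * ψ x := by
  unfold ip
  have hfd : Continuous (fderiv ℝ ψ) := hψ.continuous_fderiv (by norm_num)
  have hint : ∀ i : Fin 2, Integrable (fun x => DU i x * fderiv ℝ ψ x (e i)) := by
    intro i
    apply Continuous.integrable_of_hasCompactSupport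
    · exact (contDiff_DU i).continuous.mul (hfd.clm_apply continuous_const)
    · exact (hc.fderiv_apply (𝕜 := ℝ) (e i)).mul_left
  have hint2 : ∀ i : Fin 2, Integrable (fun x => fderiv ℝ (DU i) x (e i) * ψ x) := by
    intro i
    apply Continuous.integrable_of_hasCompactSupport
    · exact (((contDiff_DU i).continuous_fderiv (by simp)).clm_apply continuous_const).mul
        hψ.continuous
    · exact hc.mul_left
  have h1 : ∀ i : Fin 2, ∫ x, DU i x * fderiv ℝ ψ x (e i) = - ∫ x, fderiv ℝ (DU i) x (e i) * ψ x := by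
    intro i
    apply integral_mul_fderiv_eq_neg_fderiv_mul_of_integrable (hint2 i) (hint i)
    · apply Continuous.integrable_of_hasCompactSupport
      · exact (contDiff_DU i).continuous.mul hψ.continuous
      · exact hc.mul_left
    · intro x _; exact ((contDiff_DU i).differentiable (by simp)).differentiableAt
    · intro x _; exact (hψ.differentiable (by norm_num)).differentiableAt
  simp only [fderiv_U_e]
  rw [integral_finsetSum _ (fun i _ => hint i)]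
  simp only [h1]
  rw [Finset.sum_neg_distrib, ← integral_finsetSum _ (fun i _ => hint2 i)]
  simp only [← Finset.sum_mul, laplace_U]
  rw [← integral_neg, ← integral_const_mul]
  congr 1
  ext x
  ring

end Pool.Agent.Lib.MP_a4170f_an
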