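import Pool.Agent.Lib.MP_a4170f_an.Lower

open MeasureTheory Metric Set Filter Topology
open scoped ENNReal NNReal ContDiff InnerProductSpace

namespace Pool.Agent.Lib.MP_a4170f_an

/-- smooth cut-off profile -/
noncomputable def hc (s : ℝ) : ℝ := ∫ z in (0:ℝ)..s, Real.smoothTransition (z - 1)

lemma cont_st : Continuous (fun z : ℝ => Real.smoothTransition (z - 1)) :=
  Real.smoothTransition.continuous.comp (by fun_prop)

lemma hasDerivAt_hc (s : ℝ) : HasDerivAt hc (Real.smoothTransition (s - 1)) s := by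
  unfold hc
  exact intervalIntegral.integral_hasDerivAt_right (cont_st.intervalIntegrable _ _)
    (cont_st.stronglyMeasurableAtFilter _ _) cont_st.continuousAt

lemma contDiff_hc : ContDiff ℝ ∞ hc := by
  have hd : deriv hc = fun s => Real.smoothTransition (s - 1) := by
    funext s; exact (hasDerivAt_hc s).deriv
  rw [contDiff_infty_iff_deriv]
  refine ⟨fun s => (hasDerivAt_hc s).differentiableAt, ?_⟩
  rw [hd]
  exact Real.smoothTransition.contDiff.comp (contDiff_id.sub contDiff_const)

lemma hc_of_le_one {s : ℝ} (hs0 : 0 ≤ s) (hs : s ≤ 1) : hc s = 0 := by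
  have h1 : hc s = ∫ _z in (0:ℝ)..s, (0:ℝ) := by
    unfold hc
    apply intervalIntegral.integral_congr
    intro z hz
    rw [uIcc_of_le hs0] at hz
    exact Real.smoothTransition.zero_of_nonpos (by linarith [hz.2])
  rw [h1]; simp

lemma hc_nonneg {s : ℝ} (hs : 0 ≤ s) : 0 ≤ hc s :=
  intervalIntegral.integral_nonneg hs fun z _ => Real.smoothTransition.nonneg _

lemma hc_le {s : ℝ} (hs : 0 ≤ s) : hc s ≤ s := by
  unfold hc
  calc ∫ z in (0:ℝ)..s, Real.smoothTransition (z - 1) ≤ ∫ _z in (0:ℝ)..s, (1:ℝ) := by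
        apply intervalIntegral.integral_mono_on hs (cont_st.intervalIntegrable _ _)
          (continuous_const.intervalIntegrable _ _)
        intro z _; exact Real.smoothTransition.le_one _
    _ = s := by simp

lemma hc_ge {s : ℝ} (hs : 0 ≤ s) : s - 2 ≤ hc s := by
  rcases le_total s 2 with h | h
  · linarith [hc_nonneg hs]
  · unfold hc
    rw [← intervalIntegral.integral_add_adjacent_intervals (b := 2) (cont_st.intervalIntegrable _ _)
      (cont_st.intervalIntegrable _ _)]
    have h1 : 0 ≤ ∫ z in (0:ℝ)..2, Real.smoothTransition (z - 1) :=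
      intervalIntegral.integral_nonneg (by norm_num) fun z _ => Real.smoothTransition.nonneg _
    have h2 : ∫ z in (2:ℝ)..s, Real.smoothTransition (z - 1) = s - 2 := by
      rw [show s - 2 = ∫ _z in (2:ℝ)..s, (1:ℝ) by simp]
      apply intervalIntegral.integral_congr
      intro z hz
      rw [uIcc_of_le h] at hz
      exact Real.smoothTransition.one_of_one_le (by linarith [hz.1])
    linarith

/-- truncated eigenfunction -/
noncomputable def cut (δ : ℝ) (x : Pl) : ℝ := if ‖x‖ < 1 then δ * hc (U x / δ) else 0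

variable {δ : ℝ}

lemma U_sphere {x : Pl} (hx : ‖x‖ = 1) : U x = 0 := by
  unfold U; rw [hx]; simp [F_s0]

lemma cut_eventually_zero (hδ : 0 < δ) {x : Pl} (hx : 1 ≤ ‖x‖) : ∀ᶠ y in 𝓝 x, cut δ y = 0 := by
  rcases lt_or_eq_of_le hx with h | h
  · have : ∀ᶠ y in 𝓝 x, 1 < ‖y‖ := continuous_norm.continuousAt.eventually (lt_mem_nhds h)
    filter_upwards [this] with y hy
    simp [cut, not_lt.2 hy.le]
  · have h1 : ∀ᶠ y in 𝓝 x, U y < δ := by
      have h5 : ∀ᶠ z in 𝓝 (U x), z < δ := by
        rw [U_sphere h.symm]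
        exact gt_mem_nhds hδ
      exact contDiff_U.continuous.continuousAt.eventually h5
    filter_upwards [h1] with y hy
    unfold cut
    split_ifs with h2
    · rw [hc_of_le_one (div_nonneg (U_nonneg h2.le) hδ.le) (by rw [div_le_one hδ]; exact hy.le),
        mul_zero]
    · rfl

lemma cut_eventually_eq {x : Pl} (hx : ‖x‖ < 1) : cut δ =ᶠ[𝓝 x] fun y => δ * hc (U y / δ) := by
  have : ∀ᶠ y in 𝓝 x, ‖y‖ < 1 := continuous_norm.continuousAt.eventually (gt_mem_nhds hx)
  filter_upwards [this] with y hy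
  simp [cut, hy]

lemma contDiff_cut (hδ : 0 < δ) : ContDiff ℝ ∞ (cut δ) := by
  rw [contDiff_iff_contDiffAt]
  intro x
  rcases lt_or_ge ‖x‖ 1 with hx | hx
  · have h1 : ContDiff ℝ ∞ (fun y => δ * hc (U y / δ)) :=
      contDiff_const.mul (contDiff_hc.comp (contDiff_U.div_const δ))
    exact h1.contDiffAt.congr_of_eventuallyEq (cut_eventually_eq hx)
  · have h1 : cut δ =ᶠ[𝓝 x] fun _ => 0 := cut_eventually_zero hδ hx
    exact contDiffAt_const.congr_of_eventuallyEq h1

lemma tsupport_cut (hδ : 0 < δ) : tsupport (cut δ) ⊆ Om := by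
  intro x hx
  by_contra hcon
  rw [mem_ball_zero_iff, not_lt] at hcon
  exact (notMem_tsupport_iff_eventuallyEq.2 (cut_eventually_zero hδ hcon)) hx

lemma compact_cut (hδ : 0 < δ) : HasCompactSupport (cut δ) :=
  (isCompact_closedBall (0 : Pl) 1).of_isClosed_subset (isClosed_tsupport _)
    ((tsupport_cut hδ).trans ball_subset_closedBall)

lemma cut_le (hδ : 0 < δ) {x : Pl} (hx : ‖x‖ ≤ 1) : cut δ x ≤ U x := by
  unfold cut
  split_ifs
  · calc δ * hc (U x / δ) ≤ δ * (U x / δ) := by
          gcongr; exact hc_le (div_nonneg (U_nonneg hx) hδ.le)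
      _ = U x := by field_simp
  · exact U_nonneg hx

lemma cut_nonneg (hδ : 0 < δ) (x : Pl) : 0 ≤ cut δ x := by
  unfold cut
  split_ifs with h
  · exact mul_nonneg hδ.le (hc_nonneg (div_nonneg (U_nonneg h.le) hδ.le))
  · exact le_rfl

lemma cut_ge (hδ : 0 < δ) {x : Pl} (hx : ‖x‖ < 1) : U x - 2 * δ ≤ cut δ x := by
  unfold cut
  rw [if_pos hx]
  calc U x - 2 * δ = δ * (U x / δ - 2) := by field_simp
    _ ≤ δ * hc (U x / δ) := by
        gcongr; exact hc_ge (div_nonneg (U_nonneg hx.le) hδ.le)

lemma cut_sq_ge (hδ : 0 < δ) {x : Pl} (hx : ‖x‖ < 1) : U x ^ 2 - 4 * δ ≤ cut δ x ^ 2 := by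
  have h1 := cut_ge hδ hx
  have h2 := cut_nonneg hδ x
  have h3 := U_nonneg hx.le
  have h4 := U_le_one hx.le
  rcases le_total (U x) (2 * δ) with h | h
  · nlinarith
  · nlinarith

lemma fderiv_cut (hδ : 0 < δ) (x : Pl) : ∃ c : ℝ, 0 ≤ c ∧ c ≤ 1 ∧ fderiv ℝ (cut δ) x = c • fderiv ℝ U x := by
  rcases lt_or_ge ‖x‖ 1 with hx | hx
  · refine ⟨Real.smoothTransition (U x / δ - 1), Real.smoothTransition.nonneg _,
      Real.smoothTransition.le_one _, ?_⟩
    rw [(cut_eventually_eq hx).fderiv_eq]
    have hU : HasFDerivAt U (fderiv ℝ U x) x :=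
      ((contDiff_U.differentiable (by simp)).differentiableAt).hasFDerivAt
    have h1 : HasFDerivAt (fun y => U y / δ) ((1 / δ) • fderiv ℝ U x) x := by
      have := hU.const_mul (1 / δ)
      simpa [div_eq_inv_mul] using this
    have h2 := ((hasDerivAt_hc (U x / δ)).comp_hasFDerivAt x h1).const_mul δ
    have h3 : fderiv ℝ (fun y => δ * hc (U y / δ)) x = _ := h2.fderiv
    rw [h3]
    ext v
    simp
    field_simp
  · refine ⟨0, le_rfl, zero_le_one, ?_⟩
    have h1 : cut δ =ᶠ[𝓝 x] fun _ => 0 := cut_eventually_zero hδ hx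
    rw [h1.fderiv_eq]; simp

lemma ip_cut (hδ : 0 < δ) (x : Pl) : ‖fderiv ℝ (cut δ) x‖ ^ 2 ≤ ip U (cut δ) x ∧
    ‖fderiv ℝ (cut δ) x‖ ^ 2 ≤ ‖fderiv ℝ U x‖ ^ 2 := by
  obtain ⟨c, hc0, hc1, hce⟩ := fderiv_cut hδ x
  have h1 : ip U (cut δ) x = c * ‖fderiv ℝ U x‖ ^ 2 := by
    rw [norm_clm_sq, ip, hce, Finset.mul_sum]
    refine Finset.sum_congr rfl fun i _ => ?_
    simp
    ring
  have h2 : ‖fderiv ℝ (cut δ) x‖ ^ 2 = c ^ 2 * ‖fderiv ℝ U x‖ ^ 2 := by
    rw [hce, norm_smul, mul_pow, Real.norm_eq_abs, sq_abs]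
  rw [h1, h2]
  have h3 : 0 ≤ ‖fderiv ℝ U x‖ ^ 2 := by positivity
  constructor
  · have : c ^ 2 ≤ c := by nlinarith
    gcongr
  · have : c ^ 2 ≤ 1 := by nlinarith
    nlinarith

lemma quotient_nonneg {m : ℝ} (hm : 0 ≤ m) (μ : Measure Pl) (u : Pl → ℝ) : 0 ≤ quotient Om m μ u := by
  unfold quotient
  apply div_nonneg
  · apply add_nonneg
    · exact integral_nonneg fun x => sq_nonneg _
    · exact mul_nonneg hm (integral_nonneg fun x => sq_nonneg _)
  · exact integral_nonneg fun x => sq_nonneg _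

lemma bddBelow_quotient {m : ℝ} (hm : 0 ≤ m) (μ : Measure Pl) :
    BddBelow {q : ℝ | ∃ u, IsTest Om u ∧ q = quotient Om m μ u} :=
  ⟨0, by rintro q ⟨u, _, rfl⟩; exact quotient_nonneg hm μ u⟩

lemma isTest_cut (hδ : 0 < δ) (hδ2 : 4 * δ * aO < U0) :
    IsTest Om (cut δ) ∧ U0 - 4 * δ * aO ≤ ∫ x in Om, cut δ x ^ 2 := by
  have hge : U0 - 4 * δ * aO ≤ ∫ x in Om, cut δ x ^ 2 := by
    have hUc := contDiff_U.continuous
    have hcc := (contDiff_cut hδ).continuous
    have k1 : Continuous fun x => U x ^ 2 := by fun_prop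
    have k2 : Continuous fun x => cut δ x ^ 2 := by fun_prop
    have e : U0 - 4 * δ * aO = ∫ x in Om, (U x ^ 2 - 4 * δ) := by
      rw [integral_sub (integrable_of_cont k1) (integrable_const _), integral_const, smul_eq_mul,
        measureReal_restrict_apply_univ]
      unfold U0 aO
      ring
    rw [e]
    apply setIntegral_mono_on ((integrable_of_cont k1).sub (integrable_const _))
      (integrable_of_cont k2) measurableSet_ball
    intro x hx
    exact cut_sq_ge hδ (by simpa using hx)
  refine ⟨⟨contDiff_cut hδ, compact_cut hδ, tsupport_cut hδ, ?_⟩, hge⟩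
  intro h0
  rw [h0] at hge
  simp at hge
  linarith

/-- Upper bound for the eigenvalue with stiffener. -/
theorem upper_bound {m : ℝ} (hm : 0 ≤ m) (μ : Measure Pl) [IsFiniteMeasure μ]
    (hμ : μ (closedBall (0:Pl) 1)ᶜ = 0) :
    lam1 Om m μ ≤ lam + m * (∫ x, ‖fderiv ℝ U x‖ ^ 2 ∂μ) / U0 := by
  have hU0 := U0_pos
  have haO := aO_pos
  set M := ∫ x, ‖fderiv ℝ U x‖ ^ 2 ∂μ with hM
  have hM0 : 0 ≤ M := integral_nonneg fun x => sq_nonneg _
  have hdU : Continuous (fderiv ℝ U) := contDiff_U.continuous_fderiv (by simp)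
  have key : ∀ δ : ℝ, 0 < δ → 4 * δ * aO < U0 →
      lam1 Om m μ ≤ (lam * U0 + m * M) / (U0 - 4 * δ * aO) := by
    intro δ hδ hδ2
    obtain ⟨ht, hge⟩ := isTest_cut hδ hδ2
    have hden : 0 < U0 - 4 * δ * aO := by linarith
    have h1 : lam1 Om m μ ≤ quotient Om m μ (cut δ) :=
      csInf_le (bddBelow_quotient hm μ) ⟨_, ht, rfl⟩
    refine h1.trans ?_
    unfold quotient
    have hdc : Continuous (fderiv ℝ (cut δ)) := (contDiff_cut hδ).continuous_fderiv (by simp)
    have hcs : HasCompactSupport (fderiv ℝ (cut δ)) := (compact_cut hδ).fderiv (𝕜 := ℝ)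
    have hbulk : ∫ x in Om, ‖fderiv ℝ (cut δ) x‖ ^ 2 ≤ lam * U0 := by
      calc ∫ x in Om, ‖fderiv ℝ (cut δ) x‖ ^ 2 = ∫ x, ‖fderiv ℝ (cut δ) x‖ ^ 2 := by
            apply ht.setIntegral_eq
            intro x hx
            have : fderiv ℝ (cut δ) x = 0 := by
              have := notMem_tsupport_iff_eventuallyEq.1 hx
              rw [this.fderiv_eq]; simp
            simp [this]
        _ ≤ ∫ x, ip U (cut δ) x := by
            apply integral_mono_of_nonneg
            · exact Eventually.of_forall fun x => sq_nonneg _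
            · unfold ip
              apply Continuous.integrable_of_hasCompactSupport
              · exact continuous_finsetSum _ fun i _ =>
                  (hdU.clm_apply continuous_const).mul (hdc.clm_apply continuous_const)
              · refine hcs.mono ?_
                intro x hx
                rw [Function.mem_support] at hx ⊢
                intro h0
                apply hx
                simp [h0]
            · exact Eventually.of_forall fun x => (ip_cut hδ x).1
        _ = lam * ∫ x, U x * cut δ x := weak_form ((contDiff_cut hδ).of_le (by simp)) (compact_cut hδ)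
        _ = lam * ∫ x in Om, U x * cut δ x := by
            congr 1
            symm
            apply ht.setIntegral_eq
            intro x hx
            simp [image_eq_zero_of_notMem_tsupport hx]
        _ ≤ lam * U0 := by
            refine mul_le_mul_of_nonneg_left ?_ lam_pos.le
            have hUc := contDiff_U.continuous
            have hcc := (contDiff_cut hδ).continuous
            have k1 : Continuous fun x => U x ^ 2 := by fun_prop
            have k2 : Continuous fun x => U x * cut δ x := by fun_prop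
            apply setIntegral_mono_on (integrable_of_cont k2) (integrable_of_cont k1) measurableSet_ball
            intro x hx
            have hx1 : ‖x‖ ≤ 1 := by
              have : ‖x‖ < 1 := by simpa using hx
              exact this.le
            calc U x * cut δ x ≤ U x * U x := by
                  gcongr
                  · exact U_nonneg hx1
                  · exact cut_le hδ hx1
              _ = U x ^ 2 := by ring
    have hline : ∫ x, ‖fderiv ℝ (cut δ) x‖ ^ 2 ∂μ ≤ M := by
      apply integral_mono_of_nonneg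
      · exact Eventually.of_forall fun x => sq_nonneg _
      · -- integrability on the compact set
        have k : Continuous fun x => ‖fderiv ℝ U x‖ ^ 2 := by fun_prop
        obtain ⟨C, hC⟩ := (isCompact_closedBall (0:Pl) 1).exists_bound_of_continuousOn k.continuousOn
        apply Integrable.of_bound k.aestronglyMeasurable C
        rw [ae_iff]
        refine measure_mono_null ?_ hμ
        intro x hx hx'
        exact hx (hC x hx')
      · exact Eventually.of_forall fun x => (ip_cut hδ x).2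
    calc ((∫ x in Om, ‖fderiv ℝ (cut δ) x‖ ^ 2) + m * ∫ x, ‖fderiv ℝ (cut δ) x‖ ^ 2 ∂μ) /
          ∫ x in Om, cut δ x ^ 2 ≤ (lam * U0 + m * M) / ∫ x in Om, cut δ x ^ 2 := by
          have : 0 < ∫ x in Om, cut δ x ^ 2 := hden.trans_le hge
          gcongr
      _ ≤ (lam * U0 + m * M) / (U0 - 4 * δ * aO) := by
          have := lam_pos
          gcongr
  -- let δ → 0
  have hlim : Tendsto (fun δ : ℝ => (lam * U0 + m * M) / (U0 - 4 * δ * aO)) (𝓝[>] 0)
      (𝓝 ((lam * U0 + m * M) / (U0 - 4 * 0 * aO))) := by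
    have : ContinuousAt (fun δ : ℝ => (lam * U0 + m * M) / (U0 - 4 * δ * aO)) 0 := by
      apply ContinuousAt.div
      · fun_prop
      · fun_prop
      · simp [hU0.ne']
    exact this.tendsto.mono_left nhdsWithin_le_nhds
  have e : (lam * U0 + m * M) / (U0 - 4 * 0 * aO) = lam + m * M / U0 := by
    rw [mul_zero, zero_mul, sub_zero]
    field_simp
  rw [e] at hlim
  apply ge_of_tendsto hlim
  have h1 : ∀ᶠ δ : ℝ in 𝓝[>] 0, 0 < δ := self_mem_nhdsWithin
  have h2 : ∀ᶠ δ : ℝ in 𝓝[>] 0, 4 * δ * aO < U0 := by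
    have : ContinuousAt (fun δ : ℝ => 4 * δ * aO) 0 := by fun_prop
    exact (this.eventually (gt_mem_nhds (by simpa using hU0))).filter_mono nhdsWithin_le_nhds
  filter_upwards [h1, h2] with δ hδ1 hδ2
  exact key δ hδ1 hδ2

end Pool.Agent.Lib.MP_a4170f_an
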